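import Pool.Agent.Lib_helper37.GC.Root

/-!
# How the statistics change when a few pairs are flipped
-/

set_option autoImplicit false

open Finset

namespace Pool.Agent.Lib_helper37.GC

variable {V : Type}

/-- The graph in which the pairs in `D` are flipped. -/
def sd (G : SimpleGraph V) (D : Finset (Sym2 V)) : SimpleGraph V where
  Adj u v := u ≠ v ∧ ((s(u, v) ∈ D ∧ ¬ G.Adj u v) ∨ (s(u, v) ∉ D ∧ G.Adj u v))
  symm := ⟨fun u v h => by
    rw [Sym2.eq_swap (a := v) (b := u)]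
    exact ⟨h.1.symm, h.2.imp (fun h => ⟨h.1, fun h' => h.2 h'.symm⟩) fun h => ⟨h.1, h.2.symm⟩⟩⟩
  loopless := ⟨fun u h => h.1 rfl⟩

/-- The sign of a pair. -/
noncomputable def sg (G G' : SimpleGraph V) (x y : V) : ℤ := ind (G'.Adj x y) - ind (G.Adj x y)

theorem ind_congr {p q : Prop} (h : p ↔ q) : ind p = ind q := by
  rw [propext h]

theorem sd_of_notMem (G : SimpleGraph V) (D : Finset (Sym2 V)) (x y : V) (h : s(x, y) ∉ D) :
    (sd G D).Adj x y ↔ G.Adj x y := by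
  constructor
  · rintro ⟨_, h1 | h1⟩
    · exact absurd h1.1 h
    · exact h1.2
  · intro h1
    exact ⟨h1.ne, Or.inr ⟨h, h1⟩⟩

theorem sg_zero (G : SimpleGraph V) (D : Finset (Sym2 V)) (x y : V) (h : s(x, y) ∉ D) :
    sg G (sd G D) x y = 0 := by
  rw [sg, ind_congr (sd_of_notMem G D x y h), sub_self]

theorem sg_congr (G1 G2 : SimpleGraph V) (D : Finset (Sym2 V)) (x y : V)
    (h : s(x, y) ∈ D → (G1.Adj x y ↔ G2.Adj x y)) :
    sg G1 (sd G1 D) x y = sg G2 (sd G2 D) x y := by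
  by_cases hD : s(x, y) ∈ D
  · have h1 : (sd G1 D).Adj x y ↔ (sd G2 D).Adj x y := by
      show (x ≠ y ∧ _) ↔ (x ≠ y ∧ _)
      rw [h hD]
    rw [sg, sg, ind_congr h1, ind_congr (h hD)]
  · rw [sg_zero _ _ _ _ hD, sg_zero _ _ _ _ hD]

theorem sg_ne_zero (G : SimpleGraph V) (D : Finset (Sym2 V)) (x y : V) (hxy : x ≠ y)
    (h : s(x, y) ∈ D) : sg G (sd G D) x y ≠ 0 := by
  rw [sg]
  by_cases hG : G.Adj x y
  · have h1 : ¬ (sd G D).Adj x y := by
      rintro ⟨_, h1 | h1⟩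
      · exact h1.2 hG
      · exact h1.1 h
    rw [ind_pos hG, ind_neg h1]
    norm_num
  · have h1 : (sd G D).Adj x y := ⟨hxy, Or.inl ⟨h, hG⟩⟩
    rw [ind_neg hG, ind_pos h1]
    norm_num

variable [Fintype V]

theorem dg_sub (G G' : SimpleGraph V) (x : V) : dg G' x - dg G x = ∑ y, sg G G' x y := by
  simp only [dg, sg, Finset.sum_sub_distrib]

theorem Q_diff (G G' : SimpleGraph V) (i : ℕ) :
    ∑ x, dg G' x ^ i * pw G' 1 x - ∑ x, dg G x ^ i * pw G 1 x =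
      ∑ x, ∑ y, sg G G' x y * (dg G' x ^ i * dg G' y) +
      ∑ x, (dg G' x ^ i - dg G x ^ i) * pw G 1 x +
      ∑ x, ∑ y, ind (G.Adj x y) * ((dg G' x ^ i - dg G x ^ i) * (dg G' y - dg G y)) +
      ∑ y, (dg G' y - dg G y) * pw G i y := by
  have h1 : ∑ y, (dg G' y - dg G y) * pw G i y =
      ∑ x, ∑ y, ind (G.Adj x y) * (dg G x ^ i * (dg G' y - dg G y)) := by
    rw [Finset.sum_comm]
    refine Finset.sum_congr rfl fun y _ => ?_
    rw [pw, Finset.mul_sum]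
    refine Finset.sum_congr rfl fun x _ => ?_
    rw [G.adj_comm]
    ring
  rw [h1]
  simp only [pw, Finset.mul_sum, ← Finset.sum_sub_distrib, ← Finset.sum_add_distrib, sg]
  refine Finset.sum_congr rfl fun x _ => ?_
  refine Finset.sum_congr rfl fun y _ => ?_
  ring

theorem pw_sub (G G' : SimpleGraph V) (h : ∀ x, dg G' x = dg G x) (i : ℕ) (x : V) :
    pw G' i x = pw G i x + ∑ y, sg G G' x y * dg G y ^ i := by
  simp only [pw, ← Finset.sum_add_distrib, sg, h]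
  refine Finset.sum_congr rfl fun y _ => ?_
  ring

theorem P_diff (G G' : SimpleGraph V) (h : ∀ x, dg G' x = dg G x) (i j : ℕ) :
    ∑ x, pw G' i x * pw G' j x - ∑ x, pw G i x * pw G j x =
      ∑ x, (∑ y, sg G G' x y * dg G y ^ i) * pw G j x +
      ∑ x, (∑ y, sg G G' x y * dg G y ^ j) * pw G i x +
      ∑ x, (∑ y, sg G G' x y * dg G y ^ i) * (∑ y, sg G G' x y * dg G y ^ j) := by
  simp only [pw_sub G G' h, ← Finset.sum_sub_distrib, ← Finset.sum_add_distrib]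
  refine Finset.sum_congr rfl fun x _ => ?_
  ring

theorem S_diff (G G' : SimpleGraph V) (i j : ℕ) (hi : ∀ x, pw G' i x = pw G i x)
    (hj : ∀ x, pw G' j x = pw G j x) :
    ∑ x, pw G' i x * ∑ y, ind (G'.Adj x y) * pw G' j y -
      ∑ x, pw G i x * ∑ y, ind (G.Adj x y) * pw G j y =
      ∑ y, (∑ x, sg G G' x y * pw G i x) * pw G j y := by
  simp only [hi, hj, Finset.sum_mul]
  rw [Finset.sum_comm]
  simp only [Finset.mul_sum, ← Finset.sum_sub_distrib, sg]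
  refine Finset.sum_congr rfl fun x _ => ?_
  refine Finset.sum_congr rfl fun y _ => ?_
  ring

/-- The value of `pw` at `x₀` is determined by the other data on `U`. -/
def Hyp (U : Finset V) (x0 : V) (i0 L : ℕ) (P : SimpleGraph V → Prop) : Prop :=
  ∀ G1 G2, P G1 → P G2 → (∀ x ∈ U, ∀ y ∈ U, (G1.Adj x y ↔ G2.Adj x y)) →
    (∀ x ∈ U, dg G1 x = dg G2 x) → ∀ J, i0 < J → J ≤ L →
    (∀ j < J, ∀ x ∈ U, pw G1 j x = pw G2 j x) →
    (∀ x ∈ U, x ≠ x0 → pw G1 J x = pw G2 J x) → pw G1 J x0 = pw G2 J x0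

/-- `U` contains the ends of the pairs in `D`. -/
def Sup (U : Finset V) (D : Finset (Sym2 V)) : Prop := ∀ x y, s(x, y) ∈ D → x ∈ U ∧ y ∈ U

section common

variable {U : Finset V} {D : Finset (Sym2 V)} (hU : Sup U D) {G1 G2 : SimpleGraph V}
  (hadj : ∀ x ∈ U, ∀ y ∈ U, (G1.Adj x y ↔ G2.Adj x y)) (hdg : ∀ x ∈ U, dg G1 x = dg G2 x)

include hU

theorem sg_out (G : SimpleGraph V) {x y : V} (h : x ∉ U ∨ y ∉ U) : sg G (sd G D) x y = 0 := by
  refine sg_zero G D x y fun h' => ?_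
  rcases h with h | h
  · exact h (hU x y h').1
  · exact h (hU x y h').2

theorem dg_out (G : SimpleGraph V) {x : V} (h : x ∉ U) : dg (sd G D) x = dg G x := by
  have h1 := dg_sub G (sd G D) x
  rw [Finset.sum_eq_zero fun y _ => sg_out hU G (Or.inl h)] at h1
  linarith

include hadj

theorem sg_eq (x y : V) : sg G1 (sd G1 D) x y = sg G2 (sd G2 D) x y :=
  sg_congr G1 G2 D x y fun h => hadj x (hU x y h).1 y (hU x y h).2

theorem sub_eq (x : V) : dg (sd G1 D) x - dg G1 x = dg (sd G2 D) x - dg G2 x := by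
  rw [dg_sub, dg_sub]
  exact Finset.sum_congr rfl fun y _ => sg_eq hU hadj x y

include hdg

theorem dg_eq' {x : V} (hx : x ∈ U) : dg (sd G1 D) x = dg (sd G2 D) x := by
  have h1 := sub_eq hU hadj x
  have h2 := hdg x hx
  linarith

theorem kap_eq (i : ℕ) (x : V) : ∑ y, sg G1 (sd G1 D) x y * dg G1 y ^ i =
    ∑ y, sg G2 (sd G2 D) x y * dg G2 y ^ i := by
  refine Finset.sum_congr rfl fun y _ => ?_
  by_cases hy : y ∈ U
  · rw [sg_eq hU hadj, hdg y hy]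
  · rw [sg_out hU G1 (Or.inr hy), sg_out hU G2 (Or.inr hy)]
    ring

end common

/-- A degree changes. -/
def PA (D : Finset (Sym2 V)) (L : ℕ) (x0 : V) (G : SimpleGraph V) : Prop :=
  dg (sd G D) x0 ≠ dg G x0 ∧ ∀ J, 1 < J → J ≤ L →
    ∑ x, dg G x ^ J * pw G 1 x = ∑ x, dg (sd G D) x ^ J * pw (sd G D) 1 x

theorem hyp_A (U : Finset V) (D : Finset (Sym2 V)) (hU : Sup U D) (x0 : V) (hx0 : x0 ∈ U) (L : ℕ) :
    Hyp U x0 1 L (PA D L x0) := by
  intro G1 G2 h1 h2 hadj hdg J hJ1 hJL hlow hJ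
  have e1 := Q_diff G1 (sd G1 D) J
  have e2 := Q_diff G2 (sd G2 D) J
  rw [← h1.2 J hJ1 hJL, sub_self] at e1
  rw [← h2.2 J hJ1 hJL, sub_self] at e2
  have f1 : ∑ x, ∑ y, sg G1 (sd G1 D) x y * (dg (sd G1 D) x ^ J * dg (sd G1 D) y) =
      ∑ x, ∑ y, sg G2 (sd G2 D) x y * (dg (sd G2 D) x ^ J * dg (sd G2 D) y) := by
    refine Finset.sum_congr rfl fun x _ => Finset.sum_congr rfl fun y _ => ?_
    by_cases hx : x ∈ U
    · by_cases hy : y ∈ U
      · rw [sg_eq hU hadj, dg_eq' hU hadj hdg hx, dg_eq' hU hadj hdg hy]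
      · rw [sg_out hU G1 (Or.inr hy), sg_out hU G2 (Or.inr hy)]; ring
    · rw [sg_out hU G1 (Or.inl hx), sg_out hU G2 (Or.inl hx)]; ring
  have f2 : ∑ x, (dg (sd G1 D) x ^ J - dg G1 x ^ J) * pw G1 1 x =
      ∑ x, (dg (sd G2 D) x ^ J - dg G2 x ^ J) * pw G2 1 x := by
    refine Finset.sum_congr rfl fun x _ => ?_
    by_cases hx : x ∈ U
    · rw [dg_eq' hU hadj hdg hx, hdg x hx, hlow 1 hJ1 x hx]
    · rw [dg_out hU G1 hx, dg_out hU G2 hx]; ring
  have f3 : ∑ x, ∑ y, ind (G1.Adj x y) * ((dg (sd G1 D) x ^ J - dg G1 x ^ J) *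
        (dg (sd G1 D) y - dg G1 y)) =
      ∑ x, ∑ y, ind (G2.Adj x y) * ((dg (sd G2 D) x ^ J - dg G2 x ^ J) *
        (dg (sd G2 D) y - dg G2 y)) := by
    refine Finset.sum_congr rfl fun x _ => Finset.sum_congr rfl fun y _ => ?_
    by_cases hx : x ∈ U
    · by_cases hy : y ∈ U
      · rw [ind_congr (hadj x hx y hy), dg_eq' hU hadj hdg hx, dg_eq' hU hadj hdg hy, hdg x hx,
          hdg y hy]
      · rw [dg_out hU G1 hy, dg_out hU G2 hy]; ring
    · rw [dg_out hU G1 hx, dg_out hU G2 hx]; ring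
  rw [f1, f2, f3] at e1
  have f4 : ∑ y, (dg (sd G1 D) y - dg G1 y) * pw G1 J y =
      ∑ y, (dg (sd G2 D) y - dg G2 y) * pw G2 J y := by linarith
  have f5 : ∑ y, (dg (sd G1 D) y - dg G1 y) * (pw G1 J y - pw G2 J y) = 0 := by
    have : ∑ y, (dg (sd G1 D) y - dg G1 y) * pw G2 J y =
        ∑ y, (dg (sd G2 D) y - dg G2 y) * pw G2 J y :=
      Finset.sum_congr rfl fun y _ => by rw [sub_eq hU hadj]
    simp only [mul_sub, Finset.sum_sub_distrib]
    linarith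
  rw [Finset.sum_eq_single x0] at f5
  · rcases mul_eq_zero.1 f5 with h | h
    · exact absurd (sub_eq_zero.1 h) h1.1
    · exact sub_eq_zero.1 h
  · intro y _ hy
    by_cases hyU : y ∈ U
    · rw [hJ y hyU hy]; ring
    · rw [dg_out hU G1 hyU]; ring
  · intro h
    exact absurd (Finset.mem_univ _) h

/-- The degrees do not change, the power sums of the degrees of the neighbours do. -/
def PB (D : Finset (Sym2 V)) (L : ℕ) (x0 : V) (i : ℕ) (G : SimpleGraph V) : Prop :=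
  (∀ x, dg (sd G D) x = dg G x) ∧ ∑ y, sg G (sd G D) x0 y * dg G y ^ i ≠ 0 ∧
    ∀ J, i < J → J ≤ L →
    ∑ x, pw G i x * pw G J x = ∑ x, pw (sd G D) i x * pw (sd G D) J x

theorem hyp_B (U : Finset V) (D : Finset (Sym2 V)) (hU : Sup U D) (x0 : V) (hx0 : x0 ∈ U)
    (i L : ℕ) : Hyp U x0 i L (PB D L x0 i) := by
  intro G1 G2 h1 h2 hadj hdg J hJ1 hJL hlow hJ
  have e1 := P_diff G1 (sd G1 D) h1.1 i J
  have e2 := P_diff G2 (sd G2 D) h2.1 i J
  rw [← h1.2.2 J hJ1 hJL, sub_self] at e1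
  rw [← h2.2.2 J hJ1 hJL, sub_self] at e2
  simp only [kap_eq hU hadj hdg] at e1
  have kz : ∀ (j : ℕ) (x : V), x ∉ U → ∑ y, sg G2 (sd G2 D) x y * dg G2 y ^ j = 0 := by
    intro j x hx
    refine Finset.sum_eq_zero fun y _ => ?_
    rw [sg_out hU G2 (Or.inl hx), zero_mul]
  have f1 : ∑ x, (∑ y, sg G2 (sd G2 D) x y * dg G2 y ^ J) * pw G1 i x =
      ∑ x, (∑ y, sg G2 (sd G2 D) x y * dg G2 y ^ J) * pw G2 i x := by
    refine Finset.sum_congr rfl fun x _ => ?_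
    by_cases hx : x ∈ U
    · rw [hlow i hJ1 x hx]
    · rw [kz J x hx]; ring
  rw [f1] at e1
  have f5 : ∑ x, (∑ y, sg G2 (sd G2 D) x y * dg G2 y ^ i) * (pw G1 J x - pw G2 J x) = 0 := by
    simp only [mul_sub, Finset.sum_sub_distrib]
    linarith
  rw [Finset.sum_eq_single x0] at f5
  · rcases mul_eq_zero.1 f5 with h | h
    · exact absurd h h2.2.1
    · exact sub_eq_zero.1 h
  · intro y _ hy
    by_cases hyU : y ∈ U
    · rw [hJ y hyU hy]; ring
    · rw [kz i y hyU]; ring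
  · intro h
    exact absurd (Finset.mem_univ _) h

/-- The degrees and the power sums do not change. -/
def PS (D : Finset (Sym2 V)) (L : ℕ) (x0 : V) (i : ℕ) (G : SimpleGraph V) : Prop :=
  (∀ j ≤ L, ∀ x, pw (sd G D) j x = pw G j x) ∧ ∑ x, sg G (sd G D) x x0 * pw G i x ≠ 0 ∧
    ∀ J, i < J → J ≤ L →
    ∑ x, pw G i x * ∑ y, ind (G.Adj x y) * pw G J y =
      ∑ x, pw (sd G D) i x * ∑ y, ind ((sd G D).Adj x y) * pw (sd G D) J y

theorem hyp_S (U : Finset V) (D : Finset (Sym2 V)) (hU : Sup U D) (x0 : V) (hx0 : x0 ∈ U)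
    (i L : ℕ) : Hyp U x0 i L (PS D L x0 i) := by
  intro G1 G2 h1 h2 hadj hdg J hJ1 hJL hlow hJ
  have e1 := S_diff G1 (sd G1 D) i J (h1.1 i (by omega)) (h1.1 J hJL)
  have e2 := S_diff G2 (sd G2 D) i J (h2.1 i (by omega)) (h2.1 J hJL)
  rw [← h1.2.2 J hJ1 hJL, sub_self] at e1
  rw [← h2.2.2 J hJ1 hJL, sub_self] at e2
  have ke : ∀ y, ∑ x, sg G1 (sd G1 D) x y * pw G1 i x = ∑ x, sg G2 (sd G2 D) x y * pw G2 i x := by
    intro y
    refine Finset.sum_congr rfl fun x _ => ?_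
    by_cases hx : x ∈ U
    · rw [sg_eq hU hadj, hlow i hJ1 x hx]
    · rw [sg_out hU G1 (Or.inl hx), sg_out hU G2 (Or.inl hx)]; ring
  have kz : ∀ y, y ∉ U → ∑ x, sg G2 (sd G2 D) x y * pw G2 i x = 0 := by
    intro y hy
    refine Finset.sum_eq_zero fun x _ => ?_
    rw [sg_out hU G2 (Or.inr hy), zero_mul]
  simp only [ke] at e1
  have f5 : ∑ y, (∑ x, sg G2 (sd G2 D) x y * pw G2 i x) * (pw G1 J y - pw G2 J y) = 0 := by
    simp only [mul_sub, Finset.sum_sub_distrib]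
    linarith
  rw [Finset.sum_eq_single x0] at f5
  · rcases mul_eq_zero.1 f5 with h | h
    · exact absurd h h2.2.1
    · exact sub_eq_zero.1 h
  · intro y _ hy
    by_cases hyU : y ∈ U
    · rw [hJ y hyU hy]; ring
    · rw [kz y hyU]; ring
  · intro h
    exact absurd (Finset.mem_univ _) h

/-- The signed sums at `z₀` vanish. -/
def PC (D : Finset (Sym2 V)) (L : ℕ) (z0 : V) (G : SimpleGraph V) : Prop :=
  ∀ J, 0 < J → J ≤ L → ∑ y, sg G (sd G D) y z0 * pw G J y = 0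

theorem hyp_C (U : Finset V) (D : Finset (Sym2 V)) (hU : Sup U D) (z0 x0 : V) (hne : x0 ≠ z0)
    (hD : s(x0, z0) ∈ D) (L : ℕ) : Hyp U x0 0 L (PC D L z0) := by
  intro G1 G2 h1 h2 hadj hdg J hJ1 hJL hlow hJ
  have e1 := h1 J hJ1 hJL
  have e2 := h2 J hJ1 hJL
  have f5 : ∑ y, sg G2 (sd G2 D) y z0 * (pw G1 J y - pw G2 J y) = 0 := by
    have : ∑ y, sg G1 (sd G1 D) y z0 * pw G1 J y = ∑ y, sg G2 (sd G2 D) y z0 * pw G1 J y :=
      Finset.sum_congr rfl fun y _ => by rw [sg_eq hU hadj]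
    simp only [mul_sub, Finset.sum_sub_distrib]
    linarith
  rw [Finset.sum_eq_single x0] at f5
  · rcases mul_eq_zero.1 f5 with h | h
    · exact absurd h (sg_ne_zero G2 D x0 z0 hne hD)
    · exact sub_eq_zero.1 h
  · intro y _ hy
    by_cases hyU : y ∈ U
    · rw [hJ y hyU hy]; ring
    · rw [sg_out hU G2 (Or.inl hyU)]; ring
  · intro h
    exact absurd (Finset.mem_univ _) h

end Pool.Agent.Lib_helper37.GC
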