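import Pool.Agent.Lib_helper37.GC.Incl

/-!
# The limit of the number of configurations
-/

set_option autoImplicit false

open Finset Filter Topology

namespace Pool.Agent.Lib_helper37.GC

variable {V V' A : Type}

/-- The number of maps `v : A → V` whose equalities satisfy `R` and which map the pairs in `I` to edges. -/
noncomputable def HR (G : SimpleGraph V) (R : (A → A → Prop) → Prop) (I : Finset (A × A)) : ℕ :=
  Nat.card {v : A → V // R (fun i j => v i = v j) ∧ ∀ e ∈ I, G.Adj (v e.1) (v e.2)}

/-- The colour choices which are constant along `I`. -/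
abbrev XI (A : Type) (I : Finset (A × A)) (k : ℕ) : Type := {x : A → Fin k // ∀ e ∈ I, x e.1 = x e.2}

/-- The number of colourings and new colours for given vertices. -/
noncomputable def AV (G : SimpleGraph V) (k : ℕ) (I : Finset (A × A)) (v : A → V) : ℕ :=
  Nat.card {t : Col G k × XI A I k // ∀ i, Free G t.1.1 (v i) (t.2.1 i)}

open Classical in
theorem MI_sum [Finite V] [Finite A] (G : SimpleGraph V) (k : ℕ) (R : (A → A → Prop) → Prop)
    (I : Finset (A × A))
    [Fintype {v : A → V // R (fun i j => v i = v j) ∧ ∀ e ∈ I, G.Adj (v e.1) (v e.2)}] :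
    MI G k R I = ∑ v : {v : A → V // R (fun i j => v i = v j) ∧ ∀ e ∈ I, G.Adj (v e.1) (v e.2)},
      AV G k I v.1 := by
  unfold AV
  rw [← Nat.card_sigma]
  refine Nat.card_congr ⟨fun t => ⟨⟨t.1.2.1, t.2.1.2, fun e he => (t.2.2 e he).1⟩,
      ⟨(t.1.1, ⟨t.1.2.2, fun e he => (t.2.2 e he).2⟩), t.2.1.1⟩⟩,
    fun s => ⟨(s.2.1.1, s.1.1, s.2.1.2.1), ⟨s.2.2, s.1.2.1⟩,
      fun e he => ⟨s.1.2.2 e he, s.2.1.2.2 e he⟩⟩, ?_, ?_⟩
  · intro t; rfl
  · intro s; rfl

section count

variable [Fintype V] [Fintype A]

open Classical in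
theorem card_fix (k : ℕ) (I : Finset (A × A)) (w : V)
    (F : (V → Fin k) × XI A I k → Fin k)
    (hF : ∀ c x a, F (Function.update c w a, x) = F (c, x)) :
    (univ.filter fun p : (V → Fin k) × XI A I k => p.1 w = F p).card * k ≤
      k ^ Fintype.card V * Fintype.card (XI A I k) := by
  have h1 : (univ : Finset ((V → Fin k) × XI A I k)).card =
      k ^ Fintype.card V * Fintype.card (XI A I k) := by
    rw [Finset.card_univ, Fintype.card_prod, Fintype.card_fun, Fintype.card_fin]
  rw [← h1]
  have h2 : (univ.filter fun p : (V → Fin k) × XI A I k => p.1 w = F p).card * k =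
      ((univ.filter fun p : (V → Fin k) × XI A I k => p.1 w = F p) ×ˢ
        (univ : Finset (Fin k))).card := by
    rw [Finset.card_product, Finset.card_univ, Fintype.card_fin]
  rw [h2]
  refine Finset.card_le_card_of_injOn
    (fun q => (Function.update q.1.1 w q.2, q.1.2)) (fun _ _ => Finset.mem_coe.2 (mem_univ _)) ?_
  rintro ⟨⟨c, x⟩, a⟩ hq ⟨⟨c', x'⟩, a'⟩ hq' h
  simp only [Finset.coe_product, Set.mem_prod, Finset.mem_coe, Finset.mem_filter,
    Finset.mem_univ, true_and, and_true] at hq hq'
  simp only [Prod.mk.injEq] at h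
  obtain ⟨h3, rfl⟩ := h
  have ha : a = a' := by
    have := congrFun h3 w
    simpa using this
  subst ha
  have hc : c = c' := by
    funext u
    by_cases hu : u = w
    · subst hu
      rw [hq, hq', ← hF c x a, ← hF c' x a, h3]
    · have := congrFun h3 u
      rwa [Function.update_of_ne hu, Function.update_of_ne hu] at this
  rw [hc]

open Classical in
theorem AV_le (G : SimpleGraph V) (k : ℕ) (I : Finset (A × A)) (v : A → V) :
    AV G k I v ≤ k ^ Fintype.card V * Fintype.card (XI A I k) := by
  have h1 : Fintype.card ((V → Fin k) × XI A I k) =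
      k ^ Fintype.card V * Fintype.card (XI A I k) := by
    rw [Fintype.card_prod, Fintype.card_fun, Fintype.card_fin]
  rw [← h1, ← Nat.card_eq_fintype_card]
  refine Nat.card_le_card_of_injective (fun t => (t.1.1.1, t.1.2)) ?_
  intro t t' h
  simp only [Prod.mk.injEq] at h
  exact Subtype.ext (Prod.ext (Subtype.ext h.1) h.2)

open Classical in
theorem le_AV (G : SimpleGraph V) (k : ℕ) (I : Finset (A × A)) (v : A → V) :
    k ^ Fintype.card V * Fintype.card (XI A I k) * k ≤ AV G k I v * k +
      (Fintype.card V * Fintype.card V + Fintype.card A * Fintype.card V) *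
        (k ^ Fintype.card V * Fintype.card (XI A I k)) := by
  set N := k ^ Fintype.card V * Fintype.card (XI A I k) with hN
  have h1 : (univ : Finset ((V → Fin k) × XI A I k)).card = N := by
    rw [Finset.card_univ, Fintype.card_prod, Fintype.card_fun, Fintype.card_fin]
  -- the good pairs
  set good := univ.filter fun p : (V → Fin k) × XI A I k =>
    (∀ u w, G.Adj u w → p.1 u ≠ p.1 w) ∧ ∀ i, Free G p.1 (v i) (p.2.1 i) with hgood
  have h2 : good.card = AV G k I v := by
    rw [AV, hgood, ← Fintype.card_subtype, ← Nat.card_eq_fintype_card]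
    refine Nat.card_congr ⟨fun p => ⟨(⟨p.1.1, p.2.1⟩, p.1.2), p.2.2⟩,
      fun t => ⟨(t.1.1.1, t.1.2), t.1.1.2, t.2⟩, ?_, ?_⟩
    · intro p; rfl
    · intro t; rfl
  set B1 : V × V → Finset ((V → Fin k) × XI A I k) := fun q =>
    if q.1 = q.2 then ∅ else univ.filter fun p => p.1 q.2 = p.1 q.1 with hB1
  set B2 : A × V → Finset ((V → Fin k) × XI A I k) := fun q =>
    univ.filter fun p => p.1 q.2 = p.2.1 q.1 with hB2
  have h3 : (univ : Finset ((V → Fin k) × XI A I k)) ⊆
      good ∪ ((univ : Finset (V × V)).biUnion B1 ∪ (univ : Finset (A × V)).biUnion B2) := by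
    intro p _
    by_cases hp : p ∈ good
    · exact Finset.mem_union_left _ hp
    · apply Finset.mem_union_right
      rw [hgood, Finset.mem_filter, not_and_or] at hp
      rcases hp with hp | hp
      · exact absurd (Finset.mem_univ _) hp
      rw [not_and_or] at hp
      rcases hp with hp | hp
      · push Not at hp
        obtain ⟨u, w, h4, h5⟩ := hp
        apply Finset.mem_union_left
        rw [Finset.mem_biUnion]
        refine ⟨(u, w), Finset.mem_univ _, ?_⟩
        rw [hB1]
        simp only [h4.ne, if_false, Finset.mem_filter, Finset.mem_univ, true_and]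
        exact h5.symm
      · push Not at hp
        obtain ⟨i, hi⟩ := hp
        apply Finset.mem_union_right
        rw [Finset.mem_biUnion]
        rw [Free, not_and_or] at hi
        rcases hi with hi | hi
        · refine ⟨(i, v i), Finset.mem_univ _, ?_⟩
          rw [hB2]
          simp only [Finset.mem_filter, Finset.mem_univ, true_and]
          exact (not_not.1 hi).symm
        · push Not at hi
          obtain ⟨w, _, hw⟩ := hi
          refine ⟨(i, w), Finset.mem_univ _, ?_⟩
          rw [hB2]
          simp only [Finset.mem_filter, Finset.mem_univ, true_and]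
          exact hw.symm
  have h4 : ∀ q, (B1 q).card * k ≤ N := by
    intro q
    rw [hB1]
    by_cases hq : q.1 = q.2
    · simp [hq]
    · simp only [hq, if_false]
      refine card_fix k I q.2 (fun p => p.1 q.1) ?_
      intro c x a
      simp [Function.update_of_ne hq]
  have h5 : ∀ q, (B2 q).card * k ≤ N := by
    intro q
    rw [hB2]
    exact card_fix k I q.2 (fun p => p.2.1 q.1) (fun c x a => rfl)
  have h6 : N ≤ good.card + (∑ q, (B1 q).card + ∑ q, (B2 q).card) := by
    rw [← h1]
    refine le_trans (Finset.card_le_card h3) ?_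
    refine le_trans (Finset.card_union_le _ _) ?_
    gcongr
    refine le_trans (Finset.card_union_le _ _) ?_
    gcongr
    · exact Finset.card_biUnion_le
    · exact Finset.card_biUnion_le
  calc N * k ≤ (good.card + (∑ q, (B1 q).card + ∑ q, (B2 q).card)) * k := by gcongr
    _ = good.card * k + (∑ q, (B1 q).card * k + ∑ q, (B2 q).card * k) := by
        rw [add_mul, add_mul, Finset.sum_mul, Finset.sum_mul]
    _ ≤ good.card * k + (∑ _q : V × V, N + ∑ _q : A × V, N) := by
        gcongr with q _ q _
        · exact h4 q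
        · exact h5 q
    _ = _ := by
        rw [h2]
        simp only [Finset.sum_const, Finset.card_univ, Fintype.card_prod, smul_eq_mul]
        ring

theorem XI_pos (k : ℕ) (hk : 0 < k) (I : Finset (A × A)) [Fintype (XI A I k)] :
    0 < Fintype.card (XI A I k) :=
  Fintype.card_pos_iff.2 ⟨⟨fun _ => ⟨0, hk⟩, fun _ _ => rfl⟩⟩

open Classical in
/-- The limit of the normalised number of configurations. -/
theorem MI_lim (G : SimpleGraph V) (R : (A → A → Prop) → Prop) (I : Finset (A × A)) :
    Tendsto (fun k : ℕ => (MI G k R I : ℝ) /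
      ((k : ℝ) ^ Fintype.card V * (Fintype.card (XI A I k) : ℝ))) atTop (𝓝 (HR G R I : ℝ)) := by
  set C : ℝ := HR G R I * (Fintype.card V * Fintype.card V + Fintype.card A * Fintype.card V) with hC
  have hcard : (HR G R I : ℕ) =
      Fintype.card {v : A → V // R (fun i j => v i = v j) ∧ ∀ e ∈ I, G.Adj (v e.1) (v e.2)} :=
    Nat.card_eq_fintype_card
  have hup : ∀ k : ℕ, 0 < k → (MI G k R I : ℝ) /
      ((k : ℝ) ^ Fintype.card V * (Fintype.card (XI A I k) : ℝ)) ≤ HR G R I := by
    intro k hk
    have hx : (0 : ℝ) < Fintype.card (XI A I k) := by exact_mod_cast XI_pos k hk I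
    have hk' : (0 : ℝ) < k := by exact_mod_cast hk
    rw [div_le_iff₀ (by positivity)]
    have h1 : MI G k R I ≤ HR G R I * (k ^ Fintype.card V * Fintype.card (XI A I k)) := by
      rw [MI_sum, hcard, ← Finset.card_univ, ← smul_eq_mul]
      exact Finset.sum_le_card_nsmul _ _ _ fun v _ => AV_le G k I v.1
    exact_mod_cast h1
  have hlo : ∀ k : ℕ, 0 < k → (HR G R I : ℝ) - C / k ≤ (MI G k R I : ℝ) /
      ((k : ℝ) ^ Fintype.card V * (Fintype.card (XI A I k) : ℝ)) := by
    intro k hk
    have hx : (0 : ℝ) < Fintype.card (XI A I k) := by exact_mod_cast XI_pos k hk I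
    have hk' : (0 : ℝ) < k := by exact_mod_cast hk
    rw [le_div_iff₀ (by positivity)]
    have h1 : HR G R I * (k ^ Fintype.card V * Fintype.card (XI A I k) * k) ≤
        MI G k R I * k + HR G R I *
          ((Fintype.card V * Fintype.card V + Fintype.card A * Fintype.card V) *
            (k ^ Fintype.card V * Fintype.card (XI A I k))) := by
      rw [MI_sum, hcard, ← Finset.card_univ, Finset.sum_mul, ← smul_eq_mul, ← Finset.sum_const,
        ← smul_eq_mul (a := (Finset.univ).card), ← Finset.sum_const, ← Finset.sum_add_distrib]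
      exact Finset.sum_le_sum fun v _ => le_AV G k I v.1
    have h2 : (HR G R I : ℝ) * ((k : ℝ) ^ Fintype.card V * Fintype.card (XI A I k) * k) ≤
        MI G k R I * k + HR G R I *
          ((Fintype.card V * Fintype.card V + Fintype.card A * Fintype.card V) *
            ((k : ℝ) ^ Fintype.card V * Fintype.card (XI A I k))) := by exact_mod_cast h1
    have h3 : ((HR G R I : ℝ) - C / k) * ((k : ℝ) ^ Fintype.card V * Fintype.card (XI A I k)) * k =
        (HR G R I : ℝ) * ((k : ℝ) ^ Fintype.card V * Fintype.card (XI A I k) * k) -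
          C * ((k : ℝ) ^ Fintype.card V * Fintype.card (XI A I k)) := by
      field_simp
    have h4 : ((HR G R I : ℝ) - C / k) * ((k : ℝ) ^ Fintype.card V * Fintype.card (XI A I k)) * k ≤
        MI G k R I * k := by
      rw [h3, hC]
      linarith
    exact le_of_mul_le_mul_right h4 hk'
  have h1 : Tendsto (fun k : ℕ => (HR G R I : ℝ) - C / k) atTop (𝓝 (HR G R I : ℝ)) := by
    have := (tendsto_const_div_atTop_nhds_zero_nat C)
    simpa using (tendsto_const_nhds (x := (HR G R I : ℝ))).sub this
  refine tendsto_of_tendsto_of_tendsto_of_le_of_le' h1 tendsto_const_nhds ?_ ?_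
  · filter_upwards [eventually_gt_atTop 0] with k hk using hlo k hk
  · filter_upwards [eventually_gt_atTop 0] with k hk using hup k hk

end count

end Pool.Agent.Lib_helper37.GC
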