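import Pool.Agent.Lib_helper37.GC.Alg

/-!
# The cases
-/

set_option autoImplicit false

open Finset

namespace Pool.Agent.Lib_helper37.GC

variable {V : Type} [Fintype V]

theorem kappa_zero (σ d : V → ℤ) (Y : Finset V) (hσ : ∀ y, y ∉ Y → σ y = 0) (r : ℕ)
    (hY : Y.card ≤ r) (h : ∀ i < r, ∑ y, σ y * d y ^ i = 0) (i : ℕ) : ∑ y, σ y * d y ^ i = 0 := by
  classical
  rcases Nat.eq_zero_or_pos r with hr | hr
  · have hY0 : Y = ∅ := by
      rw [← Finset.card_eq_zero]; omega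
    refine Finset.sum_eq_zero fun y _ => ?_
    rw [hσ y (by rw [hY0]; simp), zero_mul]
  set T : Finset ℚ := Y.image fun y => (d y : ℚ) with hT
  have hTc : T.card ≤ r := Finset.card_image_le.trans hY
  set q : Polynomial ℚ := Lagrange.interpolate T id (fun t => t ^ i) with hq
  have hinj : Set.InjOn (id : ℚ → ℚ) (T : Set ℚ) := Function.injective_id.injOn
  have hev : ∀ t ∈ T, q.eval t = t ^ i := by
    intro t ht
    exact Lagrange.eval_interpolate_at_node (fun t : ℚ => t ^ i) hinj ht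
  have hdeg : q.degree < T.card := Lagrange.degree_interpolate_lt _ hinj
  have hnat : q.natDegree < r := by
    by_cases hq0 : q = 0
    · rw [hq0]; simpa using hr
    · exact (Polynomial.natDegree_lt_iff_degree_lt hq0).2
        (hdeg.trans_le (by exact_mod_cast hTc))
  have h1 : ∑ y, (σ y : ℚ) * q.eval (d y : ℚ) = 0 := by
    simp only [Polynomial.eval_eq_sum_range' hnat, Finset.mul_sum]
    rw [Finset.sum_comm]
    refine Finset.sum_eq_zero fun k hk => ?_
    have h2 := h k (Finset.mem_range.1 hk)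
    have h3 : ∑ y, (σ y : ℚ) * (d y : ℚ) ^ k = 0 := by exact_mod_cast h2
    calc ∑ y, (σ y : ℚ) * (q.coeff k * (d y : ℚ) ^ k) =
        q.coeff k * ∑ y, (σ y : ℚ) * (d y : ℚ) ^ k := by
          rw [Finset.mul_sum]
          exact Finset.sum_congr rfl fun y _ => by ring
      _ = 0 := by rw [h3, mul_zero]
  have h4 : ∑ y, (σ y : ℚ) * (d y : ℚ) ^ i = 0 := by
    rw [← h1]
    refine Finset.sum_congr rfl fun y _ => ?_
    by_cases hy : y ∈ Y
    · rw [hev _ (Finset.mem_image_of_mem _ hy)]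
    · rw [hσ y hy]; simp
  exact_mod_cast h4

/-- One of the four cases holds. -/
theorem cases_of_same (D : Finset (Sym2 V)) (r : ℕ) (hr : D.card ≤ r)
    (L0 L1 L2 m : ℕ) (h21 : L2 ≤ L1) (hrL : r ≤ L1) (hm : 4 * L1 + 8 ≤ m)
    (z1 : V) (G : SimpleGraph V) (h : SameUpTo m G (sd G D)) :
    (∃ x0, dg (sd G D) x0 ≠ dg G x0 ∧ PA D L1 x0 G) ∨
    (∃ x0, ∃ i < r, (∃ y, s(x0, y) ∈ D) ∧ PB D L1 x0 i G) ∨
    (∃ i ≤ L0, PS D L2 z1 i G) ∨ PC D L0 z1 G := by
  classical
  by_cases hA : ∃ x0, dg (sd G D) x0 ≠ dg G x0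
  · left
    obtain ⟨x0, hx0⟩ := hA
    exact ⟨x0, hx0, hx0, fun J hJ1 hJL => same_Q (by omega) G (sd G D) h⟩
  right
  push Not at hA
  by_cases hB : ∃ x0, ∃ i < r, ∑ y, sg G (sd G D) x0 y * dg G y ^ i ≠ 0
  · left
    obtain ⟨x0, i, hi, hx0⟩ := hB
    refine ⟨x0, i, hi, ?_, hA, hx0, fun J hJ1 hJL => same_P (by omega) G (sd G D) h⟩
    by_contra hcon
    push Not at hcon
    apply hx0
    refine Finset.sum_eq_zero fun y _ => ?_
    rw [sg_zero G D x0 y (hcon y), zero_mul]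
  right
  push Not at hB
  have hk : ∀ (i : ℕ) (x : V), ∑ y, sg G (sd G D) x y * dg G y ^ i = 0 := by
    intro i x
    refine kappa_zero (sg G (sd G D) x) (dg G) (univ.filter fun y => s(x, y) ∈ D) ?_ r ?_
      (hB x) i
    · intro y hy
      refine sg_zero G D x y fun h' => hy ?_
      simpa using h'
    · refine le_trans ?_ hr
      refine Finset.card_le_card_of_injOn (fun y => s(x, y)) ?_ ?_
      · intro y hy
        simpa using hy
      · intro y hy y' hy' h'
        simp only [Sym2.eq_iff] at h'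
        rcases h' with ⟨_, h'⟩ | ⟨h1, h2⟩
        · exact h'
        · rw [h2, ← h1]
  have hpw : ∀ (j : ℕ) (x : V), pw (sd G D) j x = pw G j x := by
    intro j x
    rw [pw_sub G (sd G D) hA, hk, add_zero]
  by_cases hS : ∃ i, 0 < i ∧ i ≤ L0 ∧ ∑ x, sg G (sd G D) x z1 * pw G i x ≠ 0
  · left
    obtain ⟨i, _, hi, hz⟩ := hS
    exact ⟨i, hi, fun j _ x => hpw j x, hz, fun J hJ1 hJL => same_S (by omega) G (sd G D) h⟩
  · right
    push Not at hS
    exact fun J hJ1 hJL => hS J hJ1 hJL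

end Pool.Agent.Lib_helper37.GC
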