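import Pool.Agent.Lib_helper37.GC.Upd

/-!
# The colourings around a colouring: a star with corners
-/

set_option autoImplicit false

namespace Pool.Agent.Lib_helper37.GC

variable {V A : Type}

/-- A colouring, vertices and admissible new colours for them; the equalities of the vertices satisfy `R`. -/
def Val (G : SimpleGraph V) {k : ℕ} (R : (A → A → Prop) → Prop)
    (t : Col G k × (A → V) × (A → Fin k)) : Prop :=
  (∀ i, Free G t.1.1 (t.2.1 i) (t.2.2 i)) ∧ R (fun i j => t.2.1 i = t.2.1 j)

/-- The two changes `e.1`, `e.2` cannot be made together. -/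
def Bad (G : SimpleGraph V) {k : ℕ} (t : Col G k × (A → V) × (A → Fin k)) (e : A × A) : Prop :=
  G.Adj (t.2.1 e.1) (t.2.1 e.2) ∧ t.2.2 e.1 = t.2.2 e.2

/-- The index set: the centre, the leaves, the corners. -/
abbrev Ix (J : Finset (A × A)) : Type := Option (A ⊕ J)

/-- The condition on the pattern. -/
def QJ (R : (A → A → Prop) → Prop) (J : Finset (A × A))
    (P : (Ix J → Ix J → Prop) × (Ix J → Ix J → Prop)) : Prop :=
  (∀ i : A, P.2 none (some (.inl i))) ∧
  R (fun i j => P.1 (some (.inl i)) (some (.inl j)) ∨ P.2 (some (.inl i)) (some (.inl j))) ∧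
  ∀ e : J, ¬ P.1 (some (.inr e)) none ∧ P.2 (some (.inr e)) (some (.inl e.1.1)) ∧
    P.2 (some (.inr e)) (some (.inl e.1.2))

open Classical in
theorem card_QJ (G : SimpleGraph V) (k : ℕ) (R : (A → A → Prop) → Prop) (J : Finset (A × A))
    (hR : ∀ r, R r → ∀ e ∈ J, ¬ r e.1 e.2) :
    Nat.card {φ : Ix J → Col G k // QJ R J (pat (colGraph G k) φ)} =
      Nat.card {t : Col G k × (A → V) × (A → Fin k) // Val G R t ∧ ∀ e ∈ J, ¬ Bad G t e} := by
  symm
  let f : {t : Col G k × (A → V) × (A → Fin k) // Val G R t ∧ ∀ e ∈ J, ¬ Bad G t e} →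
      (Ix J → Col G k) := fun t y => match y with
    | none => t.1.1
    | some (.inl i) => ⟨Function.update t.1.1.1 (t.1.2.1 i) (t.1.2.2 i),
        proper_upd G _ t.1.1.2 _ _ (t.2.1.1 i)⟩
    | some (.inr e) => ⟨Function.update (Function.update t.1.1.1 (t.1.2.1 e.1.1) (t.1.2.2 e.1.1))
        (t.1.2.1 e.1.2) (t.1.2.2 e.1.2),
        (proper_upd2 G _ t.1.1.2 _ _ (hR _ t.2.1.2 e.1 e.2) _ _ (t.2.1.1 _) (t.2.1.1 _)).2
          (t.2.2 e.1 e.2)⟩
  have hf : ∀ t, QJ R J (pat (colGraph G k) (f t)) := by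
    intro t
    refine ⟨fun i => ?_, ?_, fun e => ?_⟩
    · exact dif_upd _ _ _ (t.2.1.1 i).1
    · have h2 := t.2.1.2
      have h3 : (fun i j : A => f t (some (.inl i)) = f t (some (.inl j)) ∨
          (colGraph G k).Adj (f t (some (.inl i))) (f t (some (.inl j)))) =
          fun i j => t.1.2.1 i = t.1.2.1 j := by
        funext i j
        apply propext
        rw [Subtype.ext_iff]
        exact upd_upd _ _ _ _ _ (t.2.1.1 i).1 (t.2.1.1 j).1
      exact h3 ▸ h2
    · have h1 := (corner t.1.1.1 _ _ _ _ _ (hR _ t.2.1.2 e.1 e.2) (t.2.1.1 e.1.1).1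
        (t.2.1.1 e.1.2).1).2 rfl
      refine ⟨fun h => h1.1 (congrArg Subtype.val h), h1.2.1, h1.2.2⟩
  refine Nat.card_eq_of_bijective (fun t => ⟨f t, hf t⟩) ⟨?_, ?_⟩
  · rintro t t' h
    have h0 : f t = f t' := congrArg Subtype.val h
    have hc : t.1.1 = t'.1.1 := congrFun h0 none
    have hi : ∀ i, t.1.2.1 i = t'.1.2.1 i ∧ t.1.2.2 i = t'.1.2.2 i := by
      intro i
      have h1 : Function.update t.1.1.1 (t.1.2.1 i) (t.1.2.2 i) =
          Function.update t'.1.1.1 (t'.1.2.1 i) (t'.1.2.2 i) :=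
        congrArg Subtype.val (congrFun h0 (some (.inl i)))
      rw [← hc] at h1
      have h2 : t'.1.2.2 i ≠ t.1.1.1 (t'.1.2.1 i) := by rw [hc]; exact (t'.2.1.1 i).1
      have h3 := (upd_upd t.1.1.1 _ _ _ _ (t.2.1.1 i).1 h2).1 (Or.inl h1)
      refine ⟨h3, ?_⟩
      have h4 := congrFun h1 (t.1.2.1 i)
      rw [Function.update_self, h3, Function.update_self] at h4
      exact h4
    apply Subtype.ext
    refine Prod.ext hc (Prod.ext ?_ ?_)
    · funext i; exact (hi i).1
    · funext i; exact (hi i).2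
  · rintro ⟨φ, h1, h2, h3⟩
    have hv : ∀ i : A, ∃ v, (φ (some (.inl i))).1 v ≠ (φ none).1 v ∧
        (φ (some (.inl i))).1 = Function.update (φ none).1 v ((φ (some (.inl i))).1 v) :=
      fun i => upd_of_dif _ _ (h1 i)
    choose v hv1 hv2 using hv
    set x : A → Fin k := fun i => (φ (some (.inl i))).1 (v i) with hx
    have hfree : ∀ i, Free G (φ none).1 (v i) (x i) := by
      intro i
      refine free_of_proper G _ _ _ (hv1 i) ?_
      have := (φ (some (.inl i))).2
      rw [hv2 i] at this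
      exact this
    have hRv : R (fun i j => v i = v j) := by
      have h4 : (fun i j : A => (pat (colGraph G k) φ).1 (some (.inl i)) (some (.inl j)) ∨
          (pat (colGraph G k) φ).2 (some (.inl i)) (some (.inl j))) = fun i j => v i = v j := by
        funext i j
        apply propext
        show (φ (some (.inl i)) = φ (some (.inl j)) ∨ (∃! u, (φ (some (.inl i))).1 u ≠
          (φ (some (.inl j))).1 u)) ↔ _
        rw [Subtype.ext_iff, hv2 i, hv2 j]
        exact upd_upd _ _ _ _ _ (hv1 i) (hv1 j)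
      rw [← h4]
      exact h2
    have hcor : ∀ e : J, (φ (some (.inr e))).1 =
        Function.update (Function.update (φ none).1 (v e.1.1) (x e.1.1)) (v e.1.2) (x e.1.2) := by
      intro e
      refine (corner _ _ _ _ _ _ (hR _ hRv e.1 e.2) (hv1 e.1.1) (hv1 e.1.2)).1 ⟨?_, ?_, ?_⟩
      · intro h
        exact (h3 e).1 (Subtype.ext h)
      · have := (h3 e).2.1
        rw [← hv2 e.1.1]
        exact this
      · have := (h3 e).2.2
        rw [← hv2 e.1.2]
        exact this
    refine ⟨⟨(φ none, v, x), ⟨hfree, hRv⟩, fun e he => ?_⟩, ?_⟩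
    · refine (proper_upd2 G _ (φ none).2 _ _ (hR _ hRv e he) _ _ (hfree _) (hfree _)).1 ?_
      have := (φ (some (.inr ⟨e, he⟩))).2
      rw [hcor ⟨e, he⟩] at this
      exact this
    · apply Subtype.ext
      funext y
      match y with
      | none => rfl
      | some (.inl i) => exact Subtype.ext (hv2 i).symm
      | some (.inr e) => exact Subtype.ext (hcor e).symm

/-- The graph induced on the range is connected. -/
theorem connected_QJ (G : SimpleGraph V) (k : ℕ) (R : (A → A → Prop) → Prop) (J : Finset (A × A))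
    (φ : Ix J → Col G k) (h : QJ R J (pat (colGraph G k) φ)) :
    ((colGraph G k).induce (Set.range φ)).Connected := by
  have key : ∀ y, ((colGraph G k).induce (Set.range φ)).Reachable ⟨φ none, none, rfl⟩
      ⟨φ y, y, rfl⟩ := by
    have h1 : ∀ i, ((colGraph G k).induce (Set.range φ)).Reachable ⟨φ none, none, rfl⟩
        ⟨φ (some (.inl i)), _, rfl⟩ := by
      intro i
      apply SimpleGraph.Adj.reachable
      exact h.1 i
    intro y
    match y with
    | none => exact SimpleGraph.Reachable.refl _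
    | some (.inl i) => exact h1 i
    | some (.inr e) =>
      refine (h1 e.1.1).trans ?_
      apply SimpleGraph.Adj.reachable
      exact (h.2.2 e).2.1.symm
  have : Nonempty (Set.range φ) := ⟨⟨φ none, none, rfl⟩⟩
  refine ⟨?_⟩
  rintro ⟨_, y, rfl⟩ ⟨_, z, rfl⟩
  exact (key y).symm.trans (key z)

theorem card_Ix [Finite A] (J : Finset (A × A)) : Nat.card (Ix J) = Nat.card A + J.card + 1 := by
  rw [Nat.card_congr (Equiv.refl _), Finite.card_option, Nat.card_sum]
  simp

end Pool.Agent.Lib_helper37.GC
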