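import Pool.Agent.Lib_helper37.GC.Prob

/-!
# The union bound for one set of flipped pairs
-/

set_option autoImplicit false

open Finset

namespace Pool.Agent.Lib_helper37.GC

variable {V : Type} [Fintype V]

theorem typ_mono {u L L' h : ℕ} (hL : L' ≤ L) {G : SimpleGraph V} (hG : Typ u L h G) :
    Typ u L' h G := by
  intro W hW f hf
  obtain ⟨t, ht, htc⟩ := hG W hW f hf
  exact ⟨fun c => t (Fin.castLE (by omega) c),
    fun a b hab => Fin.castLE_injective _ (ht hab), fun c => htc _⟩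

open Classical in
/-- The ends of the pairs in `D`. -/
noncomputable def supp (D : Finset (Sym2 V)) : Finset V := univ.filter fun x => ∃ y, s(x, y) ∈ D

theorem mem_supp {D : Finset (Sym2 V)} {x : V} : x ∈ supp D ↔ ∃ y, s(x, y) ∈ D := by
  classical
  rw [supp, Finset.mem_filter]
  simp

theorem sup_supp (D : Finset (Sym2 V)) : Sup (supp D) D := by
  intro x y h
  exact ⟨mem_supp.2 ⟨y, h⟩, mem_supp.2 ⟨x, by rwa [Sym2.eq_swap]⟩⟩

theorem card_supp (D : Finset (Sym2 V)) : (supp D).card ≤ 2 * D.card := by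
  classical
  have h1 : supp D ⊆ D.biUnion fun e => univ.filter fun x => x ∈ e := by
    intro x hx
    obtain ⟨y, hy⟩ := mem_supp.1 hx
    rw [Finset.mem_biUnion]
    exact ⟨s(x, y), hy, Finset.mem_filter.2 ⟨Finset.mem_univ _, Sym2.mem_mk_left x y⟩⟩
  refine (Finset.card_le_card h1).trans (Finset.card_biUnion_le.trans ?_)
  calc ∑ e ∈ D, (univ.filter fun x => x ∈ e).card ≤ ∑ _e ∈ D, 2 := by
        refine Finset.sum_le_sum fun e _ => ?_
        induction e using Sym2.ind with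
        | _ a b =>
          have h2 : (univ.filter fun x => x ∈ s(a, b)) ⊆ {a, b} := by
            intro x hx
            rw [Finset.mem_filter, Sym2.mem_iff] at hx
            rw [Finset.mem_insert, Finset.mem_singleton]
            exact hx.2
          exact (Finset.card_le_card h2).trans Finset.card_le_two
    _ = 2 * D.card := by rw [Finset.sum_const, smul_eq_mul, mul_comm]

theorem card_or_le {Ω : Type} [Fintype Ω] (p q : Ω → Prop) :
    Nat.card {G : Ω // p G ∨ q G} ≤ Nat.card {G : Ω // p G} + Nat.card {G : Ω // q G} := by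
  classical
  simp only [Nat.card_eq_fintype_card, Fintype.card_subtype]
  refine le_trans (Finset.card_le_card ?_) (Finset.card_union_le _ _)
  intro G hG
  rw [Finset.mem_filter] at hG
  rw [Finset.mem_union, Finset.mem_filter, Finset.mem_filter]
  exact hG.2.imp (fun h => ⟨Finset.mem_univ _, h⟩) fun h => ⟨Finset.mem_univ _, h⟩

theorem card_ex_le {Ω ι : Type} [Fintype Ω] (I : Finset ι) (p : ι → Ω → Prop) (M K : ℕ)
    (h : ∀ i ∈ I, Nat.card {G : Ω // p i G} * K ≤ M) :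
    Nat.card {G : Ω // ∃ i ∈ I, p i G} * K ≤ I.card * M := by
  classical
  have h1 : Nat.card {G : Ω // ∃ i ∈ I, p i G} ≤ ∑ i ∈ I, Nat.card {G : Ω // p i G} := by
    simp only [Nat.card_eq_fintype_card, Fintype.card_subtype]
    refine le_trans (Finset.card_le_card ?_) Finset.card_biUnion_le
    intro G hG
    rw [Finset.mem_filter] at hG
    obtain ⟨i, hi, hp⟩ := hG.2
    rw [Finset.mem_biUnion]
    exact ⟨i, hi, Finset.mem_filter.2 ⟨Finset.mem_univ _, hp⟩⟩
  calc Nat.card {G : Ω // ∃ i ∈ I, p i G} * K ≤ (∑ i ∈ I, Nat.card {G : Ω // p i G}) * K :=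
        Nat.mul_le_mul_right _ h1
    _ = ∑ i ∈ I, Nat.card {G : Ω // p i G} * K := Finset.sum_mul _ _ _
    _ ≤ ∑ _i ∈ I, M := Finset.sum_le_sum h
    _ = I.card * M := by rw [Finset.sum_const, smul_eq_mul]

theorem card_mono {Ω : Type} [Finite Ω] (p q : Ω → Prop) (h : ∀ G, p G → q G) :
    Nat.card {G : Ω // p G} ≤ Nat.card {G : Ω // q G} := by
  refine Nat.card_le_card_of_injective (fun G => ⟨G.1, h _ G.2⟩) ?_
  intro G G' hG
  exact Subtype.ext (congrArg (fun q => q.1) hG)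

theorem count_D (D : Finset (Sym2 V)) (hD : ∀ e ∈ D, ¬ e.IsDiag) (x1 z1 : V)
    (hxz : s(x1, z1) ∈ D) (r L0 L h m K : ℕ) (hr : D.card = r) (hL : L0 ≤ L) (hL0 : 1 ≤ L0)
    (hrL : r ≤ L0) (hm : 4 * L + 8 ≤ m) (hn : 4 * r ≤ Fintype.card V)
    (T : SimpleGraph V → Prop) (hT : ∀ G, T G → Typ (2 * r) L h G)
    (hK1 : ((Fintype.card V + 1) * (2 ^ (2 * r) * K)) ^ 2 ≤ (2 * h + 1) ^ (L0 + 1))
    (hK2 : ((Fintype.card V + 1) ^ ((L0 + 1) * (L0 + 1)) * (2 ^ (2 * r) * K)) ^ 2 ≤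
      (2 * h + 1) ^ (L + 1)) :
    Nat.card {G : SimpleGraph V // T G ∧ SameUpTo m G (sd G D)} * K ≤
      (Fintype.card V + Fintype.card V * r + (L0 + 1) + 1) * Nat.card (SimpleGraph V) := by
  classical
  set n := Fintype.card V with hn'
  set N := Nat.card (SimpleGraph V) with hN
  set U := supp D with hU
  have hUD : Sup U D := sup_supp D
  have hUc : U.card ≤ 2 * r := by rw [← hr]; exact card_supp D
  have hU2 : 2 * U.card ≤ n := by omega
  have hz1 : z1 ∈ U := (hUD x1 z1 hxz).2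
  have hx1 : x1 ∈ U := (hUD x1 z1 hxz).1
  have hne : x1 ≠ z1 := fun h => hD _ hxz (by rw [h]; exact Sym2.diag_isDiag z1)
  have hKi : ∀ i ≤ L0, ((n + 1) ^ ((i + 1) * (i + 1)) * (2 ^ (2 * r) * K)) ^ 2 ≤
      (2 * h + 1) ^ (L + 1) := by
    intro i hi
    refine le_trans ?_ hK2
    gcongr
    omega
  -- case A
  have hA : ∀ x0 ∈ (univ : Finset V), Nat.card {G : SimpleGraph V // T G ∧ (x0 ∈ U ∧ PA D L x0 G)} *
      K ≤ N := by
    intro x0 _
    by_cases hx : x0 ∈ U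
    · refine le_trans (Nat.mul_le_mul_right _ (card_mono _ (fun G => T G ∧ PA D L x0 G) ?_))
        (count_main U x0 hx (2 * r) hUc hU2 1 L h (PA D L x0) T (hyp_A U D hUD x0 hx L) hT K
          (hKi 1 hL0))
      exact fun G hG => ⟨hG.1, hG.2.2⟩
    · have : IsEmpty {G : SimpleGraph V // T G ∧ (x0 ∈ U ∧ PA D L x0 G)} := ⟨fun G => hx G.2.2.1⟩
      rw [Nat.card_of_isEmpty]; simp
  -- case B
  have hB : ∀ q ∈ (univ : Finset V) ×ˢ Finset.range r,
      Nat.card {G : SimpleGraph V // T G ∧ (q.1 ∈ U ∧ PB D L q.1 q.2 G)} * K ≤ N := by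
    intro q hq
    rw [Finset.mem_product, Finset.mem_range] at hq
    by_cases hx : q.1 ∈ U
    · refine le_trans (Nat.mul_le_mul_right _ (card_mono _ (fun G => T G ∧ PB D L q.1 q.2 G) ?_))
        (count_main U q.1 hx (2 * r) hUc hU2 q.2 L h (PB D L q.1 q.2) T
          (hyp_B U D hUD q.1 hx q.2 L) hT K (hKi q.2 (by omega)))
      exact fun G hG => ⟨hG.1, hG.2.2⟩
    · have : IsEmpty {G : SimpleGraph V // T G ∧ (q.1 ∈ U ∧ PB D L q.1 q.2 G)} :=
        ⟨fun G => hx G.2.2.1⟩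
      rw [Nat.card_of_isEmpty]; simp
  -- case S
  have hS : ∀ i ∈ Finset.range (L0 + 1),
      Nat.card {G : SimpleGraph V // T G ∧ PS D L z1 i G} * K ≤ N := by
    intro i hi
    rw [Finset.mem_range] at hi
    exact count_main U z1 hz1 (2 * r) hUc hU2 i L h (PS D L z1 i) T
      (hyp_S U D hUD z1 hz1 i L) hT K (hKi i (by omega))
  -- case C
  have hC : Nat.card {G : SimpleGraph V // T G ∧ PC D L0 z1 G} * K ≤ N := by
    refine count_main U x1 hx1 (2 * r) hUc hU2 0 L0 h (PC D L0 z1) T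
      (hyp_C U D hUD z1 x1 hne hxz L0) (fun G hG => typ_mono hL (hT G hG)) K ?_
    simpa using hK1
  have hall : ∀ G, T G ∧ SameUpTo m G (sd G D) →
      ((∃ x0 ∈ (univ : Finset V), T G ∧ (x0 ∈ U ∧ PA D L x0 G)) ∨
      (∃ q ∈ (univ : Finset V) ×ˢ Finset.range r, T G ∧ (q.1 ∈ U ∧ PB D L q.1 q.2 G))) ∨
      ((∃ i ∈ Finset.range (L0 + 1), T G ∧ PS D L z1 i G) ∨ (T G ∧ PC D L0 z1 G)) := by
    rintro G ⟨hTG, hG⟩
    rcases cases_of_same D r hr.le L0 L L m le_rfl (by omega) hm z1 G hG with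
      ⟨x0, hx0, hp⟩ | ⟨x0, i, hi, hy, hp⟩ | ⟨i, hi, hp⟩ | hp
    · left; left
      refine ⟨x0, Finset.mem_univ _, hTG, ?_, hp⟩
      by_contra hcon
      exact hx0 (dg_out hUD G hcon)
    · left; right
      exact ⟨(x0, i), Finset.mem_product.2 ⟨Finset.mem_univ _, Finset.mem_range.2 hi⟩, hTG,
        mem_supp.2 hy, hp⟩
    · right; left
      exact ⟨i, Finset.mem_range.2 (by omega), hTG, hp⟩
    · right; right
      exact ⟨hTG, hp⟩
  have k1 := card_mono _ _ hall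
  have k2 := card_or_le (Ω := SimpleGraph V)
    (fun G => (∃ x0 ∈ (univ : Finset V), T G ∧ (x0 ∈ U ∧ PA D L x0 G)) ∨
      (∃ q ∈ (univ : Finset V) ×ˢ Finset.range r, T G ∧ (q.1 ∈ U ∧ PB D L q.1 q.2 G)))
    (fun G => (∃ i ∈ Finset.range (L0 + 1), T G ∧ PS D L z1 i G) ∨ (T G ∧ PC D L0 z1 G))
  have k3 := card_or_le (Ω := SimpleGraph V)
    (fun G => ∃ x0 ∈ (univ : Finset V), T G ∧ (x0 ∈ U ∧ PA D L x0 G))
    (fun G => ∃ q ∈ (univ : Finset V) ×ˢ Finset.range r, T G ∧ (q.1 ∈ U ∧ PB D L q.1 q.2 G))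
  have k4 := card_or_le (Ω := SimpleGraph V)
    (fun G => ∃ i ∈ Finset.range (L0 + 1), T G ∧ PS D L z1 i G)
    (fun G => T G ∧ PC D L0 z1 G)
  have l1 := card_ex_le (Ω := SimpleGraph V) univ
    (fun (x0 : V) G => T G ∧ (x0 ∈ U ∧ PA D L x0 G)) N K hA
  have l2 := card_ex_le (Ω := SimpleGraph V) ((univ : Finset V) ×ˢ Finset.range r)
    (fun (q : V × ℕ) G => T G ∧ (q.1 ∈ U ∧ PB D L q.1 q.2 G)) N K hB
  have l3 := card_ex_le (Ω := SimpleGraph V) (Finset.range (L0 + 1))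
    (fun (i : ℕ) G => T G ∧ PS D L z1 i G) N K hS
  rw [Finset.card_univ] at l1
  rw [Finset.card_product, Finset.card_univ, Finset.card_range] at l2
  rw [Finset.card_range] at l3
  have htot := (k1.trans k2).trans (Nat.add_le_add k3 k4)
  calc Nat.card {G : SimpleGraph V // T G ∧ SameUpTo m G (sd G D)} * K ≤ _ * K :=
        Nat.mul_le_mul_right _ htot
    _ ≤ (n * N + n * r * N) + ((L0 + 1) * N + N) := by
        rw [add_mul, add_mul, add_mul]
        exact Nat.add_le_add (Nat.add_le_add l1 l2) (Nat.add_le_add l3 hC)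
    _ = (n + n * r + (L0 + 1) + 1) * N := by ring

end Pool.Agent.Lib_helper37.GC
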