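import Pool.Agent.Lib_helper37.GC.Tog

/-!
# The main counting theorem
-/

set_option autoImplicit false

open Finset

namespace Pool.Agent.Lib_helper37.GC

variable {V : Type} [Fintype V]

/-- Every large set of vertices contains `L + 1` large classes of vertices with nearly equal degrees. -/
def Typ (u L h : ℕ) (G : SimpleGraph V) : Prop :=
  ∀ W : Finset V, Fintype.card V ≤ W.card * 2 ^ u →
    ∀ f : V → ℤ, (∀ w, f w = dg G w ∨ f w = dg G w + 1) →
      ∃ t : Fin (L + 1) → ℤ, Function.Injective t ∧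
        ∀ c, 2 * h ≤ Nat.card {w : V // w ∈ W ∧ f w = t c}

theorem dg_nonneg (G : SimpleGraph V) (x : V) : 0 ≤ dg G x := by
  refine Finset.sum_nonneg fun y _ => ?_
  by_cases h : G.Adj x y
  · rw [ind_pos h]; norm_num
  · rw [ind_neg h]

theorem dg_lt (G : SimpleGraph V) (x : V) : dg G x + 1 ≤ Fintype.card V := by
  classical
  rw [dg, ← Finset.add_sum_erase univ _ (Finset.mem_univ x), ind_neg G.irrefl, zero_add]
  have h1 : ∑ y ∈ univ.erase x, ind (G.Adj x y) ≤ ∑ _y ∈ univ.erase x, (1 : ℤ) := by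
    refine Finset.sum_le_sum fun y _ => ?_
    by_cases h : G.Adj x y
    · rw [ind_pos h]
    · rw [ind_neg h]; norm_num
  rw [Finset.sum_const, nsmul_eq_mul, mul_one, Finset.card_erase_of_mem (Finset.mem_univ x),
    Finset.card_univ] at h1
  have h2 : 0 < Fintype.card V := Fintype.card_pos_iff.2 ⟨x⟩
  have h3 : ((Fintype.card V - 1 : ℕ) : ℤ) = Fintype.card V - 1 := by
    rw [Nat.cast_sub (by omega)]; norm_num
  rw [h3] at h1
  linarith

/-- The bound for fixed surroundings. -/
theorem fix_bound (U W : Finset V) (x0 : V) (hx0U : x0 ∈ U) (hWU : ∀ w ∈ W, w ∉ U) (u i0 L h : ℕ)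
    (P T : SimpleGraph V → Prop) (hyp : Hyp U x0 i0 L P)
    (hT : ∀ G, T G → Typ u L h G) (hW : Fintype.card V ≤ W.card * 2 ^ u)
    (G : SimpleGraph V) (hcon : ∀ x ∈ U, x ≠ x0 → ∃ c : ℤ, ∀ w ∈ W, ind (G.Adj x w) = c)
    (K : ℕ) (hK : ((Fintype.card V + 1) ^ ((i0 + 1) * (i0 + 1)) * K) ^ 2 ≤ (2 * h + 1) ^ (L + 1)) :
    Nat.card {S : Finset V // S ⊆ W ∧ (T (tog G x0 W S) ∧ P (tog G x0 W S))} * K ≤
      2 ^ W.card := by
  classical
  set n := Fintype.card V with hn
  have hx0 : x0 ∉ W := fun h => hWU x0 h hx0U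
  set SS : Finset (Finset V) := univ.filter fun S => S ⊆ W ∧ (T (tog G x0 W S) ∧ P (tog G x0 W S))
    with hSS
  have hc : Nat.card {S : Finset V // S ⊆ W ∧ (T (tog G x0 W S) ∧ P (tog G x0 W S))} = SS.card := by
    rw [Nat.card_eq_fintype_card, Fintype.card_subtype]
  rw [hc]
  have hmem : ∀ S ∈ SS, S ⊆ W ∧ T (tog G x0 W S) ∧ P (tog G x0 W S) := fun S hS =>
    (Finset.mem_filter.1 hS).2
  rcases SS.eq_empty_or_nonempty with hE | ⟨S1, hS1⟩
  · rw [hE]; simp
  set e : V → ℤ := fun w => dg (tog G x0 W ∅) w with he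
  -- the classes
  set f : V → ℤ := fun w => if w ∈ W then e w + 1 else dg (tog G x0 W S1) w with hf
  have hf1 : ∀ w, f w = dg (tog G x0 W S1) w ∨ f w = dg (tog G x0 W S1) w + 1 := by
    intro w
    by_cases hw : w ∈ W
    · have hne : w ≠ x0 := fun h => hx0 (h ▸ hw)
      have h1 := dg_tog (G := G) hx0 (hmem S1 hS1).1 w
      rw [ind_neg hne, zero_mul, add_zero] at h1
      by_cases hw1 : w ∈ S1
      · left
        rw [ind_pos hw1] at h1
        simp only [hf, hw, if_true]
        rw [h1]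
      · right
        rw [ind_neg hw1, add_zero] at h1
        simp only [hf, hw, if_true]
        rw [h1]
    · left
      simp only [hf, hw, if_false]
  obtain ⟨t, ht, htc⟩ := hT _ (hmem S1 hS1).2.1 W hW f hf1
  have hKc : ∀ c, 2 * h ≤ (W.filter fun w => f w = t c).card := by
    intro c
    refine (htc c).trans (le_of_eq ?_)
    rw [Nat.card_eq_fintype_card, Fintype.card_subtype]
    congr 1
    ext w
    simp
  set X : ℕ → Finset V → ℤ := fun j S => ∑ w ∈ S, f w ^ j with hX
  have hXe : ∀ j, ∀ S ⊆ W, X j S = ∑ w ∈ S, (e w + 1) ^ j := by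
    intro j S hS
    refine Finset.sum_congr rfl fun w hw => ?_
    simp only [hf, hS hw, if_true]
  have hX0 : ∀ S ⊆ W, X 0 S = S.card := by
    intro S _
    simp [hX]
  -- the main step
  have hstep : ∀ S ∈ SS, ∀ S' ∈ SS, (∀ j ≤ i0, X j S = X j S') → ∀ j ≤ L, X j S = X j S' := by
    intro S hS S' hS' hlow j
    obtain ⟨hSW, hTS, hPS⟩ := hmem S hS
    obtain ⟨hSW', hTS', hPS'⟩ := hmem S' hS'
    have hcard : (S.card : ℤ) = S'.card := by
      rw [← hX0 S hSW, ← hX0 S' hSW']
      exact hlow 0 (Nat.zero_le _)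
    induction j using Nat.strong_induction_on with
    | _ J ih =>
      intro hJL
      rcases Nat.lt_or_ge i0 J with hJ | hJ
      swap
      · exact hlow J hJ
      have hlo : ∀ k < J, X k S = X k S' := fun k hk => ih k hk (by omega)
      have hZ : ∀ j ≤ J, ∑ w ∈ S, ((e w + 1) ^ j - e w ^ j) = ∑ w ∈ S', ((e w + 1) ^ j - e w ^ j) := by
        intro j hj
        refine Z_det e S S' j fun k hk => ?_
        rw [← hXe k S hSW, ← hXe k S' hSW']
        exact hlo k (by omega)
      have hother : ∀ j ≤ J, ∀ x ∈ U, x ≠ x0 →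
          pw (tog G x0 W S) j x = pw (tog G x0 W S') j x := by
        intro j hj x hx hxx
        obtain ⟨c, hc⟩ := hcon x hx hxx
        have hxW : x ∉ W := fun h => hWU x h hx
        rw [pw_tog_other hx0 hSW hxx hxW c hc j, pw_tog_other hx0 hSW' hxx hxW c hc j, hcard]
        have := hZ j hj
        simp only [he] at this
        rw [this]
      have hx0low : ∀ j < J, pw (tog G x0 W S) j x0 = pw (tog G x0 W S') j x0 := by
        intro j hj
        rw [pw_tog_x0 hx0 hSW, pw_tog_x0 hx0 hSW']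
        have := hlo j hj
        rw [hXe j S hSW, hXe j S' hSW'] at this
        simp only [he] at this
        rw [this]
      have hfin := hyp (tog G x0 W S) (tog G x0 W S') hPS hPS' ?_ ?_ J hJ hJL ?_
        (fun x hx hxx => hother J le_rfl x hx hxx)
      · rw [pw_tog_x0 hx0 hSW, pw_tog_x0 hx0 hSW'] at hfin
        rw [hXe J S hSW, hXe J S' hSW']
        exact add_left_cancel hfin
      · intro x hx y hy
        have h1 : ¬ (x = x0 ∧ y ∈ W) := fun h => hWU y h.2 hy
        have h2 : ¬ (y = x0 ∧ x ∈ W) := fun h => hWU x h.2 hx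
        rw [tog_of_not h1 h2, tog_of_not h1 h2]
      · intro x hx
        have hxW : x ∉ W := fun h => hWU x h hx
        rw [dg_tog hx0 hSW, dg_tog hx0 hSW', hcard, ind_neg (fun h : x ∈ S => hxW (hSW h)),
          ind_neg (fun h : x ∈ S' => hxW (hSW' h))]
      · intro j hj x hx
        by_cases hxx : x = x0
        · rw [hxx]; exact hx0low j hj
        · exact hother j hj.le x hx hxx
  -- the number of values
  set φ : Finset V → (Fin (i0 + 1) → ℤ) := fun S j => X j S with hφ
  set M := (n + 1) ^ ((i0 + 1) * (i0 + 1)) with hM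
  have himg : (SS.image φ).card ≤ M := by
    have h1 : SS.image φ ⊆ Fintype.piFinset fun j : Fin (i0 + 1) =>
        Finset.Icc (0 : ℤ) ((n : ℤ) ^ ((j : ℕ) + 1)) := by
      intro v hv
      rw [Finset.mem_image] at hv
      obtain ⟨S, hS, rfl⟩ := hv
      obtain ⟨hSW, _, _⟩ := hmem S hS
      rw [Fintype.mem_piFinset]
      intro j
      rw [Finset.mem_Icc]
      simp only [hφ]
      rw [hXe j S hSW]
      have h2 : ∀ w, 0 ≤ e w := fun w => dg_nonneg _ w
      have h3 : ∀ w, e w + 1 ≤ n := fun w => dg_lt _ w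
      constructor
      · refine Finset.sum_nonneg fun w _ => ?_
        have := h2 w
        positivity
      · calc ∑ w ∈ S, (e w + 1) ^ (j : ℕ) ≤ ∑ _w ∈ S, (n : ℤ) ^ (j : ℕ) := by
              refine Finset.sum_le_sum fun w _ => ?_
              exact pow_le_pow_left₀ (by have := h2 w; omega) (h3 w) _
          _ = S.card * (n : ℤ) ^ (j : ℕ) := by rw [Finset.sum_const, nsmul_eq_mul]
          _ ≤ n * (n : ℤ) ^ (j : ℕ) := by
              have : (S.card : ℤ) ≤ n := by exact_mod_cast Finset.card_le_univ S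
              gcongr
          _ = (n : ℤ) ^ ((j : ℕ) + 1) := by ring
    refine (Finset.card_le_card h1).trans ?_
    rw [Fintype.card_piFinset]
    calc ∏ j : Fin (i0 + 1), (Finset.Icc (0 : ℤ) ((n : ℤ) ^ ((j : ℕ) + 1))).card ≤
        ∏ _j : Fin (i0 + 1), (n + 1) ^ (i0 + 1) := by
          refine Finset.prod_le_prod (fun _ _ => Nat.zero_le _) fun j _ => ?_
          have h2 : (Finset.Icc (0 : ℤ) ((n : ℤ) ^ ((j : ℕ) + 1))).card = n ^ ((j : ℕ) + 1) + 1 := by
            rw [Int.card_Icc]
            have : ((n : ℤ) ^ ((j : ℕ) + 1) + 1 - 0) = ((n ^ ((j : ℕ) + 1) + 1 : ℕ) : ℤ) := by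
              push_cast; ring
            rw [this, Int.toNat_natCast]
          rw [h2]
          have h3 : n ^ ((j : ℕ) + 1) + 1 ≤ (n + 1) ^ ((j : ℕ) + 1) := by
            have : n ^ ((j : ℕ) + 1) < (n + 1) ^ ((j : ℕ) + 1) :=
              Nat.pow_lt_pow_left (Nat.lt_succ_self n) (by omega)
            omega
          exact h3.trans (Nat.pow_le_pow_right (by omega) (by omega))
      _ = M := by
          rw [Finset.prod_const, Finset.card_univ, Fintype.card_fin, ← pow_mul]
  -- the fibres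
  have hfibre : ∀ v ∈ SS.image φ, (SS.filter fun S => φ S = v).card * (M * K) ≤ 2 ^ W.card := by
    intro v _
    have h1 := small_ball W f L h t ht hKc (SS.filter fun S => φ S = v)
      (fun S hS => (hmem S (Finset.mem_filter.1 hS).1).1) ?_
    · have h2 : ((SS.filter fun S => φ S = v).card * (M * K)) ^ 2 ≤ (2 ^ W.card) ^ 2 := by
        calc ((SS.filter fun S => φ S = v).card * (M * K)) ^ 2 =
            (SS.filter fun S => φ S = v).card ^ 2 * (M * K) ^ 2 := by ring
          _ ≤ (SS.filter fun S => φ S = v).card ^ 2 * (2 * h + 1) ^ (L + 1) := by gcongr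
          _ ≤ 4 ^ W.card := h1
          _ = (2 ^ W.card) ^ 2 := by rw [← pow_mul, mul_comm, pow_mul]; norm_num
      exact (Nat.pow_le_pow_iff_left (by norm_num)).1 h2
    · intro S hS S' hS' j hj
      rw [Finset.mem_filter] at hS hS'
      refine hstep S hS.1 S' hS'.1 ?_ j hj
      intro k hk
      have := congrFun (hS.2.trans hS'.2.symm) ⟨k, by omega⟩
      exact this
  have htot : SS.card * (M * K) ≤ M * 2 ^ W.card := by
    rw [Finset.card_eq_sum_card_image φ SS, Finset.sum_mul]
    calc ∑ v ∈ SS.image φ, (SS.filter fun S => φ S = v).card * (M * K) ≤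
        ∑ _v ∈ SS.image φ, 2 ^ W.card := Finset.sum_le_sum hfibre
      _ = (SS.image φ).card * 2 ^ W.card := by rw [Finset.sum_const, smul_eq_mul]
      _ ≤ M * 2 ^ W.card := Nat.mul_le_mul_right _ himg
  have hM0 : 0 < M := by positivity
  have : M * (SS.card * K) ≤ M * 2 ^ W.card := by
    calc M * (SS.card * K) = SS.card * (M * K) := by ring
      _ ≤ _ := htot
  exact Nat.le_of_mul_le_mul_left this hM0

end Pool.Agent.Lib_helper37.GC
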