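import Pool.Agent.Lib_helper37.GC.CountMain

/-!
# The main counting theorem, second part
-/

set_option autoImplicit false

open Finset

namespace Pool.Agent.Lib_helper37.GC

variable {V : Type} [Fintype V]

open Classical in
/-- The vertices outside `U` whose neighbours in `U ∖ {x₀}` are those in `α`. -/
noncomputable def WA (U : Finset V) (x0 : V) (α : Finset V) (G : SimpleGraph V) : Finset V :=
  univ.filter fun w => w ∉ U ∧ ∀ v ∈ U, v ≠ x0 → (G.Adj v w ↔ v ∈ α)

theorem mem_WA {U : Finset V} {x0 : V} {α : Finset V} {G : SimpleGraph V} {w : V} :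
    w ∈ WA U x0 α G ↔ w ∉ U ∧ ∀ v ∈ U, v ≠ x0 → (G.Adj v w ↔ v ∈ α) := by
  classical
  rw [WA, Finset.mem_filter]
  simp

theorem WA_tog (U : Finset V) (x0 : V) (hx0 : x0 ∈ U) (α : Finset V) (G : SimpleGraph V)
    (S : Finset V) : WA U x0 α (tog G x0 (WA U x0 α G) S) = WA U x0 α G := by
  ext w
  rw [mem_WA, mem_WA]
  refine and_congr_right fun hw => ?_
  refine forall₃_congr fun v hv hvx => ?_
  have h1 : ¬ (v = x0 ∧ w ∈ WA U x0 α G) := fun h => hvx h.1
  have h2 : ¬ (w = x0 ∧ v ∈ WA U x0 α G) := fun h => hw (h.1 ▸ hx0)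
  rw [tog_of_not h1 h2]

theorem count_alpha (U : Finset V) (x0 : V) (hx0 : x0 ∈ U) (α : Finset V) (u i0 L h : ℕ)
    (P T : SimpleGraph V → Prop) (hyp : Hyp U x0 i0 L P) (hT : ∀ G, T G → Typ u L h G) (K : ℕ)
    (hK : ((Fintype.card V + 1) ^ ((i0 + 1) * (i0 + 1)) * K) ^ 2 ≤ (2 * h + 1) ^ (L + 1)) :
    Nat.card {G : SimpleGraph V // (T G ∧ P G) ∧ Fintype.card V ≤ (WA U x0 α G).card * 2 ^ u} * K ≤
      Nat.card (SimpleGraph V) := by
  classical
  refine cond_count x0 (WA U x0 α) (fun G h => (mem_WA.1 h).1 hx0) (WA_tog U x0 hx0 α) _ K ?_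
  intro G
  by_cases hW : Fintype.card V ≤ (WA U x0 α G).card * 2 ^ u
  · refine le_trans (Nat.mul_le_mul_right _ ?_) (fix_bound U (WA U x0 α G) x0 hx0
      (fun w hw => (mem_WA.1 hw).1) u i0 L h P T hyp hT hW G ?_ K hK)
    · refine Nat.card_le_card_of_injective (fun S => ⟨S.1, S.2.1, S.2.2.1⟩) ?_
      intro S S' hS
      apply Subtype.ext
      exact congrArg (fun q => q.1) hS
    · intro x hx hxx
      refine ⟨ind (x ∈ α), fun w hw => ?_⟩
      exact ind_congr ((mem_WA.1 hw).2 x hx hxx)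
  · have : IsEmpty {S : Finset V // S ⊆ WA U x0 α G ∧ (T (tog G x0 (WA U x0 α G) S) ∧
        P (tog G x0 (WA U x0 α G) S)) ∧
        Fintype.card V ≤ (WA U x0 α (tog G x0 (WA U x0 α G) S)).card * 2 ^ u} := by
      refine ⟨fun S => hW ?_⟩
      have := S.2.2.2
      rwa [WA_tog U x0 hx0] at this
    rw [Nat.card_of_isEmpty, zero_mul]
    exact Nat.zero_le _

theorem exists_alpha (U : Finset V) (x0 : V) (hx0 : x0 ∈ U) (u : ℕ) (hu : U.card ≤ u)
    (hn : 2 * U.card ≤ Fintype.card V) (G : SimpleGraph V) :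
    ∃ α ∈ U.powerset, (∀ v ∈ α, v ≠ x0) ∧ Fintype.card V ≤ (WA U x0 α G).card * 2 ^ u := by
  classical
  by_contra hcon
  push Not at hcon
  set n := Fintype.card V with hn'
  set E := (U.erase x0).powerset with hE
  have hEc : E.card = 2 ^ (U.card - 1) := by
    rw [hE, Finset.card_powerset, Finset.card_erase_of_mem hx0]
  have hU1 : 1 ≤ U.card := Finset.card_pos.2 ⟨x0, hx0⟩
  have hE2 : 2 * E.card ≤ 2 ^ u := by
    rw [hEc, ← pow_succ']
    exact Nat.pow_le_pow_right (by norm_num) (by omega)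
  have h1 : n - U.card ≤ ∑ α ∈ E, (WA U x0 α G).card := by
    have h2 : (univ \ U) ⊆ E.biUnion fun α => WA U x0 α G := by
      intro w hw
      rw [Finset.mem_sdiff] at hw
      rw [Finset.mem_biUnion]
      refine ⟨(U.erase x0).filter fun v => G.Adj v w, ?_, ?_⟩
      · rw [hE, Finset.mem_powerset]
        exact Finset.filter_subset _ _
      · rw [mem_WA]
        refine ⟨hw.2, fun v hv hvx => ?_⟩
        rw [Finset.mem_filter, Finset.mem_erase]
        exact ⟨fun h => ⟨⟨hvx, hv⟩, h⟩, fun h => h.2⟩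
    have h3 := (Finset.card_le_card h2).trans Finset.card_biUnion_le
    rwa [Finset.card_sdiff_of_subset (Finset.subset_univ _), Finset.card_univ] at h3
  have h2 : ∀ α ∈ E, (WA U x0 α G).card * 2 ^ u ≤ n - 1 := by
    intro α hα
    rw [hE, Finset.mem_powerset] at hα
    have := hcon α (Finset.mem_powerset.2 (hα.trans (Finset.erase_subset _ _)))
      (fun v hv => (Finset.mem_erase.1 (hα hv)).1)
    omega
  have h3 : (n - U.card) * 2 ^ u ≤ E.card * (n - 1) := by
    calc (n - U.card) * 2 ^ u ≤ (∑ α ∈ E, (WA U x0 α G).card) * 2 ^ u :=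
          Nat.mul_le_mul_right _ h1
      _ = ∑ α ∈ E, (WA U x0 α G).card * 2 ^ u := Finset.sum_mul _ _ _
      _ ≤ ∑ _α ∈ E, (n - 1) := Finset.sum_le_sum h2
      _ = E.card * (n - 1) := by rw [Finset.sum_const, smul_eq_mul]
  have h4 : (n - U.card) * (2 * E.card) ≤ E.card * (n - 1) :=
    (Nat.mul_le_mul_left _ hE2).trans h3
  have hE0 : 0 < E.card := by rw [hEc]; positivity
  have h5 : E.card * (2 * (n - U.card)) ≤ E.card * (n - 1) := by
    calc E.card * (2 * (n - U.card)) = (n - U.card) * (2 * E.card) := by ring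
      _ ≤ _ := h4
  have h6 := Nat.le_of_mul_le_mul_left h5 hE0
  omega

theorem count_main (U : Finset V) (x0 : V) (hx0 : x0 ∈ U) (u : ℕ) (hu : U.card ≤ u)
    (hn : 2 * U.card ≤ Fintype.card V) (i0 L h : ℕ)
    (P T : SimpleGraph V → Prop) (hyp : Hyp U x0 i0 L P) (hT : ∀ G, T G → Typ u L h G) (K : ℕ)
    (hK : ((Fintype.card V + 1) ^ ((i0 + 1) * (i0 + 1)) * (2 ^ u * K)) ^ 2 ≤
      (2 * h + 1) ^ (L + 1)) :
    Nat.card {G : SimpleGraph V // T G ∧ P G} * K ≤ Nat.card (SimpleGraph V) := by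
  classical
  set N := Nat.card (SimpleGraph V) with hN
  set E := U.powerset.filter fun α => ∀ v ∈ α, v ≠ x0 with hE
  have hEc : E.card ≤ 2 ^ u := by
    calc E.card ≤ U.powerset.card := Finset.card_filter_le _ _
      _ = 2 ^ U.card := Finset.card_powerset U
      _ ≤ 2 ^ u := Nat.pow_le_pow_right (by norm_num) hu
  have h1 : Nat.card {G : SimpleGraph V // T G ∧ P G} ≤ ∑ α ∈ E, Nat.card {G : SimpleGraph V //
      (T G ∧ P G) ∧ Fintype.card V ≤ (WA U x0 α G).card * 2 ^ u} := by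
    simp only [Nat.card_eq_fintype_card, Fintype.card_subtype]
    refine le_trans (Finset.card_le_card ?_) Finset.card_biUnion_le
    intro G hG
    rw [Finset.mem_filter] at hG
    obtain ⟨α, hα, hα1, hα2⟩ := exists_alpha U x0 hx0 u hu hn G
    rw [Finset.mem_biUnion]
    exact ⟨α, Finset.mem_filter.2 ⟨hα, hα1⟩,
      Finset.mem_filter.2 ⟨Finset.mem_univ _, hG.2, hα2⟩⟩
  have h2 : Nat.card {G : SimpleGraph V // T G ∧ P G} * (2 ^ u * K) ≤ 2 ^ u * N := by
    calc Nat.card {G : SimpleGraph V // T G ∧ P G} * (2 ^ u * K) ≤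
        (∑ α ∈ E, Nat.card {G : SimpleGraph V //
          (T G ∧ P G) ∧ Fintype.card V ≤ (WA U x0 α G).card * 2 ^ u}) * (2 ^ u * K) :=
          Nat.mul_le_mul_right _ h1
      _ = ∑ α ∈ E, Nat.card {G : SimpleGraph V //
          (T G ∧ P G) ∧ Fintype.card V ≤ (WA U x0 α G).card * 2 ^ u} * (2 ^ u * K) :=
          Finset.sum_mul _ _ _
      _ ≤ ∑ _α ∈ E, N := Finset.sum_le_sum fun α _ =>
          count_alpha U x0 hx0 α u i0 L h P T hyp hT (2 ^ u * K) hK
      _ = E.card * N := by rw [Finset.sum_const, smul_eq_mul]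
      _ ≤ 2 ^ u * N := Nat.mul_le_mul_right _ hEc
  have h3 : 2 ^ u * (Nat.card {G : SimpleGraph V // T G ∧ P G} * K) ≤ 2 ^ u * N := by
    calc 2 ^ u * (Nat.card {G : SimpleGraph V // T G ∧ P G} * K) =
        Nat.card {G : SimpleGraph V // T G ∧ P G} * (2 ^ u * K) := by ring
      _ ≤ _ := h2
  exact Nat.le_of_mul_le_mul_left h3 (by positivity)

end Pool.Agent.Lib_helper37.GC
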