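import Pool.Agent.Lib_helper37.GC.Asym

/-!
# The generalised chromatic polynomials determine the small pattern counts
-/

set_option autoImplicit false

open Finset Filter Topology

namespace Pool.Agent.Lib_helper37.GC

variable {V V' A : Type}

theorem lim_absurd (a : ℕ → ℝ) (n n' : ℕ) (hn : n < n')
    (h1 : Tendsto (fun k : ℕ => a k / (k : ℝ) ^ n) atTop (𝓝 1))
    (h2 : Tendsto (fun k : ℕ => a k / (k : ℝ) ^ n') atTop (𝓝 1)) : False := by
  have h3 : Tendsto (fun k : ℕ => (a k / (k : ℝ) ^ n) * ((k : ℝ)⁻¹) ^ (n' - n)) atTop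
      (𝓝 (1 * 0 ^ (n' - n))) :=
    h1.mul ((tendsto_inv_atTop_nhds_zero_nat).pow _)
  rw [zero_pow (by omega), mul_zero] at h3
  have h4 : (fun k : ℕ => a k / (k : ℝ) ^ n') =
      fun k : ℕ => (a k / (k : ℝ) ^ n) * ((k : ℝ)⁻¹) ^ (n' - n) := by
    funext k
    have : (k : ℝ) ^ n' = (k : ℝ) ^ n * (k : ℝ) ^ (n' - n) := by
      rw [← pow_add]; congr 1; omega
    rw [this, div_mul_eq_div_div, inv_pow, div_eq_mul_inv (_ / _)]
  rw [h4] at h2
  exact one_ne_zero (tendsto_nhds_unique h2 h3)

section

variable [Fintype V] [Fintype V']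

theorem col_lim (G : SimpleGraph V) :
    Tendsto (fun k : ℕ => (MI (A := Fin 0) G k (fun _ => True) ∅ : ℝ) / (k : ℝ) ^ Fintype.card V)
      atTop (𝓝 1) := by
  classical
  have h1 := MI_lim (A := Fin 0) G (fun _ => True) ∅
  have h2 : HR (A := Fin 0) G (fun _ => True) ∅ = 1 := by
    rw [HR, Nat.card_eq_one_iff_unique]
    refine ⟨⟨fun a b => Subtype.ext (funext fun i => i.elim0)⟩, ⟨⟨fun i => i.elim0, trivial, ?_⟩⟩⟩
    simp
  have h3 : ∀ (k : ℕ) (inst : Fintype (XI (Fin 0) ∅ k)), @Fintype.card (XI (Fin 0) ∅ k) inst = 1 := by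
    intro k inst
    rw [Fintype.card_eq_one_iff]
    exact ⟨⟨fun i => i.elim0, by simp⟩, fun y => Subtype.ext (funext fun i => i.elim0)⟩
  rw [h2] at h1
  simpa [h3] using h1

theorem card_same (G : SimpleGraph V) (G' : SimpleGraph V') (m : ℕ) (hm : 1 ≤ m)
    (h : SameUpTo m G G') : Fintype.card V = Fintype.card V' := by
  have h0 : ∀ k, MI (A := Fin 0) G k (fun _ => True) ∅ =
      MI (A := Fin 0) G' k (fun _ => True) ∅ := fun k =>
    MI_same G G' m h k _ _ (by simpa using hm) (by simp)
  have h1 := col_lim G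
  have h2 := col_lim G'
  simp only [← h0] at h2
  by_contra hne
  rcases Nat.lt_or_gt_of_ne hne with hlt | hlt
  · exact lim_absurd _ _ _ hlt h1 h2
  · exact lim_absurd _ _ _ hlt h2 h1

theorem HR_same [Fintype A] (G : SimpleGraph V) (G' : SimpleGraph V') (m : ℕ)
    (h : SameUpTo m G G') (R : (A → A → Prop) → Prop) (I : Finset (A × A))
    (hm : Fintype.card A + I.card + 1 ≤ m) (hR : ∀ r, R r → ∀ e ∈ I, ¬ r e.1 e.2) :
    HR G R I = HR G' R I := by
  classical
  have h1 := MI_lim G R I
  have h2 := MI_lim G' R I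
  rw [← card_same G G' m (by omega) h] at h2
  have h3 : ∀ k, MI G k R I = MI G' k R I := fun k =>
    MI_same G G' m h k R I (by rw [Nat.card_eq_fintype_card]; exact hm) hR
  simp only [← h3] at h2
  exact_mod_cast tendsto_nhds_unique h1 h2

end

/-- The number of maps with edges `I` and non-edges `B`. -/
noncomputable def HB (G : SimpleGraph V) (R : (A → A → Prop) → Prop) (I B : Finset (A × A)) : ℕ :=
  Nat.card {v : A → V // R (fun i j => v i = v j) ∧ (∀ e ∈ I, G.Adj (v e.1) (v e.2)) ∧
    ∀ e ∈ B, ¬ G.Adj (v e.1) (v e.2)}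

theorem HB_insert [DecidableEq A] [Finite V] [Finite A] (G : SimpleGraph V)
    (R : (A → A → Prop) → Prop) (I B : Finset (A × A)) (e : A × A) :
    HB G R I B = HB G R I (insert e B) + HB G R (insert e I) B := by
  classical
  have : Fintype (A → V) := Fintype.ofFinite _
  have h1 : (HB G R I B : ℤ) = HB G R I (insert e B) + HB G R (insert e I) B := by
    simp only [HB, card_ind]
    rw [← Finset.sum_add_distrib]
    refine Finset.sum_congr rfl fun v _ => ?_
    by_cases hv : G.Adj (v e.1) (v e.2)
    · simp only [Finset.forall_mem_insert, hv, not_true_eq_false, false_and, and_false, true_and]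
      rw [ind_neg (p := False) (fun h => h), zero_add]
    · simp only [Finset.forall_mem_insert, hv, not_false_eq_true, false_and, and_false, true_and]
      rw [ind_neg (p := False) (fun h => h), add_zero]
  exact_mod_cast h1

theorem HB_same [Fintype V] [Fintype V'] [DecidableEq A] [Fintype A] (G : SimpleGraph V)
    (G' : SimpleGraph V') (m : ℕ) (h : SameUpTo m G G') (R : (A → A → Prop) → Prop)
    (B : Finset (A × A)) : ∀ I : Finset (A × A), Fintype.card A + I.card + B.card + 1 ≤ m →
      (∀ r, R r → ∀ e ∈ I, ¬ r e.1 e.2) → (∀ r, R r → ∀ e ∈ B, ¬ r e.1 e.2) →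
      HB G R I B = HB G' R I B := by
  induction B using Finset.induction_on with
  | empty =>
    intro I hm hR _
    have h1 : ∀ {W : Type} (D : SimpleGraph W), HB D R I ∅ = HR D R I := by
      intro W D
      rw [HB, HR]
      simp
    rw [h1, h1]
    exact HR_same G G' m h R I (by simpa using hm) hR
  | insert e B he ih =>
    intro I hm hR hB
    rw [Finset.card_insert_of_notMem he] at hm
    have h1 := ih I (by omega) hR fun r hr f hf => hB r hr f (Finset.mem_insert_of_mem hf)
    have h2 := ih (insert e I) (by have := Finset.card_insert_le e I; omega)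
      (fun r hr f hf => by
        rcases Finset.mem_insert.1 hf with rfl | hf
        · exact hB r hr _ (Finset.mem_insert_self _ _)
        · exact hR r hr f hf)
      fun r hr f hf => hB r hr f (Finset.mem_insert_of_mem hf)
    have h3 := HB_insert G R I B e
    have h4 := HB_insert G' R I B e
    omega

/-- The pairs `i < j`. -/
def prs (d : ℕ) : Finset (Fin d × Fin d) := univ.filter fun e => e.1 < e.2

theorem card_prs (d : ℕ) : (prs d).card = d.choose 2 := by
  have h1 : prs d = (univ : Finset (Fin d)).biUnion fun j => (univ.filter fun i => i < j).map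
      ⟨fun i => (i, j), fun a b h => (Prod.mk.injEq _ _ _ _ ▸ h).1⟩ := by
    ext ⟨i, j⟩
    simp [prs]
  rw [h1, Finset.card_biUnion]
  · simp only [Finset.card_map]
    have h2 : ∀ j : Fin d, (univ.filter fun i : Fin d => i < j).card = (j : ℕ) := by
      intro j
      have : (univ.filter fun i : Fin d => i < j) = Finset.Iio j := by ext; simp
      rw [this, Fin.card_Iio]
    rw [Finset.sum_congr rfl fun j _ => h2 j, Fin.sum_univ_eq_sum_range (fun i => i) d,
      Finset.sum_range_id, Nat.choose_two_right]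
  · intro i _ j _ hij
    rw [Function.onFun, Finset.disjoint_left]
    rintro ⟨a, b⟩ h3 h4
    simp at h3 h4
    exact hij (h3.2.trans h4.2.symm)

theorem pat_HB {W : Type} (d : ℕ) (D : SimpleGraph W) (P : (Fin d → Fin d → Prop) × (Fin d → Fin d → Prop))
    (hP : (∀ i j, P.1 i j → ¬ P.2 i j) ∧ (∀ i, P.1 i i) ∧ (∀ i j, P.2 i j → P.2 j i))
    [DecidablePred fun e : Fin d × Fin d => P.2 e.1 e.2]
    [DecidablePred fun e : Fin d × Fin d => ¬ P.2 e.1 e.2 ∧ ¬ P.1 e.1 e.2] (v : Fin d → W) :
    pat D v = P ↔ ((fun i j => v i = v j) = P.1 ∧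
      (∀ e ∈ (prs d).filter fun e => P.2 e.1 e.2, D.Adj (v e.1) (v e.2)) ∧
      ∀ e ∈ (prs d).filter fun e => ¬ P.2 e.1 e.2 ∧ ¬ P.1 e.1 e.2, ¬ D.Adj (v e.1) (v e.2)) := by
  constructor
  · rintro rfl
    refine ⟨rfl, ?_, ?_⟩
    · intro e he
      exact (Finset.mem_filter.1 he).2
    · intro e he
      exact (Finset.mem_filter.1 he).2.1
  · rintro ⟨h1, h2, h3⟩
    refine Prod.ext h1 ?_
    have key : ∀ i j : Fin d, i < j → (D.Adj (v i) (v j) ↔ P.2 i j) := by
      intro i j hij
      constructor
      · intro h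
        by_contra h4
        have h5 : ¬ P.1 i j := by
          rw [← h1]
          exact h.ne
        exact h3 (i, j) (Finset.mem_filter.2 ⟨by simp [prs, hij], h4, h5⟩) h
      · intro h
        exact h2 (i, j) (Finset.mem_filter.2 ⟨by simp [prs, hij], h⟩)
    funext i j
    apply propext
    show D.Adj (v i) (v j) ↔ P.2 i j
    rcases lt_trichotomy i j with h | h | h
    · exact key i j h
    · subst h
      exact ⟨fun h => absurd rfl h.ne, fun h => absurd h (hP.1 i i (hP.2.1 i))⟩
    · constructor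
      · intro h4
        exact hP.2.2 _ _ ((key j i h).1 h4.symm)
      · intro h4
        exact ((key j i h).2 (hP.2.2 _ _ h4)).symm

/-- The same number of maps from at most `d` points with any property of the pattern. -/
def SameDeck {V V' : Type} (d : ℕ) (G : SimpleGraph V) (G' : SimpleGraph V') : Prop :=
  ∀ q ≤ d, ∀ Q : (Fin q → Fin q → Prop) × (Fin q → Fin q → Prop) → Prop,
    Nat.card {v : Fin q → V // Q (pat G v)} = Nat.card {v : Fin q → V' // Q (pat G' v)}

theorem pat_ok {W : Type} (d : ℕ) (D : SimpleGraph W) (v : Fin d → W) :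
    (∀ i j, (pat D v).1 i j → ¬ (pat D v).2 i j) ∧ (∀ i, (pat D v).1 i i) ∧
      (∀ i j, (pat D v).2 i j → (pat D v).2 j i) :=
  ⟨fun _ _ h h' => h'.ne h, fun _ => rfl, fun _ _ h => h.symm⟩

open Classical in
theorem pat_same [Fintype V] [Fintype V'] (G : SimpleGraph V) (G' : SimpleGraph V') (m d : ℕ)
    (hm : d + d.choose 2 + 1 ≤ m) (h : SameUpTo m G G')
    (P : (Fin d → Fin d → Prop) × (Fin d → Fin d → Prop)) :
    Nat.card {v : Fin d → V // pat G v = P} = Nat.card {v : Fin d → V' // pat G' v = P} := by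
  by_cases hP : (∀ i j, P.1 i j → ¬ P.2 i j) ∧ (∀ i, P.1 i i) ∧ (∀ i j, P.2 i j → P.2 j i)
  · have h1 : ∀ {W : Type} (D : SimpleGraph W), Nat.card {v : Fin d → W // pat D v = P} =
        HB D (fun r => r = P.1) ((prs d).filter fun e => P.2 e.1 e.2)
          ((prs d).filter fun e => ¬ P.2 e.1 e.2 ∧ ¬ P.1 e.1 e.2) := by
      intro W D
      rw [HB]
      exact Nat.card_congr (Equiv.subtypeEquivRight fun v => pat_HB d D P hP v)
    rw [h1, h1]
    refine HB_same G G' m h _ _ _ ?_ ?_ ?_
    · rw [Fintype.card_fin]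
      have h2 : (((prs d).filter fun e => P.2 e.1 e.2).card +
          ((prs d).filter fun e => ¬ P.2 e.1 e.2 ∧ ¬ P.1 e.1 e.2).card) ≤ (prs d).card := by
        rw [← Finset.card_union_of_disjoint]
        · apply Finset.card_le_card
          intro e he
          rcases Finset.mem_union.1 he with he | he
          · exact (Finset.mem_filter.1 he).1
          · exact (Finset.mem_filter.1 he).1
        · rw [Finset.disjoint_left]
          intro e h3 h4
          exact (Finset.mem_filter.1 h4).2.1 (Finset.mem_filter.1 h3).2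
      rw [card_prs] at h2
      omega
    · rintro r rfl e he h2
      exact hP.1 _ _ h2 (Finset.mem_filter.1 he).2
    · rintro r rfl e he h2
      exact (Finset.mem_filter.1 he).2.2 h2
  · have h1 : ∀ {W : Type} (D : SimpleGraph W), IsEmpty {v : Fin d → W // pat D v = P} := by
      intro W D
      refine ⟨fun v => hP ?_⟩
      rw [← v.2]
      exact pat_ok d D v.1
    have := h1 G
    have := h1 G'
    simp

/-- Sum over the patterns. -/
theorem deck_of_same [Fintype V] [Fintype V'] (G : SimpleGraph V) (G' : SimpleGraph V') (m d : ℕ)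
    (hm : d + d.choose 2 + 1 ≤ m) (h : SameUpTo m G G') : SameDeck d G G' := by
  classical
  intro q hq Q
  have hmq : q + q.choose 2 + 1 ≤ m := by
    have := Nat.choose_le_choose 2 hq
    omega
  have : Fintype ((Fin q → Fin q → Prop) × (Fin q → Fin q → Prop)) := Fintype.ofFinite _
  have key : ∀ {Z : Type} [Finite Z] (D : SimpleGraph Z),
      Nat.card {φ : Fin q → Z // Q (pat D φ)} =
        ∑ P : (Fin q → Fin q → Prop) × (Fin q → Fin q → Prop),
          if Q P then Nat.card {φ : Fin q → Z // pat D φ = P} else 0 := by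
    intro Z _ D
    have h1 : Nat.card {φ : Fin q → Z // Q (pat D φ)} =
        ∑ P, Nat.card {x : {φ : Fin q → Z // Q (pat D φ)} // pat D x.1 = P} := by
      rw [← Nat.card_sigma]
      exact Nat.card_congr (Equiv.sigmaFiberEquiv _).symm
    rw [h1]
    refine Finset.sum_congr rfl fun P _ => ?_
    split_ifs with hP
    · refine Nat.card_congr ⟨fun x => ⟨x.1.1, x.2⟩, fun φ => ⟨⟨φ.1, ?_⟩, φ.2⟩, ?_, ?_⟩
      · rw [φ.2]; exact hP
      · intro x; rfl
      · intro x; rfl
    · rw [Nat.card_eq_zero]
      left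
      exact ⟨fun x => hP (by rw [← x.2]; exact x.1.2)⟩
  rw [key G, key G']
  refine Finset.sum_congr rfl fun P _ => ?_
  split_ifs with hP
  · exact pat_same G G' m q hmq h P
  · rfl

end Pool.Agent.Lib_helper37.GC
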