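import Mathlib

/-!
# Generalised chromatic polynomials: definitions

`Col G k`: the proper colourings of `G` with the colours `Fin k`; `colGraph G k`: two colourings are adjacent when they
differ at exactly one vertex; `genChrom G H k`: the number of vertex subsets of `colGraph G k` inducing a graph
isomorphic to `H`.
-/

set_option autoImplicit false

namespace Pool.Agent.Lib_helper37.GC

/-- The proper colourings of `G` with the colours `0, ..., k - 1`. -/
abbrev Col {V : Type} (G : SimpleGraph V) (k : ℕ) : Type :=
  {c : V → Fin k // ∀ u v, G.Adj u v → c u ≠ c v}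

/-- The graph of the proper colourings: adjacent means different at exactly one vertex. -/
def colGraph {V : Type} (G : SimpleGraph V) (k : ℕ) : SimpleGraph (Col G k) where
  Adj c c' := ∃! v, c.1 v ≠ c'.1 v
  symm := ⟨fun c c' h => by
    obtain ⟨v, h1, h2⟩ := h
    exact ⟨v, fun h => h1 h.symm, fun w hw => h2 w fun h => hw h.symm⟩⟩
  loopless := ⟨fun c h => by
    obtain ⟨v, h1, _⟩ := h
    exact h1 rfl⟩

/-- The number of vertex subsets of `D` which induce a graph isomorphic to `H`. -/
noncomputable def cnt {X Y : Type} (D : SimpleGraph X) (H : SimpleGraph Y) : ℕ :=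
  Nat.card {S : Set X // Nonempty (D.induce S ≃g H)}

/-- The generalised chromatic polynomial of `G` for `H`, at the number `k` of colours. -/
noncomputable def genChrom {V Y : Type} (G : SimpleGraph V) (H : SimpleGraph Y) (k : ℕ) : ℕ :=
  cnt (colGraph G k) H

/-- `G` and `G'` have the same generalised chromatic polynomials for all connected graphs `H` with at most `m`
vertices. -/
def SameUpTo {V V' : Type} (m : ℕ) (G : SimpleGraph V) (G' : SimpleGraph V') : Prop :=
  ∀ h ≤ m, ∀ H : SimpleGraph (Fin h), H.Connected → ∀ k : ℕ, genChrom G H k = genChrom G' H k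

end Pool.Agent.Lib_helper37.GC
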