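import Pool.Agent.Lib_helper37.GC.Rand3

/-!
# Almost every graph is determined by the generalised chromatic polynomials of the small connected graphs
-/

set_option autoImplicit false

open Finset Filter Topology

namespace Pool.Agent.Lib_helper37.GC

/-- `G` is determined, up to isomorphism and among all finite graphs, by its generalised chromatic polynomials for the
connected graphs with at most `x` vertices. -/
def Determined {V : Type} (x : ℝ) (G : SimpleGraph V) : Prop :=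
  ∀ (W : Type) [Fintype W] (G' : SimpleGraph W),
    (∀ h : ℕ, (h : ℝ) ≤ x → ∀ H : SimpleGraph (Fin h), H.Connected →
      ∀ k : ℕ, genChrom G' H k = genChrom G H k) → Nonempty (G ≃g G')

/-- The number of homomorphisms from a graph with `d` vertices and `e` edges is determined by the generalised chromatic
polynomials for the connected graphs with at most `1 + d + e` vertices. -/
theorem hom_same {V V' : Type} [Fintype V] [Fintype V'] (G : SimpleGraph V) (G' : SimpleGraph V')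
    (d : ℕ) (F : SimpleGraph (Fin d)) (h : SameUpTo (1 + d + Nat.card F.edgeSet) G G') :
    Nat.card (F →g G) = Nat.card (F →g G') := by
  classical
  set I : Finset (Fin d × Fin d) := (prs d).filter fun e => F.Adj e.1 e.2 with hI
  have hIc : I.card ≤ Nat.card F.edgeSet := by
    rw [Nat.card_eq_card_toFinset F.edgeSet]
    refine Finset.card_le_card_of_injOn (fun e => s(e.1, e.2)) ?_ ?_
    · intro e he
      rw [Finset.mem_coe, hI, Finset.mem_filter] at he
      simpa using he.2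
    · rintro ⟨a, b⟩ he ⟨a', b'⟩ he' hs
      rw [Finset.mem_coe, hI, Finset.mem_filter] at he he'
      simp only [prs, Finset.mem_filter, Finset.mem_univ, true_and] at he he'
      simp only [Sym2.eq_iff] at hs
      rcases hs with ⟨h1, h2⟩ | ⟨h1, h2⟩
      · rw [h1, h2]
      · exfalso
        have h3 := he.1
        have h4 := he'.1
        rw [h1, h2] at h3
        exact absurd h3 (not_lt.2 h4.le)
  have key : ∀ {W : Type} (D : SimpleGraph W), Nat.card (F →g D) =
      HR D (fun r : Fin d → Fin d → Prop => ∀ e ∈ I, ¬ r e.1 e.2) I := by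
    intro W D
    unfold HR
    refine Nat.card_congr ⟨fun f => ⟨f, ?_, ?_⟩, fun v => ⟨v.1, ?_⟩, ?_, ?_⟩
    · intro e he hr
      exact (f.map_rel (Finset.mem_filter.1 he).2).ne hr
    · intro e he
      exact f.map_rel (Finset.mem_filter.1 he).2
    · intro a b hab
      rcases lt_trichotomy a b with h1 | h1 | h1
      · exact v.2.2 (a, b) (Finset.mem_filter.2 ⟨by simp [prs, h1], hab⟩)
      · exact absurd h1 hab.ne
      · exact (v.2.2 (b, a) (Finset.mem_filter.2 ⟨by simp [prs, h1], hab.symm⟩)).symm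
    · intro f; rfl
    · intro v; rfl
  rw [key G, key G']
  refine HR_same G G' _ h _ I ?_ ?_
  · rw [Fintype.card_fin]
    omega
  · intro r hr e he
    exact hr e he

/-- The number of induced subgraphs isomorphic to a given graph with `d` vertices is determined by the generalised
chromatic polynomials for the connected graphs with at most `1 + d + d.choose 2` vertices. -/
theorem cnt_same {V V' : Type} [Fintype V] [Fintype V'] (G : SimpleGraph V) (G' : SimpleGraph V')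
    (d : ℕ) (F : SimpleGraph (Fin d)) (h : SameUpTo (1 + d + d.choose 2) G G') :
    cnt G F = cnt G' F := by
  have h1 := pat_same G G' (1 + d + d.choose 2) d (by omega) h (pat F (fun i => i))
  have key : ∀ {W : Type} (D : SimpleGraph W), Nat.card {v : Fin d → W // pat D v = pat F (fun i => i)} =
      Nat.card (F ↪g D) := by
    intro W D
    refine Nat.card_congr ⟨fun v => ⟨⟨v.1, fun a b hab => (pat_fst v.2 a b).1 hab⟩,
      fun {a b} => pat_snd v.2 a b⟩, fun f => ⟨f, ?_⟩, ?_, ?_⟩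
    · refine Prod.ext ?_ ?_
      · funext a b
        exact propext (f.injective.eq_iff)
      · funext a b
        exact propext f.map_rel_iff
    · intro v; rfl
    · intro f; rfl
  rw [key G, key G', card_embedding, card_embedding] at h1
  have h2 : 0 < Nat.card (F ≃g F) := by
    have : Nonempty (F ≃g F) := ⟨RelIso.refl _⟩
    have : Finite (F ≃g F) := Finite.of_injective (fun φ => (φ : Fin d → Fin d)) DFunLike.coe_injective
    exact Nat.card_pos
  exact Nat.eq_of_mul_eq_mul_right h2 h1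

theorem det_of_good {n m : ℕ} (S : Fin m → Fin n) (G : SimpleGraph (Fin n)) (hG : Good S G) (x : ℝ)
    (hx : (1 + (m + 2) + (m + 2).choose 2 : ℕ) ≤ x) : Determined x G := by
  intro W _ G' h
  refine recon G G' m S hG.1 hG.2 (deck_of_same G G' _ (m + 2) le_rfl ?_)
  intro h' hh' H hH k
  refine (h h' (le_trans ?_ hx) H hH k).symm
  have : h' ≤ 1 + (m + 2) + (m + 2).choose 2 := by omega
  exact_mod_cast this

/-- The bound for the fraction of the graphs which are not good. -/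
noncomputable def BB (c : ℝ) (t : ℕ) : ℝ := (Real.exp (c * (((t : ℝ) + 1) ^ 2 * (1 / 2) ^ t)) - 1) + (1 / 2) ^ t

theorem BB_tendsto (c : ℝ) : Tendsto (BB c) atTop (𝓝 0) := by
  have h1 : Tendsto (fun t : ℕ => (((t : ℝ) + 1) ^ 2 * (1 / 2) ^ t)) atTop (𝓝 0) := by
    have h2 := tendsto_pow_const_mul_const_pow_of_abs_lt_one 2 (r := (1/2 : ℝ)) (by
      rw [abs_of_pos (by norm_num)]; norm_num)
    have h3 := (h2.comp (tendsto_add_atTop_nat 1)).const_mul 2
    rw [mul_zero] at h3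
    refine h3.congr fun t => ?_
    simp only [Function.comp]
    push_cast
    rw [pow_succ]
    ring
  have h4 : Tendsto (fun t : ℕ => Real.exp (c * (((t : ℝ) + 1) ^ 2 * (1 / 2) ^ t))) atTop (𝓝 1) := by
    have := (Real.continuous_exp.tendsto 0).comp (by simpa using h1.const_mul c :
      Tendsto (fun t : ℕ => c * (((t : ℝ) + 1) ^ 2 * (1 / 2) ^ t)) atTop (𝓝 0))
    rw [Real.exp_zero] at this
    exact this
  have h5 : Tendsto (fun t : ℕ => ((1:ℝ) / 2) ^ t) atTop (𝓝 0) :=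
    tendsto_pow_atTop_nhds_zero_of_lt_one (by norm_num) (by norm_num)
  have h6 := (h4.sub_const 1).add h5
  rw [sub_self, zero_add] at h6
  exact h6

theorem log_tendsto : Tendsto (fun n : ℕ => Nat.log 2 n) atTop atTop := by
  refine tendsto_atTop_atTop.2 fun b => ⟨2 ^ b, fun n hn => ?_⟩
  exact (Nat.le_log_iff_pow_le (by norm_num) (by
    have : 0 < 2 ^ b := by positivity
    omega)).2 hn

theorem bad_frac (q n ℓ p2 m : ℕ) (hq : 8 ≤ q) (hℓ : ℓ = Nat.log 2 n) (hp2 : p2 = ℓ / q)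
    (hm : m = 2 * ℓ + 4 * p2 + 3) (h4 : 4 ≤ ℓ) (S : Fin m → Fin n) (hS : Function.Injective S) :
    (Nat.card {G : SimpleGraph (Fin n) // ¬ Good S G} : ℝ) ≤
      Nat.card (SimpleGraph (Fin n)) * BB ((2 * q + 4) ^ 2) p2 := by
  have hqp : p2 * q ≤ ℓ := by rw [hp2]; exact Nat.div_mul_le_self _ _
  have hqp' : ℓ < q * (p2 + 1) := by
    rw [hp2]
    exact Nat.lt_mul_div_succ ℓ (by omega)
  have h8 : 8 * p2 ≤ ℓ := by nlinarith
  have h0 := bad_bound (ℓ + 1 + p2) p2 (by omega : 2 * (ℓ + 1 + p2 + p2) + 1 ≤ m) (by omega) S hS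
  refine h0.trans ?_
  refine mul_le_mul_of_nonneg_left ?_ (by positivity)
  have hn1 : n < 2 ^ (ℓ + 1) := by
    rw [hℓ]
    exact Nat.lt_pow_succ_log_self (by norm_num) n
  have hn2 : (n : ℝ) ≤ 2 ^ (ℓ + 1) := by exact_mod_cast hn1.le
  have e1 : (n : ℝ) * (1 / 2) ^ (ℓ + 1 + p2) ≤ (1 / 2) ^ p2 := by
    rw [pow_add]
    calc (n : ℝ) * ((1 / 2) ^ (ℓ + 1) * (1 / 2) ^ p2) ≤
        2 ^ (ℓ + 1) * ((1 / 2) ^ (ℓ + 1) * (1 / 2) ^ p2) := by gcongr
      _ = (2 ^ (ℓ + 1) * (1 / 2) ^ (ℓ + 1)) * (1 / 2) ^ p2 := by ring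
      _ = (1 / 2) ^ p2 := by rw [← mul_pow]; norm_num
  have e2 : (1 + (m : ℝ) * (1 / 2) ^ p2 + n * (1 / 2) ^ (ℓ + 1 + p2)) ≤
      Real.exp (((m : ℝ) + 1) * (1 / 2) ^ p2) := by
    have := Real.add_one_le_exp (((m : ℝ) + 1) * (1 / 2) ^ p2)
    linarith
  have e3 : (1 + (m : ℝ) * (1 / 2) ^ p2 + n * (1 / 2) ^ (ℓ + 1 + p2)) ^ m ≤
      Real.exp ((2 * q + 4) ^ 2 * (((p2 : ℝ) + 1) ^ 2 * (1 / 2) ^ p2)) := by
    refine (pow_le_pow_left₀ (by positivity) e2 m).trans ?_
    rw [← Real.exp_nat_mul]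
    apply Real.exp_le_exp.2
    have hm1 : (m : ℝ) + 1 ≤ (2 * q + 4) * (p2 + 1) := by
      have : m + 1 ≤ (2 * q + 4) * (p2 + 1) := by
        rw [hm]
        nlinarith
      exact_mod_cast this
    calc (m : ℝ) * (((m : ℝ) + 1) * (1 / 2) ^ p2) ≤
        ((2 * q + 4) * (p2 + 1)) * (((2 * q + 4) * (p2 + 1)) * (1 / 2) ^ p2) := by
          gcongr
          linarith
      _ = _ := by ring
  have e4 : (n : ℝ) ^ 2 * (1 / 2) ^ m ≤ (1 / 2) ^ p2 := by
    have e5 : (1 / 2 : ℝ) ^ m ≤ (1 / 2) ^ (2 * (ℓ + 1) + p2) :=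
      pow_le_pow_of_le_one (by norm_num) (by norm_num) (by omega)
    calc (n : ℝ) ^ 2 * (1 / 2) ^ m ≤ (2 ^ (ℓ + 1)) ^ 2 * (1 / 2) ^ (2 * (ℓ + 1) + p2) := by gcongr
      _ = (2 ^ (ℓ + 1) * (1 / 2) ^ (ℓ + 1)) ^ 2 * (1 / 2) ^ p2 := by rw [pow_add]; ring
      _ = (1 / 2) ^ p2 := by rw [← mul_pow]; norm_num
  unfold BB
  linarith

/-- The size bound. -/
theorem size_bound (ε : ℝ) (hε : 0 < ε) (q : ℕ) (hq : 8 ≤ q) (hqε : 32 ≤ ε * q) :
    ∀ᶠ ℓ : ℕ in atTop, ((1 + (2 * ℓ + 4 * (ℓ / q) + 3 + 2) +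
      (2 * ℓ + 4 * (ℓ / q) + 3 + 2).choose 2 : ℕ) : ℝ) ≤ (2 + ε) * (ℓ : ℝ) ^ 2 := by
  have h1 : ∀ᶠ ℓ : ℕ in atTop, (100 : ℝ) ≤ ε * ℓ :=
    (tendsto_natCast_atTop_atTop.const_mul_atTop hε).eventually_ge_atTop 100
  filter_upwards [h1, eventually_ge_atTop 1] with ℓ hl hl1
  set d := 2 * ℓ + 4 * (ℓ / q) + 3 + 2 with hd
  have e1 : 2 * d.choose 2 ≤ d * d := by
    rw [Nat.choose_two_right]
    have := Nat.div_mul_le_self (d * (d - 1)) 2
    have h2 : d * (d - 1) ≤ d * d := Nat.mul_le_mul_left _ (by omega)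
    omega
  have e2 : (2 : ℝ) * ((1 + d + d.choose 2 : ℕ) : ℝ) ≤ 2 + 2 * d + d * d := by
    have : 2 * (1 + d + d.choose 2) ≤ 2 + 2 * d + d * d := by omega
    exact_mod_cast this
  have hq0 : (0 : ℝ) < q := by exact_mod_cast (by omega : 0 < q)
  have e3 : ((ℓ / q : ℕ) : ℝ) ≤ ℓ / q := Nat.cast_div_le
  have hl0 : (1 : ℝ) ≤ ℓ := by exact_mod_cast hl1
  have e4 : (ℓ : ℝ) / q ≤ ε / 32 * ℓ := by
    rw [div_le_iff₀ hq0]
    nlinarith
  have e5 : (ℓ : ℝ) / q ≤ ℓ / 8 := by
    have : (8 : ℝ) ≤ q := by exact_mod_cast hq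
    gcongr
  have e6 : (d : ℝ) ≤ 2 * ℓ + 4 * (ℓ / q) + 5 := by
    rw [hd]
    push_cast
    linarith
  set y : ℝ := ℓ / q with hy
  have hy0 : 0 ≤ y := by positivity
  have hd0 : (0 : ℝ) ≤ d := by positivity
  have e7 : (2 : ℝ) + 2 * d + d * d ≤ (2 * ℓ + 4 * y + 6) ^ 2 + 1 := by nlinarith
  have e8 : (2 * ℓ + 4 * y + 6 : ℝ) ^ 2 + 1 ≤ 2 * ((2 + ε) * (ℓ : ℝ) ^ 2) := by
    have f1 : (2 * ℓ + 4 * y + 6 : ℝ) ^ 2 = 4 * ℓ ^ 2 + 16 * ℓ * y + 16 * y * y + 24 * ℓ + 48 * y + 36 := by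
      ring
    rw [f1]
    have f2 : y * y ≤ ℓ / 8 * (ε / 32 * ℓ) := mul_le_mul e5 e4 hy0 (by positivity)
    have f3 : (ℓ : ℝ) * y ≤ ℓ * (ε / 32 * ℓ) := mul_le_mul_of_nonneg_left e4 (by positivity)
    have f4 : (100 : ℝ) * ℓ ≤ ε * ℓ * ℓ := mul_le_mul_of_nonneg_right hl (by positivity)
    nlinarith
  linarith

theorem main_as (ε : ℝ) (hε : 0 < ε) :
    Tendsto (fun n : ℕ => (Nat.card {G : SimpleGraph (Fin n) //
      Determined ((2 + ε) * (Real.logb 2 n) ^ 2) G} : ℝ) / Nat.card (SimpleGraph (Fin n)))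
      atTop (𝓝 1) := by
  classical
  obtain ⟨q0, hq0⟩ := exists_nat_ge (32 / ε)
  set q := max 8 q0 with hq
  have hq8 : 8 ≤ q := le_max_left _ _
  have hqε : 32 ≤ ε * q := by
    have h1 : (q0 : ℝ) ≤ q := by exact_mod_cast le_max_right _ _
    have h2 : 32 / ε ≤ q := hq0.trans h1
    rw [div_le_iff₀ hε] at h2
    linarith
  have hp2 : Tendsto (fun n : ℕ => Nat.log 2 n / q) atTop atTop := by
    refine tendsto_atTop_atTop.2 fun b => ?_
    obtain ⟨N, hN⟩ := tendsto_atTop_atTop.1 log_tendsto (b * q)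
    exact ⟨N, fun n hn => (Nat.le_div_iff_mul_le (by omega)).2 (hN n hn)⟩
  have hB : Tendsto (fun n : ℕ => 1 - BB ((2 * q + 4) ^ 2) (Nat.log 2 n / q)) atTop (𝓝 1) := by
    have := ((BB_tendsto ((2 * q + 4) ^ 2)).comp hp2).const_sub 1
    rw [sub_zero] at this
    exact this
  refine tendsto_of_tendsto_of_tendsto_of_le_of_le' hB tendsto_const_nhds ?_ ?_
  · filter_upwards [log_tendsto.eventually (size_bound ε hε q hq8 hqε),
      log_tendsto.eventually (eventually_ge_atTop 4), eventually_ge_atTop 1] with n hn1 hn2 hn3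
    set ℓ := Nat.log 2 n with hℓ
    have hmn : 2 * ℓ + 4 * (ℓ / q) + 3 ≤ n := by
      have h1 : 2 ^ ℓ ≤ n := Nat.pow_log_le_self 2 (by omega)
      have h2 : ∀ k : ℕ, 4 ≤ k → 3 * k + 3 ≤ 2 ^ k := by
        intro k hk
        induction k, hk using Nat.le_induction with
        | base => norm_num
        | succ k hk ih =>
          rw [pow_succ]
          omega
      have h3 := h2 ℓ hn2
      have h4 : 4 * (ℓ / q) ≤ ℓ := by
        have h5 : ℓ / q ≤ ℓ / 8 := Nat.div_le_div_left hq8 (by norm_num)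
        omega
      omega
    have h0 := bad_frac q n ℓ (ℓ / q) (2 * ℓ + 4 * (ℓ / q) + 3) hq8 hℓ rfl rfl hn2
      (Fin.castLE hmn) (Fin.castLE_injective hmn)
    have hN0 : (0 : ℝ) < Nat.card (SimpleGraph (Fin n)) := by
      exact_mod_cast Nat.card_pos
    rw [le_div_iff₀ hN0]
    have hsum : Nat.card (SimpleGraph (Fin n)) ≤
        Nat.card {G : SimpleGraph (Fin n) // Determined ((2 + ε) * (Real.logb 2 n) ^ 2) G} +
        Nat.card {G : SimpleGraph (Fin n) // ¬ Good (Fin.castLE hmn) G} := by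
      have h6 : ∀ G : SimpleGraph (Fin n), Good (Fin.castLE hmn) G →
          Determined ((2 + ε) * (Real.logb 2 n) ^ 2) G := by
        intro G hG
        refine det_of_good _ G hG _ (hn1.trans ?_)
        have h7 : (ℓ : ℝ) ≤ Real.logb 2 n := Real.natLog_le_logb n 2
        gcongr
      rw [Nat.card_eq_fintype_card (α := {G : SimpleGraph (Fin n) // Determined _ G}),
        Nat.card_eq_fintype_card (α := {G : SimpleGraph (Fin n) // ¬ Good _ G}),
        Nat.card_eq_fintype_card, Fintype.card_subtype, Fintype.card_subtype, ← Finset.card_univ]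
      refine le_trans (Finset.card_le_card ?_) (Finset.card_union_le _ _)
      intro G _
      rw [Finset.mem_union, Finset.mem_filter, Finset.mem_filter]
      by_cases hG : Good (Fin.castLE hmn) G
      · exact Or.inl ⟨Finset.mem_univ _, h6 G hG⟩
      · exact Or.inr ⟨Finset.mem_univ _, hG⟩
    have hsum' : (Nat.card (SimpleGraph (Fin n)) : ℝ) ≤
        Nat.card {G : SimpleGraph (Fin n) // Determined ((2 + ε) * (Real.logb 2 n) ^ 2) G} +
        Nat.card {G : SimpleGraph (Fin n) // ¬ Good (Fin.castLE hmn) G} := by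
      exact_mod_cast hsum
    linarith
  · refine Eventually.of_forall fun n => ?_
    have hN0 : (0 : ℝ) < Nat.card (SimpleGraph (Fin n)) := by
      exact_mod_cast Nat.card_pos
    rw [div_le_one hN0]
    have : Nat.card {G : SimpleGraph (Fin n) // Determined ((2 + ε) * (Real.logb 2 n) ^ 2) G} ≤
      Nat.card (SimpleGraph (Fin n)) := Nat.card_le_card_of_injective _ Subtype.val_injective
    exact_mod_cast this

end Pool.Agent.Lib_helper37.GC
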