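import Pool.Agent.Lib_helper37.GC.Union
import Pool.Agent.Lib_helper37.GC.Main

/-!
# Graphs at a small distance are distinguished by few polynomials
-/

set_option autoImplicit false

open Finset Filter Topology

namespace Pool.Agent.Lib_helper37.GC

/-- The first typical property. -/
def T1 (n A : ℕ) (G : SimpleGraph (Fin n)) : Prop :=
  ∑ w, (2 * dg G w - ((Fintype.card (Fin n) : ℤ) - 1)) ^ 2 ≤ (A : ℤ)

/-- The second typical property. -/
def T2 (n R : ℕ) (G : SimpleGraph (Fin n)) : Prop :=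
  Nat.card {p : Fin n × Fin n // p.1 ≠ p.2 ∧ |dg G p.1 - dg G p.2| ≤ 1} ≤ R

theorem T_typ (n b ρ : ℕ) (hb : b ^ 16 ≤ n) (hn : n + 1 ≤ (2 * b) ^ 16) (hρ : 16 ^ ρ ≤ b)
    (h13 : 2 ^ 13 ≤ b) (hL : 8 * Lb ρ < b) (r : ℕ) (hr : r ≤ ρ) (G : SimpleGraph (Fin n))
    (hG1 : T1 n (b ^ 4 * n ^ 2) G) (hG2 : T2 n (n ^ 2 / b ^ 4) G) :
    Typ (2 * r) (Lb r) (b ^ 2) G := by
  have hb0 : 0 < b := by omega
  have hp0 : 0 < 4 ^ ρ := by positivity
  have hpr : 2 ^ (2 * r) ≤ 4 ^ ρ := by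
    rw [pow_mul]
    norm_num
    exact Nat.pow_le_pow_right (by norm_num) hr
  have hpp : 4 ^ ρ * 4 ^ ρ ≤ b := by
    rw [← mul_pow]; exact hρ
  have h16 : 4 ^ (2 * r) ≤ b := by
    rw [pow_mul]
    norm_num
    exact le_trans (Nat.pow_le_pow_right (by norm_num) hr) hρ
  generalize 4 ^ ρ = p at *
  refine typ_of G (2 * r) (Lb r) (b ^ 2) (b ^ 4 * n ^ 2) (n ^ 2 / b ^ 4) (2 ^ 9 * b ^ 12 * p) ?_ hG1
    hG2 ?_ ?_ ?_
  · positivity
  · rw [Fintype.card_fin]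
    have e1 : n ≤ 2 ^ 16 * b ^ 16 := by
      rw [mul_pow] at hn; omega
    calc 4 * (b ^ 4 * n ^ 2) * 2 ^ (2 * r) ≤ 4 * (b ^ 4 * n ^ 2) * p := by gcongr
      _ = (4 * b ^ 4 * p) * n * n := by ring
      _ ≤ (4 * b ^ 4 * p) * (2 ^ 16 * b ^ 16) * n := by gcongr
      _ = (2 ^ 18 * b ^ 20 * p * n) * (1 * 1) := by ring
      _ ≤ (2 ^ 18 * b ^ 20 * p * n) * (b ^ 4 * p) := by
          gcongr
          · exact Nat.one_le_pow _ _ hb0
          · exact hp0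
      _ = (2 ^ 9 * b ^ 12 * p) ^ 2 * n := by ring
  · rw [Fintype.card_fin]
    have e1 : 2 ^ 9 * b ^ 12 * p + 4 ≤ 2 * (2 ^ 9 * b ^ 12 * p) := by
      have : 1 ≤ b ^ 12 * p := Nat.one_le_iff_ne_zero.2 (by positivity)
      nlinarith
    calc 8 * (2 ^ 9 * b ^ 12 * p + 4) * b ^ 2 * 2 ^ (2 * r) ≤
        8 * (2 * (2 ^ 9 * b ^ 12 * p)) * b ^ 2 * p := by gcongr
      _ = 2 ^ 13 * b ^ 14 * (p * p) := by ring
      _ ≤ b * b ^ 14 * b := by gcongr
      _ = b ^ 16 := by ring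
      _ ≤ n := hb
  · rw [Fintype.card_fin]
    set R := n ^ 2 / b ^ 4 with hR
    have e1 : R * b ^ 4 ≤ n ^ 2 := Nat.div_mul_le_self _ _
    have e2 : n * b ^ 4 ≤ n ^ 2 := by
      rw [sq]
      gcongr
      exact (Nat.pow_le_pow_right hb0 (by norm_num)).trans hb
    have e3 : 8 * Lb r < b := by
      have := Lb_mono hr
      omega
    have hn0 : 0 < n := lt_of_lt_of_le (by positivity) hb
    have e4 : b ^ 4 * (4 * Lb r * 4 ^ (2 * r) * (n + R)) < b ^ 4 * n ^ 2 := by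
      calc b ^ 4 * (4 * Lb r * 4 ^ (2 * r) * (n + R)) ≤ b ^ 4 * (4 * Lb r * b * (n + R)) := by
            gcongr
        _ = 4 * Lb r * b * (n * b ^ 4 + R * b ^ 4) := by ring
        _ ≤ 4 * Lb r * b * (n ^ 2 + n ^ 2) := by gcongr
        _ = (8 * Lb r) * (b * n ^ 2) := by ring
        _ < b * (b * n ^ 2) := by
            apply Nat.mul_lt_mul_of_pos_right e3
            positivity
        _ = b ^ 2 * n ^ 2 := by ring
        _ ≤ b ^ 4 * n ^ 2 := by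
            gcongr
            norm_num
    exact Nat.lt_of_mul_lt_mul_left e4

theorem bad_total (n b ρ : ℕ) (hb : b ^ 16 ≤ n) (hn : n + 1 ≤ (2 * b) ^ 16) (hρ : 16 ^ ρ ≤ b)
    (h13 : 2 ^ 13 ≤ b) (hL : 8 * Lb ρ < b) :
    (Nat.card {G : SimpleGraph (Fin n) // ¬ T1 n (b ^ 4 * n ^ 2) G} +
      Nat.card {G : SimpleGraph (Fin n) // ¬ T2 n (n ^ 2 / b ^ 4) G} +
      Nat.card {G : SimpleGraph (Fin n) // ∃ r ∈ Finset.Icc 1 ρ, ∃ D : Finset (Sym2 (Fin n)),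
        (D.card = r ∧ ∀ e ∈ D, ¬ e.IsDiag) ∧
        (T1 n (b ^ 4 * n ^ 2) G ∧ T2 n (n ^ 2 / b ^ 4) G) ∧
        SameUpTo (10000000 * (r * r)) G (sd G D)}) * b ≤
      4 * Nat.card (SimpleGraph (Fin n)) := by
  have hb0 : 0 < b := by omega
  have hn0 : 0 < n := lt_of_lt_of_le (by positivity) hb
  set N := Nat.card (SimpleGraph (Fin n)) with hN
  have hbn : b ≤ n := le_trans (by
    calc b = b ^ 1 := (pow_one b).symm
      _ ≤ b ^ 16 := Nat.pow_le_pow_right hb0 (by norm_num)) hb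
  have hb2n : b * b ≤ n := le_trans (by
    calc b * b = b ^ 2 := (sq b).symm
      _ ≤ b ^ 16 := Nat.pow_le_pow_right hb0 (by norm_num)) hb
  have hρb : ρ < b := lt_of_lt_of_le (Nat.lt_pow_self (by norm_num)) hρ
  -- far degrees
  have hX1 : Nat.card {G : SimpleGraph (Fin n) // ¬ T1 n (b ^ 4 * n ^ 2) G} * b ≤ N := by
    have h1 := far_degrees (V := Fin n) (b ^ 4 * n ^ 2)
    have h2 : Nat.card {G : SimpleGraph (Fin n) // ((b ^ 4 * n ^ 2 : ℕ) : ℤ) <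
        ∑ w, (2 * dg G w - ((Fintype.card (Fin n) : ℤ) - 1)) ^ 2} =
        Nat.card {G : SimpleGraph (Fin n) // ¬ T1 n (b ^ 4 * n ^ 2) G} :=
      Nat.card_congr (Equiv.subtypeEquivRight fun G => not_le.symm)
    rw [h2, Fintype.card_fin] at h1
    have h3 : n ^ 2 * (Nat.card {G : SimpleGraph (Fin n) // ¬ T1 n (b ^ 4 * n ^ 2) G} * b ^ 4) ≤
        n ^ 2 * N := by
      calc _ = Nat.card {G : SimpleGraph (Fin n) // ¬ T1 n (b ^ 4 * n ^ 2) G} *
            (b ^ 4 * n ^ 2) := by ring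
        _ ≤ _ := h1
    have h4 := Nat.le_of_mul_le_mul_left h3 (by positivity)
    refine le_trans (Nat.mul_le_mul_left _ ?_) h4
    calc b = b ^ 1 := (pow_one b).symm
      _ ≤ b ^ 4 := Nat.pow_le_pow_right hb0 (by norm_num)
  -- close pairs
  have hX2 : Nat.card {G : SimpleGraph (Fin n) // ¬ T2 n (n ^ 2 / b ^ 4) G} * b ≤ 2 * N := by
    set R := n ^ 2 / b ^ 4 with hR
    have h1 := many_pairs (V := Fin n) R (b ^ 7) (by
      rw [Fintype.card_fin]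
      have e1 : 9 * (b ^ 7) ^ 2 + 1 ≤ b ^ 16 := by
        have e2 : 1 ≤ b ^ 14 := Nat.one_le_pow _ _ hb0
        have e3 : 10 ≤ b ^ 2 := by nlinarith
        calc 9 * (b ^ 7) ^ 2 + 1 = 9 * b ^ 14 + 1 := by ring
          _ ≤ 10 * b ^ 14 := by omega
          _ ≤ b ^ 2 * b ^ 14 := Nat.mul_le_mul_right _ e3
          _ = b ^ 16 := by ring
      exact e1.trans hb)
    have h2 : Nat.card {G : SimpleGraph (Fin n) //
        R < Nat.card {p : Fin n × Fin n // p.1 ≠ p.2 ∧ |dg G p.1 - dg G p.2| ≤ 1}} =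
        Nat.card {G : SimpleGraph (Fin n) // ¬ T2 n R G} :=
      Nat.card_congr (Equiv.subtypeEquivRight fun G => not_le.symm)
    rw [h2, Fintype.card_fin] at h1
    set X := Nat.card {G : SimpleGraph (Fin n) // ¬ T2 n R G} with hX
    have hb4 : b ^ 4 ≤ n ^ 2 := by
      calc b ^ 4 = (b * b) ^ 2 := by ring
        _ ≤ n ^ 2 := by gcongr
    have hR1 : 1 ≤ R := (Nat.one_le_div_iff (by positivity)).2 hb4
    have hR2 : n ^ 2 ≤ 2 * (R * b ^ 4) := by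
      have := Nat.lt_mul_div_succ (n ^ 2) (show 0 < b ^ 4 by positivity)
      rw [← hR] at this
      have e1 : b ^ 4 * (R + 1) ≤ b ^ 4 * (2 * R) := Nat.mul_le_mul_left _ (by omega)
      calc n ^ 2 ≤ b ^ 4 * (R + 1) := this.le
        _ ≤ b ^ 4 * (2 * R) := e1
        _ = 2 * (R * b ^ 4) := by ring
    have h3 : (n ^ 2 * b ^ 4) * (X * b ^ 3) ≤ (n ^ 2 * b ^ 4) * (2 * N) := by
      calc (n ^ 2 * b ^ 4) * (X * b ^ 3) = n ^ 2 * (X * b ^ 7) := by ring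
        _ ≤ (2 * (R * b ^ 4)) * (X * b ^ 7) := Nat.mul_le_mul_right _ hR2
        _ = 2 * b ^ 4 * (X * (R * b ^ 7)) := by ring
        _ ≤ 2 * b ^ 4 * (n ^ 2 * N) := Nat.mul_le_mul_left _ h1
        _ = (n ^ 2 * b ^ 4) * (2 * N) := by ring
    have h4 := Nat.le_of_mul_le_mul_left h3 (by positivity)
    refine le_trans (Nat.mul_le_mul_left _ ?_) h4
    calc b = b ^ 1 := (pow_one b).symm
      _ ≤ b ^ 3 := Nat.pow_le_pow_right hb0 (by norm_num)
  -- bad flips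
  have hX3 : Nat.card {G : SimpleGraph (Fin n) // ∃ r ∈ Finset.Icc 1 ρ,
      ∃ D : Finset (Sym2 (Fin n)), (D.card = r ∧ ∀ e ∈ D, ¬ e.IsDiag) ∧
        (T1 n (b ^ 4 * n ^ 2) G ∧ T2 n (n ^ 2 / b ^ 4) G) ∧
        SameUpTo (10000000 * (r * r)) G (sd G D)} * b ≤ N := by
    have h1 := all_D (V := Fin n) ρ (b ^ 2) ?_ ?_ ?_ ?_
      (fun G => T1 n (b ^ 4 * n ^ 2) G ∧ T2 n (n ^ 2 / b ^ 4) G)
      (fun r hr G hG => T_typ n b ρ hb hn hρ h13 hL r hr G hG.1 hG.2)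
    · rw [Fintype.card_fin] at h1
      set X := Nat.card {G : SimpleGraph (Fin n) // ∃ r ∈ Finset.Icc 1 ρ,
        ∃ D : Finset (Sym2 (Fin n)), (D.card = r ∧ ∀ e ∈ D, ¬ e.IsDiag) ∧
        (T1 n (b ^ 4 * n ^ 2) G ∧ T2 n (n ^ 2 / b ^ 4) G) ∧
        SameUpTo (10000000 * (r * r)) G (sd G D)} with hX
      have h2 : b * (X * b) ≤ b * N := by
        calc b * (X * b) = X * (b * b) := by ring
          _ ≤ X * (n + 1) := Nat.mul_le_mul_left _ (by omega)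
          _ ≤ ρ * N := h1
          _ ≤ b * N := Nat.mul_le_mul_right _ hρb.le
      exact Nat.le_of_mul_le_mul_left h2 hb0
    · rw [Fintype.card_fin]
      refine hn.trans (Nat.pow_le_pow_left ?_ 16)
      nlinarith
    · rw [Fintype.card_fin]
      have : 4 ^ ρ ≤ 16 ^ ρ := Nat.pow_le_pow_left (by norm_num) ρ
      omega
    · rw [Fintype.card_fin]
      have : 4 * ρ ≤ b * b := Nat.mul_le_mul (by omega) hρb.le
      omega
    · rw [Fintype.card_fin]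
      omega
  rw [add_mul, add_mul]
  omega

end Pool.Agent.Lib_helper37.GC
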