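import Pool.Agent.Lib_helper37.GC.FinalB

/-!
# The uniform theorem
-/

set_option autoImplicit false

open Finset Filter Topology

namespace Pool.Agent.Lib_helper37.GC

/-- Every graph `G'` on the same vertices with the same polynomials as `G` for the connected graphs with at most
`C min(|E(G) △ E(G')|, log₂ n)²` vertices is isomorphic to `G`. -/
def NearDetermined (C : ℝ) {n : ℕ} (G : SimpleGraph (Fin n)) : Prop :=
  ∀ G' : SimpleGraph (Fin n),
    (∀ h : ℕ, (h : ℝ) ≤ C * (min ((symmDiff G.edgeSet G'.edgeSet).ncard : ℝ) (Real.logb 2 n)) ^ 2 →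
      ∀ H : SimpleGraph (Fin h), H.Connected → ∀ k : ℕ, genChrom G' H k = genChrom G H k) →
    Nonempty (G ≃g G')

theorem sd_symm {n : ℕ} (G G' : SimpleGraph (Fin n)) (D : Finset (Sym2 (Fin n)))
    (hD : ∀ e, e ∈ D ↔ e ∈ symmDiff G.edgeSet G'.edgeSet) : sd G D = G' := by
  ext u v
  by_cases huv : u = v
  · subst huv
    exact ⟨fun h => absurd rfl h.ne, fun h => absurd rfl h.ne⟩
  · have h1 : s(u, v) ∈ D ↔ (G.Adj u v ∧ ¬ G'.Adj u v) ∨ (G'.Adj u v ∧ ¬ G.Adj u v) := by
      rw [hD, Set.mem_symmDiff]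
      rfl
    by_cases hG : G.Adj u v
    · by_cases hG' : G'.Adj u v
      · have h2 : s(u, v) ∉ D := by
          rw [h1]; tauto
        rw [sd_of_notMem _ _ _ _ h2]
        exact ⟨fun _ => hG', fun _ => hG⟩
      · have h2 : s(u, v) ∈ D := by
          rw [h1]; tauto
        rw [sd_mem _ _ _ _ huv h2]
        exact ⟨fun h => absurd hG h, fun h => absurd h hG'⟩
    · by_cases hG' : G'.Adj u v
      · have h2 : s(u, v) ∈ D := by
          rw [h1]; tauto
        rw [sd_mem _ _ _ _ huv h2]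
        exact ⟨fun _ => hG', fun _ => hG⟩
      · have h2 : s(u, v) ∉ D := by
          rw [h1]; tauto
        rw [sd_of_notMem _ _ _ _ h2]
        exact ⟨fun h => absurd h hG, fun h => absurd h hG'⟩

theorem near_of {n ρ : ℕ} (A R : ℕ) (G : SimpleGraph (Fin n)) (hρ : ρ = Nat.log 2 n / 64)
    (hn : 1 ≤ n) (h1 : T1 n A G) (h2 : T2 n R G)
    (h3 : ¬ ∃ r ∈ Finset.Icc 1 ρ, ∃ D : Finset (Sym2 (Fin n)),
        (D.card = r ∧ ∀ e ∈ D, ¬ e.IsDiag) ∧ (T1 n A G ∧ T2 n R G) ∧
        SameUpTo (10000000 * (r * r)) G (sd G D))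
    (h4 : Determined ((2 + 1) * (Real.logb 2 n) ^ 2) G) : NearDetermined 10000000 G := by
  classical
  intro G' hG'
  set D : Finset (Sym2 (Fin n)) := univ.filter fun e => e ∈ symmDiff G.edgeSet G'.edgeSet with hD
  have hmem : ∀ e, e ∈ D ↔ e ∈ symmDiff G.edgeSet G'.edgeSet := by
    intro e; rw [hD, Finset.mem_filter]; simp
  have hsd := sd_symm G G' D hmem
  have hcard : (symmDiff G.edgeSet G'.edgeSet).ncard = D.card := by
    rw [← Set.ncard_coe_finset]
    congr 1
    ext e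
    rw [Finset.mem_coe, hmem]
  have hdiag : ∀ e ∈ D, ¬ e.IsDiag := by
    intro e he
    rw [hmem, Set.mem_symmDiff] at he
    rcases he with he | he
    · exact G.not_isDiag_of_mem_edgeSet he.1
    · exact G'.not_isDiag_of_mem_edgeSet he.1
  rw [hcard] at hG'
  set r := D.card with hr
  have hlog1 : (Nat.log 2 n : ℝ) ≤ Real.logb 2 n := Real.natLog_le_logb n 2
  have hlog0 : 0 ≤ Real.logb 2 n := le_trans (by positivity) hlog1
  rcases Nat.eq_zero_or_pos r with h0 | hpos
  · have hD0 : D = ∅ := Finset.card_eq_zero.1 h0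
    have hG0 : G = G' := by
      rw [← hsd, hD0]
      ext u v
      rw [sd_of_notMem _ _ _ _ (Finset.notMem_empty _)]
    rw [← hG0]
    exact ⟨RelIso.refl _⟩
  · rcases Nat.lt_or_ge ρ r with hlt | hle
    · -- far
      have hlog2 : Real.logb 2 n ≤ 64 * r := by
        have e1 : n < 2 ^ (Nat.log 2 n + 1) := Nat.lt_pow_succ_log_self (by norm_num) n
        have e2 : Nat.log 2 n + 1 ≤ 64 * r := by omega
        have e3 : (n : ℝ) ≤ 2 ^ (64 * r) := by
          have : n ≤ 2 ^ (64 * r) := e1.le.trans (Nat.pow_le_pow_right (by norm_num) e2)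
          exact_mod_cast this
        have e4 : Real.logb 2 n ≤ Real.logb 2 (2 ^ (64 * r)) := by
          apply Real.logb_le_logb_of_le (by norm_num) (by exact_mod_cast hn) e3
        rw [Real.logb_pow, Real.logb_self_eq_one (by norm_num), mul_one] at e4
        exact_mod_cast e4
      have hmin : Real.logb 2 n / 64 ≤ min (r : ℝ) (Real.logb 2 n) := by
        refine le_min ?_ ?_
        · linarith
        · linarith
      refine h4 (Fin n) G' fun h hh H hH k => hG' h (hh.trans ?_) H hH k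
      have e5 : (Real.logb 2 n / 64) ^ 2 ≤ (min (r : ℝ) (Real.logb 2 n)) ^ 2 :=
        pow_le_pow_left₀ (by positivity) hmin 2
      calc (2 + 1) * Real.logb 2 n ^ 2 ≤ 10000000 * (Real.logb 2 n / 64) ^ 2 := by
            have : 0 ≤ Real.logb 2 n ^ 2 := by positivity
            rw [div_pow]
            nlinarith
        _ ≤ _ := by gcongr
    · -- near
      exfalso
      refine h3 ⟨r, Finset.mem_Icc.2 ⟨hpos, hle⟩, D, ⟨rfl, hdiag⟩, ⟨h1, h2⟩, ?_⟩
      intro h hh H hH k
      rw [hsd]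
      refine (hG' h ?_ H hH k).symm
      have hrl : (r : ℝ) ≤ Real.logb 2 n := by
        have : r ≤ Nat.log 2 n := by omega
        exact le_trans (by exact_mod_cast this) hlog1
      rw [min_eq_left hrl, sq]
      exact_mod_cast hh

theorem Lb_small (s : ℕ) (hs : 60 ≤ s) : 8 * Lb s < 2 ^ s := by
  induction s, hs using Nat.le_induction with
  | base => unfold Lb; norm_num
  | succ s hs ih =>
    have : Lb (s + 1) ≤ 2 * Lb s := by
      unfold Lb
      nlinarith
    rw [pow_succ]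
    omega

theorem near_ineq (n : ℕ) (hs : 60 ≤ Nat.log 2 n / 16) :
    (Nat.card {G : SimpleGraph (Fin n) // Determined ((2 + 1) * (Real.logb 2 n) ^ 2) G} : ℝ) /
      Nat.card (SimpleGraph (Fin n)) - 4 / 2 ^ (Nat.log 2 n / 16) ≤
    (Nat.card {G : SimpleGraph (Fin n) // NearDetermined 10000000 G} : ℝ) /
      Nat.card (SimpleGraph (Fin n)) := by
  classical
  set ℓ := Nat.log 2 n with hℓ
  set s := ℓ / 16 with hs'
  set ρ := ℓ / 64 with hρ
  set b := 2 ^ s with hb
  have hn1 : 1 ≤ n := by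
    by_contra hcon
    have : n = 0 := by omega
    rw [this] at hℓ
    simp at hℓ
    omega
  have hbn : b ^ 16 ≤ n := by
    rw [hb, ← pow_mul]
    exact le_trans (Nat.pow_le_pow_right (by norm_num) (by omega)) (Nat.pow_log_le_self 2 (by omega))
  have hn2 : n + 1 ≤ (2 * b) ^ 16 := by
    rw [hb, ← pow_succ', ← pow_mul]
    have h1 : n < 2 ^ (ℓ + 1) := Nat.lt_pow_succ_log_self (by norm_num) n
    exact le_trans h1 (Nat.pow_le_pow_right (by norm_num) (by omega))
  have hρb : 16 ^ ρ ≤ b := by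
    rw [hb, show (16 : ℕ) = 2 ^ 4 by norm_num, ← pow_mul]
    exact Nat.pow_le_pow_right (by norm_num) (by omega)
  have h13 : 2 ^ 13 ≤ b := Nat.pow_le_pow_right (by norm_num) (by omega)
  have hL : 8 * Lb ρ < b := by
    have h1 := Lb_small s hs
    have h2 : Lb ρ ≤ Lb s := Lb_mono (by omega)
    omega
  have h0 := bad_total n b ρ hbn hn2 hρb h13 hL
  set A := b ^ 4 * n ^ 2 with hA
  set R := n ^ 2 / b ^ 4 with hR
  set X1 := Nat.card {G : SimpleGraph (Fin n) // ¬ T1 n A G} with hX1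
  set X2 := Nat.card {G : SimpleGraph (Fin n) // ¬ T2 n R G} with hX2
  set X3 := Nat.card {G : SimpleGraph (Fin n) // ∃ r ∈ Finset.Icc 1 ρ,
      ∃ D : Finset (Sym2 (Fin n)), (D.card = r ∧ ∀ e ∈ D, ¬ e.IsDiag) ∧
        (T1 n A G ∧ T2 n R G) ∧ SameUpTo (10000000 * (r * r)) G (sd G D)} with hX3
  have hcov : ∀ G : SimpleGraph (Fin n), Determined ((2 + 1) * (Real.logb 2 n) ^ 2) G →
      (NearDetermined 10000000 G ∨ ¬ T1 n A G) ∨ (¬ T2 n R G ∨ ∃ r ∈ Finset.Icc 1 ρ,
      ∃ D : Finset (Sym2 (Fin n)), (D.card = r ∧ ∀ e ∈ D, ¬ e.IsDiag) ∧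
        (T1 n A G ∧ T2 n R G) ∧ SameUpTo (10000000 * (r * r)) G (sd G D)) := by
    intro G hG
    by_contra hcon
    rw [not_or, not_or, not_or] at hcon
    exact hcon.1.1 (near_of A R G hρ hn1 (not_not.1 hcon.1.2) (not_not.1 hcon.2.1) hcon.2.2 hG)
  have k1 := card_mono _ _ hcov
  have k2 := card_or_le (Ω := SimpleGraph (Fin n))
    (fun G => NearDetermined 10000000 G ∨ ¬ T1 n A G) (fun G => ¬ T2 n R G ∨ ∃ r ∈ Finset.Icc 1 ρ,
      ∃ D : Finset (Sym2 (Fin n)), (D.card = r ∧ ∀ e ∈ D, ¬ e.IsDiag) ∧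
        (T1 n A G ∧ T2 n R G) ∧ SameUpTo (10000000 * (r * r)) G (sd G D))
  have k3 := card_or_le (Ω := SimpleGraph (Fin n))
    (fun G => NearDetermined 10000000 G) (fun G => ¬ T1 n A G)
  have k4 := card_or_le (Ω := SimpleGraph (Fin n))
    (fun G => ¬ T2 n R G) (fun G => ∃ r ∈ Finset.Icc 1 ρ,
      ∃ D : Finset (Sym2 (Fin n)), (D.card = r ∧ ∀ e ∈ D, ¬ e.IsDiag) ∧
        (T1 n A G ∧ T2 n R G) ∧ SameUpTo (10000000 * (r * r)) G (sd G D))
  rw [← hX1] at k3
  rw [← hX2, ← hX3] at k4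
  set N := Nat.card (SimpleGraph (Fin n)) with hN
  have hN0 : (0 : ℝ) < N := by
    rw [hN]
    exact_mod_cast Nat.card_pos
  have hb0 : (0 : ℝ) < (2 : ℝ) ^ s := by positivity
  set P := Nat.card {G : SimpleGraph (Fin n) // NearDetermined 10000000 G} with hP
  set Q := Nat.card {G : SimpleGraph (Fin n) // Determined ((2 + 1) * (Real.logb 2 n) ^ 2) G} with hQ
  have hQP : Q ≤ P + (X1 + X2 + X3) := by omega
  have hX : ((X1 + X2 + X3 : ℕ) : ℝ) * 2 ^ s ≤ 4 * N := by
    have : ((X1 + X2 + X3) * b : ℕ) ≤ 4 * N := h0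
    rw [hb] at this
    exact_mod_cast this
  have hQP' : (Q : ℝ) ≤ P + ((X1 + X2 + X3 : ℕ) : ℝ) := by exact_mod_cast hQP
  rw [sub_le_iff_le_add, div_le_iff₀ hN0, add_mul, div_mul_cancel₀ _ hN0.ne']
  have e1 : ((X1 + X2 + X3 : ℕ) : ℝ) ≤ 4 / 2 ^ s * N := by
    rw [div_mul_eq_mul_div, le_div_iff₀ hb0]
    exact hX
  linarith

theorem main_near :
    Tendsto (fun n : ℕ => (Nat.card {G : SimpleGraph (Fin n) // NearDetermined 10000000 G} : ℝ) /
      Nat.card (SimpleGraph (Fin n))) atTop (𝓝 1) := by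
  have h1 := main_as 1 one_pos
  have hlog : Tendsto (fun n : ℕ => Nat.log 2 n / 16) atTop atTop := by
    refine tendsto_atTop_atTop.2 fun b => ?_
    obtain ⟨N, hN⟩ := tendsto_atTop_atTop.1 log_tendsto (b * 16)
    exact ⟨N, fun n hn => (Nat.le_div_iff_mul_le (by norm_num)).2 (hN n hn)⟩
  have h2 : Tendsto (fun n : ℕ => (4 : ℝ) / 2 ^ (Nat.log 2 n / 16)) atTop (𝓝 0) := by
    have h3 : Tendsto (fun s : ℕ => (4 : ℝ) / 2 ^ s) atTop (𝓝 0) := by
      have := (tendsto_pow_atTop_nhds_zero_of_lt_one (r := (1 / 2 : ℝ)) (by norm_num)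
        (by norm_num)).const_mul 4
      rw [mul_zero] at this
      refine this.congr fun s => ?_
      rw [one_div, inv_pow]
      rfl
    exact h3.comp hlog
  have h4 := h1.sub h2
  rw [sub_zero] at h4
  refine tendsto_of_tendsto_of_tendsto_of_le_of_le' h4 tendsto_const_nhds ?_ ?_
  · filter_upwards [hlog.eventually (eventually_ge_atTop 60)] with n hn
    exact near_ineq n hn
  · refine Eventually.of_forall fun n => ?_
    have hN0 : (0 : ℝ) < Nat.card (SimpleGraph (Fin n)) := by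
      exact_mod_cast Nat.card_pos
    rw [div_le_one hN0]
    have : Nat.card {G : SimpleGraph (Fin n) // NearDetermined 10000000 G} ≤
      Nat.card (SimpleGraph (Fin n)) := Nat.card_le_card_of_injective _ Subtype.val_injective
    exact_mod_cast this

end Pool.Agent.Lib_helper37.GC
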