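import Pool.Agent.Lib_helper37.GC.Count

/-!
# Inclusion-exclusion
-/

set_option autoImplicit false

open Finset

namespace Pool.Agent.Lib_helper37.GC

variable {V V' A : Type}

/-- The number of configurations without bad pair in `J`. -/
noncomputable def TJ (G : SimpleGraph V) (k : ℕ) (R : (A → A → Prop) → Prop)
    (J : Finset (A × A)) : ℕ :=
  Nat.card {t : Col G k × (A → V) × (A → Fin k) // Val G R t ∧ ∀ e ∈ J, ¬ Bad G t e}

/-- The number of configurations such that all pairs in `I` are bad. -/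
noncomputable def MI (G : SimpleGraph V) (k : ℕ) (R : (A → A → Prop) → Prop)
    (I : Finset (A × A)) : ℕ :=
  Nat.card {t : Col G k × (A → V) × (A → Fin k) // Val G R t ∧ ∀ e ∈ I, Bad G t e}

/-- The indicator of a proposition. -/
noncomputable def ind (p : Prop) : ℤ := @ite _ p (Classical.propDecidable p) 1 0

theorem ind_pos {p : Prop} (h : p) : ind p = 1 := by simp [ind, h]

theorem ind_neg {p : Prop} (h : ¬ p) : ind p = 0 := by simp [ind, h]

theorem ind_and (p q : Prop) : ind (p ∧ q) = ind p * ind q := by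
  by_cases hp : p <;> by_cases hq : q <;> simp [ind, hp, hq]

theorem card_ind {T : Type} [Fintype T] (Q : T → Prop) :
    (Nat.card {t : T // Q t} : ℤ) = ∑ t, ind (Q t) := by
  classical
  rw [Nat.card_eq_fintype_card, Fintype.card_subtype, Finset.card_filter]
  push_cast
  refine Finset.sum_congr rfl fun t _ => ?_
  by_cases h : Q t <;> simp [ind, h]

theorem sum_powerset_ind {α : Type} (s : Finset α) (p : α → Prop) :
    ∑ J ∈ s.powerset, (-1 : ℤ) ^ J.card * ind (∀ e ∈ J, ¬ p e) = ind (∀ e ∈ s, p e) := by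
  classical
  induction s using Finset.induction_on with
  | empty => simp [ind]
  | insert a s ha ih =>
    rw [Finset.sum_powerset_insert ha]
    have h1 : ∀ J ∈ s.powerset, (-1 : ℤ) ^ (insert a J).card * ind (∀ e ∈ insert a J, ¬ p e) =
        - ind (¬ p a) * ((-1 : ℤ) ^ J.card * ind (∀ e ∈ J, ¬ p e)) := by
      intro J hJ
      have haJ : a ∉ J := fun h => ha (Finset.mem_powerset.1 hJ h)
      rw [Finset.card_insert_of_notMem haJ, pow_succ, Finset.forall_mem_insert, ind_and]
      ring
    rw [Finset.sum_congr rfl h1, ← Finset.mul_sum, ih, Finset.forall_mem_insert, ind_and]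
    by_cases hp : p a
    · rw [ind_pos hp, ind_neg (not_not.2 hp)]; ring
    · rw [ind_neg hp, ind_pos hp]; ring

theorem MI_eq [Finite V] [Finite A] (G : SimpleGraph V) (k : ℕ) (R : (A → A → Prop) → Prop)
    (I : Finset (A × A)) :
    (MI G k R I : ℤ) = ∑ J ∈ I.powerset, (-1 : ℤ) ^ J.card * (TJ G k R J : ℤ) := by
  have : Fintype (Col G k × (A → V) × (A → Fin k)) := Fintype.ofFinite _
  simp only [MI, TJ, card_ind, Finset.mul_sum]
  rw [Finset.sum_comm]
  refine Finset.sum_congr rfl fun t _ => ?_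
  rw [ind_and, ← sum_powerset_ind I (Bad G t), Finset.mul_sum]
  refine Finset.sum_congr rfl fun J _ => ?_
  rw [ind_and]
  ring

theorem TJ_same [Finite V] [Finite V'] [Finite A] (G : SimpleGraph V) (G' : SimpleGraph V')
    (m : ℕ) (h : SameUpTo m G G') (k : ℕ) (R : (A → A → Prop) → Prop) (J : Finset (A × A))
    (hm : Nat.card A + J.card + 1 ≤ m) (hR : ∀ r, R r → ∀ e ∈ J, ¬ r e.1 e.2) :
    TJ G k R J = TJ G' k R J := by
  rw [TJ, TJ, ← card_QJ G k R J hR, ← card_QJ G' k R J hR]
  refine pattern (colGraph G k) (colGraph G' k) m (by rw [card_Ix]; exact hm)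
    (fun q hq H hH => h q hq H hH k) (QJ R J) ?_ ?_
  · exact connected_QJ G k R J
  · exact connected_QJ G' k R J

theorem MI_same [Finite V] [Finite V'] [Finite A] (G : SimpleGraph V) (G' : SimpleGraph V')
    (m : ℕ) (h : SameUpTo m G G') (k : ℕ) (R : (A → A → Prop) → Prop) (I : Finset (A × A))
    (hm : Nat.card A + I.card + 1 ≤ m) (hR : ∀ r, R r → ∀ e ∈ I, ¬ r e.1 e.2) :
    MI G k R I = MI G' k R I := by
  have h1 : (MI G k R I : ℤ) = MI G' k R I := by
    rw [MI_eq, MI_eq]
    refine Finset.sum_congr rfl fun J hJ => ?_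
    rw [Finset.mem_powerset] at hJ
    rw [TJ_same G G' m h k R J (le_trans (by have := Finset.card_le_card hJ; omega) hm)
      fun r hr e he => hR r hr e (hJ he)]
  exact_mod_cast h1

end Pool.Agent.Lib_helper37.GC
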