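import Pool.Agent.Lib_helper37.GC.Defs

/-!
# Pattern counts in a graph are determined by the induced subgraph counts
-/

set_option autoImplicit false

namespace Pool.Agent.Lib_helper37.GC

section emb

variable {X Y : Type}

/-- The embeddings with given range are the isomorphisms onto the induced subgraph. -/
noncomputable def fiberEquiv (D : SimpleGraph X) (H : SimpleGraph Y) (S : Set X) :
    {φ : H ↪g D // Set.range φ = S} ≃ (H ≃g D.induce S) where
  toFun φ :=
    { toEquiv := Equiv.ofBijective (fun y => ⟨φ.1 y, (Set.ext_iff.1 φ.2 _).1 ⟨y, rfl⟩⟩)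
        ⟨fun a b h => φ.1.injective (congrArg Subtype.val h), fun s => by
          obtain ⟨s, hs⟩ := s
          obtain ⟨y, hy⟩ := (Set.ext_iff.1 φ.2 _).2 hs
          exact ⟨y, Subtype.ext hy⟩⟩
      map_rel_iff' := by
        intro a b
        exact φ.1.map_rel_iff }
  invFun e := ⟨⟨⟨fun y => (e y).1, fun a b h => e.injective (Subtype.ext h)⟩, by
      intro a b
      exact e.map_rel_iff⟩, by
      ext x
      constructor
      · rintro ⟨y, rfl⟩
        exact (e y).2
      · intro hx
        obtain ⟨y, hy⟩ := e.surjective ⟨x, hx⟩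
        exact ⟨y, congrArg Subtype.val hy⟩⟩
  left_inv φ := by
    ext y
    rfl
  right_inv e := by
    ext y
    rfl

theorem card_embedding [Finite X] [Finite Y] (D : SimpleGraph X) (H : SimpleGraph Y) :
    Nat.card (H ↪g D) = cnt D H * Nat.card (H ≃g H) := by
  classical
  have : Finite (H ↪g D) := Finite.of_injective (fun φ => (φ : Y → X)) DFunLike.coe_injective
  have : Fintype (Set X) := Fintype.ofFinite _
  have h1 : Nat.card (H ↪g D) = ∑ S : Set X, Nat.card {φ : H ↪g D // Set.range φ = S} := by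
    rw [← Nat.card_sigma]
    exact Nat.card_congr (Equiv.sigmaFiberEquiv (fun φ : H ↪g D => Set.range φ)).symm
  have h2 : ∀ S : Set X, Nat.card {φ : H ↪g D // Set.range φ = S} =
      if Nonempty (D.induce S ≃g H) then Nat.card (H ≃g H) else 0 := by
    intro S
    rw [Nat.card_congr (fiberEquiv D H S)]
    split_ifs with h
    · obtain ⟨e⟩ := h
      refine Nat.card_congr ⟨fun f => f.trans e, fun f => f.trans e.symm, ?_, ?_⟩
      · intro f
        ext y
        simp
      · intro f
        ext y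
        simp
    · rw [Nat.card_eq_zero]
      left
      exact ⟨fun f => h ⟨f.symm⟩⟩
  rw [h1, Finset.sum_congr rfl fun S _ => h2 S, Finset.sum_ite, Finset.sum_const_zero, add_zero,
    Finset.sum_const, smul_eq_mul]
  congr 1
  rw [cnt, Nat.card_eq_fintype_card, Fintype.card_subtype]

end emb

/-- The equalities and adjacencies of the values of `φ`. -/
def pat {Z Y : Type} (D : SimpleGraph Z) (φ : Y → Z) : (Y → Y → Prop) × (Y → Y → Prop) :=
  (fun a b => φ a = φ b, fun a b => D.Adj (φ a) (φ b))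

theorem pat_fst {X Z Y : Type} {C : SimpleGraph X} {D : SimpleGraph Z} {φ₀ : Y → X} {φ : Y → Z}
    (h : pat D φ = pat C φ₀) (a b : Y) : φ a = φ b ↔ φ₀ a = φ₀ b :=
  Iff.of_eq (congrFun (congrFun (congrArg Prod.fst h) a) b)

theorem pat_snd {X Z Y : Type} {C : SimpleGraph X} {D : SimpleGraph Z} {φ₀ : Y → X} {φ : Y → Z}
    (h : pat D φ = pat C φ₀) (a b : Y) : D.Adj (φ a) (φ b) ↔ C.Adj (φ₀ a) (φ₀ b) :=
  Iff.of_eq (congrFun (congrFun (congrArg Prod.snd h) a) b)

/-- The maps with the same pattern as `φ₀`. -/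
noncomputable def patEquiv {X Z Y : Type} (C : SimpleGraph X) (D : SimpleGraph Z) (φ₀ : Y → X) :
    {φ : Y → Z // pat D φ = pat C φ₀} ≃ (C.induce (Set.range φ₀) ↪g D) where
  toFun φ :=
    { toFun := fun s => φ.1 (Set.rangeSplitting φ₀ s)
      inj' := by
        intro s t h
        have h2 : φ₀ (Set.rangeSplitting φ₀ s) = φ₀ (Set.rangeSplitting φ₀ t) :=
          (pat_fst φ.2 _ _).1 h
        rw [Set.apply_rangeSplitting φ₀, Set.apply_rangeSplitting φ₀] at h2
        exact Subtype.ext h2
      map_rel_iff' := by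
        intro s t
        have h1 := pat_snd φ.2 (Set.rangeSplitting φ₀ s) (Set.rangeSplitting φ₀ t)
        rw [Set.apply_rangeSplitting φ₀, Set.apply_rangeSplitting φ₀] at h1
        exact h1 }
  invFun ψ := ⟨fun y => ψ ⟨φ₀ y, y, rfl⟩, by
    refine Prod.ext ?_ ?_
    · funext a b
      simp only [pat]
      apply propext
      constructor
      · intro h
        exact congrArg Subtype.val (ψ.injective h)
      · intro h
        congr 1
        exact Subtype.ext h
    · funext a b
      simp only [pat]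
      apply propext
      exact ψ.map_rel_iff⟩
  left_inv φ := by
    apply Subtype.ext
    funext y
    exact (pat_fst φ.2 _ _).2 (Set.apply_rangeSplitting φ₀ ⟨φ₀ y, y, rfl⟩)
  right_inv ψ := by
    ext s
    show ψ ⟨φ₀ (Set.rangeSplitting φ₀ s), _⟩ = ψ s
    congr 1
    exact Subtype.ext (Set.apply_rangeSplitting φ₀ s)

theorem cnt_congr {X Y Y' : Type} (D : SimpleGraph X) (H : SimpleGraph Y) (H' : SimpleGraph Y')
    (e : H ≃g H') : cnt D H = cnt D H' := by
  refine Nat.card_congr (Equiv.subtypeEquivRight fun S => ?_)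
  exact ⟨fun ⟨f⟩ => ⟨f.trans e⟩, fun ⟨f⟩ => ⟨f.trans e.symm⟩⟩

theorem pat_card_aux {X X' Y : Type} [Finite X] [Finite X'] [Finite Y] (C : SimpleGraph X)
    (C' : SimpleGraph X') (m : ℕ) (hY : Nat.card Y ≤ m)
    (h : ∀ q ≤ m, ∀ H : SimpleGraph (Fin q), H.Connected → cnt C H = cnt C' H)
    (φ₀ : Y → X) (hc : (C.induce (Set.range φ₀)).Connected) :
    Nat.card {φ : Y → X // pat C φ = pat C φ₀} = Nat.card {φ : Y → X' // pat C' φ = pat C φ₀} := by
  classical
  rw [Nat.card_congr (patEquiv C C φ₀), Nat.card_congr (patEquiv C C' φ₀)]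
  have : Finite (Set.range φ₀) := Set.toFinite _
  rw [card_embedding, card_embedding]
  congr 1
  obtain ⟨q, ⟨e⟩⟩ := Finite.exists_equiv_fin (Set.range φ₀)
  have hq : q ≤ m := by
    have h1 : Nat.card (Set.range φ₀) = q := by rw [Nat.card_congr e, Nat.card_fin]
    rw [← h1]
    refine le_trans ?_ hY
    exact Nat.card_le_card_of_surjective (Set.rangeFactorization φ₀)
      Set.rangeFactorization_surjective
  let H : SimpleGraph (Fin q) := (C.induce (Set.range φ₀)).map e.toEmbedding
  have e' : C.induce (Set.range φ₀) ≃g H := SimpleGraph.Iso.map e _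
  rw [cnt_congr C _ H e', cnt_congr C' _ H e']
  exact h q hq H ((e'.connected_iff).1 hc)

/-- The number of maps with a given pattern. -/
theorem pat_card {X X' Y : Type} [Finite X] [Finite X'] [Finite Y] (C : SimpleGraph X)
    (C' : SimpleGraph X') (m : ℕ) (hY : Nat.card Y ≤ m)
    (h : ∀ q ≤ m, ∀ H : SimpleGraph (Fin q), H.Connected → cnt C H = cnt C' H)
    (P : (Y → Y → Prop) × (Y → Y → Prop))
    (hc : ∀ φ : Y → X, pat C φ = P → (C.induce (Set.range φ)).Connected)
    (hc' : ∀ φ : Y → X', pat C' φ = P → (C'.induce (Set.range φ)).Connected) :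
    Nat.card {φ : Y → X // pat C φ = P} = Nat.card {φ : Y → X' // pat C' φ = P} := by
  by_cases h1 : ∃ φ : Y → X, pat C φ = P
  · obtain ⟨φ₀, rfl⟩ := h1
    exact pat_card_aux C C' m hY h φ₀ (hc φ₀ rfl)
  · by_cases h2 : ∃ φ : Y → X', pat C' φ = P
    · obtain ⟨φ₀, rfl⟩ := h2
      exact (pat_card_aux C' C m hY (fun q hq H hH => (h q hq H hH).symm) φ₀ (hc' φ₀ rfl)).symm
    · have : IsEmpty {φ : Y → X // pat C φ = P} := ⟨fun φ => h1 ⟨φ.1, φ.2⟩⟩
      have : IsEmpty {φ : Y → X' // pat C' φ = P} := ⟨fun φ => h2 ⟨φ.1, φ.2⟩⟩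
      simp

/-- The number of maps whose pattern satisfies a condition. -/
theorem pattern {X X' Y : Type} [Finite X] [Finite X'] [Finite Y] (C : SimpleGraph X)
    (C' : SimpleGraph X') (m : ℕ) (hY : Nat.card Y ≤ m)
    (h : ∀ q ≤ m, ∀ H : SimpleGraph (Fin q), H.Connected → cnt C H = cnt C' H)
    (Q : (Y → Y → Prop) × (Y → Y → Prop) → Prop)
    (hc : ∀ φ : Y → X, Q (pat C φ) → (C.induce (Set.range φ)).Connected)
    (hc' : ∀ φ : Y → X', Q (pat C' φ) → (C'.induce (Set.range φ)).Connected) :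
    Nat.card {φ : Y → X // Q (pat C φ)} = Nat.card {φ : Y → X' // Q (pat C' φ)} := by
  classical
  have : Fintype ((Y → Y → Prop) × (Y → Y → Prop)) := Fintype.ofFinite _
  have key : ∀ {Z : Type} [Finite Z] (D : SimpleGraph Z),
      Nat.card {φ : Y → Z // Q (pat D φ)} =
        ∑ P : (Y → Y → Prop) × (Y → Y → Prop), if Q P then Nat.card {φ : Y → Z // pat D φ = P}
          else 0 := by
    intro Z _ D
    have h1 : Nat.card {φ : Y → Z // Q (pat D φ)} =
        ∑ P, Nat.card {x : {φ : Y → Z // Q (pat D φ)} // pat D x.1 = P} := by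
      rw [← Nat.card_sigma]
      exact Nat.card_congr (Equiv.sigmaFiberEquiv _).symm
    rw [h1]
    refine Finset.sum_congr rfl fun P _ => ?_
    split_ifs with hP
    · refine Nat.card_congr ⟨fun x => ⟨x.1.1, x.2⟩, fun φ => ⟨⟨φ.1, ?_⟩, φ.2⟩, ?_, ?_⟩
      · rw [φ.2]; exact hP
      · intro x; rfl
      · intro x; rfl
    · rw [Nat.card_eq_zero]
      left
      exact ⟨fun x => hP (by rw [← x.2]; exact x.1.2)⟩
  rw [key C, key C']
  refine Finset.sum_congr rfl fun P _ => ?_
  split_ifs with hP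
  · exact pat_card C C' m hY h P (fun φ hφ => hc φ (by rw [hφ]; exact hP))
      (fun φ hφ => hc' φ (by rw [hφ]; exact hP))
  · rfl

end Pool.Agent.Lib_helper37.GC
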