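import Pool.Agent.Lib_helper37.GC.Typical

/-!
# Most graphs are typical
-/

set_option autoImplicit false

open Finset

namespace Pool.Agent.Lib_helper37.GC

variable {V : Type}

theorem sd_sd (G : SimpleGraph V) (D : Finset (Sym2 V)) : sd (sd G D) D = G := by
  ext u v
  by_cases hD : s(u, v) ∈ D
  · constructor
    · rintro ⟨h1, h2 | h2⟩
      · by_contra h3
        exact h2.2 ⟨h1, Or.inl ⟨hD, h3⟩⟩
      · exact absurd hD h2.1
    · intro h1
      refine ⟨h1.ne, Or.inl ⟨hD, ?_⟩⟩
      rintro ⟨_, h2 | h2⟩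
      · exact h2.2 h1
      · exact h2.1 hD
  · rw [sd_of_notMem _ _ _ _ hD, sd_of_notMem _ _ _ _ hD]

theorem sd_mem (G : SimpleGraph V) (D : Finset (Sym2 V)) (x y : V) (hxy : x ≠ y)
    (h : s(x, y) ∈ D) : (sd G D).Adj x y ↔ ¬ G.Adj x y := by
  constructor
  · rintro ⟨_, h1 | h1⟩
    · exact h1.2
    · exact absurd h h1.1
  · intro h1
    exact ⟨hxy, Or.inl ⟨h, h1⟩⟩

/-- Flipping pairs, as an equivalence. -/
def sdEquiv (D : Finset (Sym2 V)) : SimpleGraph V ≃ SimpleGraph V where
  toFun G := sd G D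
  invFun G := sd G D
  left_inv G := sd_sd G D
  right_inv G := sd_sd G D

theorem ind_not (p : Prop) : ind (¬ p) = 1 - ind p := by
  by_cases h : p
  · rw [ind_pos h, ind_neg (not_not.2 h)]; norm_num
  · rw [ind_neg h, ind_pos h]; norm_num

variable [Fintype V]

theorem eps_orth (w v v' : V) (hv : v ≠ w) (hv' : v' ≠ w) (hne : v ≠ v')
    [Fintype (SimpleGraph V)] :
    ∑ G : SimpleGraph V, (2 * ind (G.Adj w v) - 1) * (2 * ind (G.Adj w v') - 1) = 0 := by
  classical
  have h1 := (sdEquiv ({s(w, v)} : Finset (Sym2 V))).sum_comp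
    (fun G : SimpleGraph V => (2 * ind (G.Adj w v) - 1) * (2 * ind (G.Adj w v') - 1))
  have h2 : ∀ G : SimpleGraph V, (2 * ind ((sdEquiv ({s(w, v)} : Finset (Sym2 V)) G).Adj w v) - 1) *
      (2 * ind ((sdEquiv ({s(w, v)} : Finset (Sym2 V)) G).Adj w v') - 1) =
      - ((2 * ind (G.Adj w v) - 1) * (2 * ind (G.Adj w v') - 1)) := by
    intro G
    have e1 : ind ((sd G {s(w, v)}).Adj w v) = 1 - ind (G.Adj w v) := by
      rw [ind_congr (sd_mem G {s(w, v)} w v hv.symm (Finset.mem_singleton_self _)), ind_not]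
    have e2 : ind ((sd G {s(w, v)}).Adj w v') = ind (G.Adj w v') := by
      refine ind_congr (sd_of_notMem G _ w v' ?_)
      rw [Finset.mem_singleton, Sym2.eq_iff]
      rintro (⟨_, h⟩ | ⟨h, _⟩)
      · exact hne h.symm
      · exact hv h.symm
    show (2 * ind ((sd G {s(w, v)}).Adj w v) - 1) * (2 * ind ((sd G {s(w, v)}).Adj w v') - 1) = _
    rw [e1, e2]
    ring
  rw [Finset.sum_congr rfl fun G _ => h2 G, Finset.sum_neg_distrib] at h1
  linarith

theorem second_moment [Fintype (SimpleGraph V)] :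
    ∑ G : SimpleGraph V, ∑ w, (2 * dg G w - ((Fintype.card V : ℤ) - 1)) ^ 2 =
      (Fintype.card (SimpleGraph V) : ℤ) * ((Fintype.card V : ℤ) * ((Fintype.card V : ℤ) - 1)) := by
  classical
  rw [Finset.sum_comm]
  have h1 : ∀ w : V, ∑ G : SimpleGraph V, (2 * dg G w - ((Fintype.card V : ℤ) - 1)) ^ 2 =
      (Fintype.card (SimpleGraph V) : ℤ) * ((Fintype.card V : ℤ) - 1) := by
    intro w
    have hcard : ((univ.erase w).card : ℤ) = Fintype.card V - 1 := by
      rw [Finset.card_erase_of_mem (Finset.mem_univ w), Finset.card_univ,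
        Nat.cast_sub (Fintype.card_pos_iff.2 ⟨w⟩)]
      norm_num
    have h2 : ∀ G : SimpleGraph V, 2 * dg G w - ((Fintype.card V : ℤ) - 1) =
        ∑ v ∈ univ.erase w, (2 * ind (G.Adj w v) - 1) := by
      intro G
      rw [Finset.sum_sub_distrib, ← Finset.mul_sum, Finset.sum_const, nsmul_eq_mul, mul_one, hcard,
        dg, ← Finset.add_sum_erase univ _ (Finset.mem_univ w), ind_neg G.irrefl, zero_add]
    simp only [h2, sq, Finset.sum_mul_sum]
    rw [Finset.sum_comm]
    have h3 : ∀ v ∈ univ.erase w, ∑ G : SimpleGraph V, ∑ v' ∈ univ.erase w,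
        (2 * ind (G.Adj w v) - 1) * (2 * ind (G.Adj w v') - 1) = Fintype.card (SimpleGraph V) := by
      intro v hv
      rw [Finset.sum_comm, Finset.sum_eq_single v]
      · have : ∀ G : SimpleGraph V, (2 * ind (G.Adj w v) - 1) * (2 * ind (G.Adj w v) - 1) = 1 := by
          intro G
          by_cases h : G.Adj w v
          · rw [ind_pos h]; norm_num
          · rw [ind_neg h]; norm_num
        rw [Finset.sum_congr rfl fun G _ => this G, Finset.sum_const, nsmul_eq_mul, mul_one,
          Finset.card_univ]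
      · intro v' hv' hne
        exact eps_orth w v v' (Finset.mem_erase.1 hv).1 (Finset.mem_erase.1 hv').1 hne.symm
      · intro h
        exact absurd hv h
    rw [Finset.sum_congr rfl h3, Finset.sum_const, nsmul_eq_mul, hcard]
    ring
  rw [Finset.sum_congr rfl fun w _ => h1 w, Finset.sum_const, nsmul_eq_mul, Finset.card_univ]
  ring

theorem markov {Ω : Type} [Fintype Ω] (X : Ω → ℤ) (hX : ∀ G, 0 ≤ X G) (A : ℕ) :
    (Nat.card {G : Ω // (A : ℤ) < X G} : ℤ) * A ≤ ∑ G, X G := by
  classical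
  rw [Nat.card_eq_fintype_card, Fintype.card_subtype]
  calc ((univ.filter fun G => (A : ℤ) < X G).card : ℤ) * A =
      ∑ _G ∈ univ.filter (fun G => (A : ℤ) < X G), (A : ℤ) := by
        rw [Finset.sum_const, nsmul_eq_mul]
    _ ≤ ∑ G ∈ univ.filter (fun G => (A : ℤ) < X G), X G :=
        Finset.sum_le_sum fun G hG => (Finset.mem_filter.1 hG).2.le
    _ ≤ ∑ G, X G := Finset.sum_le_sum_of_subset_of_nonneg (Finset.subset_univ _)
        (fun G _ _ => hX G)

/-- Two degrees are rarely close. -/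
theorem pair_close (w w' : V) (hne : w ≠ w') (K : ℕ) (hK : 9 * K ^ 2 + 1 ≤ Fintype.card V) :
    Nat.card {G : SimpleGraph V // |dg G w - dg G w'| ≤ 1} * K ≤ Nat.card (SimpleGraph V) := by
  classical
  set W : Finset V := (univ.erase w).erase w' with hW
  have hwW : w ∉ W := by simp [hW]
  have hw'W : w' ∉ W := by simp [hW]
  have hWc : W.card + 2 = Fintype.card V := by
    have h1 : w' ∈ (univ.erase w : Finset V) := by simp [hne.symm]
    have h2 := Finset.card_erase_add_one h1
    have h3 := Finset.card_erase_add_one (Finset.mem_univ w)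
    rw [Finset.card_univ] at h3
    rw [hW]
    omega
  refine cond_count w (fun _ => W) (fun _ => hwW) (fun _ _ => rfl) _ K ?_
  intro G
  set t : ℤ := dg (tog G w W ∅) w' - dg (tog G w W ∅) w with ht
  have h1 : Nat.card {S : Finset V // S ⊆ W ∧ |dg (tog G w W S) w - dg (tog G w W S) w'| ≤ 1} ≤
      ((Finset.Icc (t - 1) (t + 1)).biUnion fun k => Finset.powersetCard k.toNat W).card := by
    rw [Nat.card_eq_fintype_card, Fintype.card_subtype]
    refine Finset.card_le_card ?_
    intro S hS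
    rw [Finset.mem_filter] at hS
    obtain ⟨_, hSW, h2⟩ := hS
    rw [dg_tog hwW hSW, dg_tog hwW hSW, ind_pos (p := w = w) rfl, ind_neg hne.symm,
      ind_neg (fun h : w ∈ S => hwW (hSW h)), ind_neg (fun h : w' ∈ S => hw'W (hSW h)), abs_le] at h2
    rw [Finset.mem_biUnion]
    refine ⟨(S.card : ℤ), ?_, ?_⟩
    · rw [Finset.mem_Icc]
      constructor <;> linarith
    · rw [Finset.mem_powersetCard]
      exact ⟨hSW, by simp⟩
  have h2 : ∀ k : ℤ, 3 * ((Finset.powersetCard k.toNat W).card * K) ≤ 2 ^ W.card := by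
    intro k
    rw [Finset.card_powersetCard]
    have h3 := choose_sq W.card k.toNat
    have h4 : (3 * (W.card.choose k.toNat * K)) ^ 2 ≤ (2 ^ W.card) ^ 2 := by
      calc (3 * (W.card.choose k.toNat * K)) ^ 2 = (9 * K ^ 2) * (W.card.choose k.toNat) ^ 2 := by
            ring
        _ ≤ (W.card + 1) * (W.card.choose k.toNat) ^ 2 := Nat.mul_le_mul_right _ (by omega)
        _ ≤ 4 ^ W.card := h3
        _ = (2 ^ W.card) ^ 2 := by rw [← pow_mul, mul_comm, pow_mul]; norm_num
    exact (Nat.pow_le_pow_iff_left (by norm_num)).1 h4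
  have h3 : 3 * (((Finset.Icc (t - 1) (t + 1)).biUnion fun k =>
      Finset.powersetCard k.toNat W).card * K) ≤ 3 * 2 ^ W.card := by
    calc 3 * (((Finset.Icc (t - 1) (t + 1)).biUnion fun k =>
        Finset.powersetCard k.toNat W).card * K) ≤
        3 * ((∑ k ∈ Finset.Icc (t - 1) (t + 1), (Finset.powersetCard k.toNat W).card) * K) := by
          gcongr
          exact Finset.card_biUnion_le
      _ = ∑ k ∈ Finset.Icc (t - 1) (t + 1), 3 * ((Finset.powersetCard k.toNat W).card * K) := by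
          rw [Finset.sum_mul, Finset.mul_sum]
      _ ≤ ∑ _k ∈ Finset.Icc (t - 1) (t + 1), 2 ^ W.card := Finset.sum_le_sum fun k _ => h2 k
      _ = (Finset.Icc (t - 1) (t + 1)).card * 2 ^ W.card := by rw [Finset.sum_const, smul_eq_mul]
      _ = 3 * 2 ^ W.card := by
          congr 1
          rw [Int.card_Icc]
          omega
  calc Nat.card {S : Finset V // S ⊆ W ∧ |dg (tog G w W S) w - dg (tog G w W S) w'| ≤ 1} * K ≤
      ((Finset.Icc (t - 1) (t + 1)).biUnion fun k => Finset.powersetCard k.toNat W).card * K :=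
        Nat.mul_le_mul_right _ h1
    _ ≤ 2 ^ W.card := by omega

theorem many_pairs (R K : ℕ) (hK : 9 * K ^ 2 + 1 ≤ Fintype.card V) :
    Nat.card {G : SimpleGraph V //
      R < Nat.card {p : V × V // p.1 ≠ p.2 ∧ |dg G p.1 - dg G p.2| ≤ 1}} * (R * K) ≤
      Fintype.card V ^ 2 * Nat.card (SimpleGraph V) := by
  classical
  have h1 := markov (Ω := SimpleGraph V) (fun G =>
    (Nat.card {p : V × V // p.1 ≠ p.2 ∧ |dg G p.1 - dg G p.2| ≤ 1} : ℤ)) (fun _ => by positivity) R
  simp only [Nat.cast_lt] at h1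
  have h2 : ∑ G : SimpleGraph V,
      (Nat.card {p : V × V // p.1 ≠ p.2 ∧ |dg G p.1 - dg G p.2| ≤ 1} : ℤ) =
      ∑ p : V × V, (Nat.card {G : SimpleGraph V // p.1 ≠ p.2 ∧ |dg G p.1 - dg G p.2| ≤ 1} : ℤ) := by
    simp only [card_ind]
    rw [Finset.sum_comm]
  have h3 : (∑ p : V × V,
      (Nat.card {G : SimpleGraph V // p.1 ≠ p.2 ∧ |dg G p.1 - dg G p.2| ≤ 1} : ℤ)) * K ≤
      (Fintype.card V ^ 2 * Nat.card (SimpleGraph V) : ℕ) := by
    rw [Finset.sum_mul]
    calc ∑ p : V × V, (Nat.card {G : SimpleGraph V //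
          p.1 ≠ p.2 ∧ |dg G p.1 - dg G p.2| ≤ 1} : ℤ) * K ≤
        ∑ _p : V × V, (Nat.card (SimpleGraph V) : ℤ) := by
          refine Finset.sum_le_sum fun p _ => ?_
          by_cases hp : p.1 = p.2
          · have : IsEmpty {G : SimpleGraph V // p.1 ≠ p.2 ∧ |dg G p.1 - dg G p.2| ≤ 1} :=
              ⟨fun G => G.2.1 hp⟩
            rw [Nat.card_of_isEmpty]
            simp
          · have h4 := pair_close p.1 p.2 hp K hK
            have h5 : Nat.card {G : SimpleGraph V // p.1 ≠ p.2 ∧ |dg G p.1 - dg G p.2| ≤ 1} =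
                Nat.card {G : SimpleGraph V // |dg G p.1 - dg G p.2| ≤ 1} :=
              Nat.card_congr (Equiv.subtypeEquivRight fun G => ⟨fun h => h.2, fun h => ⟨hp, h⟩⟩)
            rw [h5]
            exact_mod_cast h4
      _ = (Fintype.card V ^ 2 * Nat.card (SimpleGraph V) : ℕ) := by
          rw [Finset.sum_const, nsmul_eq_mul, Finset.card_univ, Fintype.card_prod]
          push_cast
          ring
  rw [← h2] at h3
  have h6 : ((Nat.card {G : SimpleGraph V //
      R < Nat.card {p : V × V // p.1 ≠ p.2 ∧ |dg G p.1 - dg G p.2| ≤ 1}} * (R * K) : ℕ) : ℤ) ≤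
      (Fintype.card V ^ 2 * Nat.card (SimpleGraph V) : ℕ) := by
    refine le_trans ?_ h3
    push_cast
    calc _ = (Nat.card {G : SimpleGraph V //
        R < Nat.card {p : V × V // p.1 ≠ p.2 ∧ |dg G p.1 - dg G p.2| ≤ 1}} : ℤ) * R * K := by ring
      _ ≤ _ := by
        refine mul_le_mul_of_nonneg_right h1 (by positivity)
  exact_mod_cast h6

theorem far_degrees (A : ℕ) :
    Nat.card {G : SimpleGraph V //
      (A : ℤ) < ∑ w, (2 * dg G w - (Fintype.card V - 1)) ^ 2} * A ≤
      Fintype.card V ^ 2 * Nat.card (SimpleGraph V) := by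
  classical
  have h1 := markov (Ω := SimpleGraph V) (fun G =>
    ∑ w, (2 * dg G w - (Fintype.card V - 1)) ^ 2) (fun G => by positivity) A
  rw [second_moment] at h1
  have h2 : (Fintype.card (SimpleGraph V) : ℤ) * (Fintype.card V * (Fintype.card V - 1)) ≤
      ((Fintype.card V ^ 2 * Nat.card (SimpleGraph V) : ℕ) : ℤ) := by
    rw [Nat.card_eq_fintype_card]
    push_cast
    have h3 : (0 : ℤ) ≤ Fintype.card (SimpleGraph V) := by positivity
    have h4 : (0 : ℤ) ≤ Fintype.card V := by positivity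
    nlinarith [mul_nonneg h3 h4]
  exact_mod_cast h1.trans h2

end Pool.Agent.Lib_helper37.GC
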