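import Pool.Agent.Lib_helper37.GC.Recon

/-!
# Counting graphs: events in which some edges are determined by the others
-/

set_option autoImplicit false

open Finset

namespace Pool.Agent.Lib_helper37.GC

variable {n : ℕ}

/-- Replace the edges in `L` by those in `T`. -/
def repl (G : SimpleGraph (Fin n)) (L T : Finset (Sym2 (Fin n))) : SimpleGraph (Fin n) where
  Adj u v := u ≠ v ∧ ((s(u, v) ∈ L ∧ s(u, v) ∈ T) ∨ (s(u, v) ∉ L ∧ G.Adj u v))
  symm := ⟨fun u v h => by
    rw [Sym2.eq_swap (a := v) (b := u)]
    exact ⟨h.1.symm, h.2.imp id fun h => ⟨h.1, h.2.symm⟩⟩⟩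
  loopless := ⟨fun u h => h.1 rfl⟩

theorem count_det (L : Finset (Sym2 (Fin n))) (hL : ∀ e ∈ L, ¬ e.IsDiag)
    (E : SimpleGraph (Fin n) → Prop)
    (hE : ∀ G G', E G → E G' → (∀ u v, s(u, v) ∉ L → (G.Adj u v ↔ G'.Adj u v)) → G = G') :
    Nat.card {G // E G} * 2 ^ L.card ≤ Nat.card (SimpleGraph (Fin n)) := by
  classical
  have h1 : Nat.card {G // E G} * 2 ^ L.card = Nat.card ({G // E G} × L.powerset) := by
    rw [Nat.card_prod]
    congr 1
    rw [Nat.card_eq_fintype_card, Fintype.card_coe, Finset.card_powerset]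
  rw [h1]
  refine Nat.card_le_card_of_injective (fun q => repl q.1.1 L q.2.1) ?_
  rintro ⟨⟨G, hG⟩, ⟨T, hT⟩⟩ ⟨⟨G', hG'⟩, ⟨T', hT'⟩⟩ h
  rw [Finset.mem_powerset] at hT hT'
  have h2 : ∀ u v, (repl G L T).Adj u v ↔ (repl G' L T').Adj u v := fun u v => by
    have : repl G L T = repl G' L T' := h
    rw [this]
  have h3 : T = T' := by
    ext e
    induction e using Sym2.ind with
    | _ u v =>
      by_cases he : s(u, v) ∈ L
      · have huv : u ≠ v := fun h => hL _ he (by rw [h]; exact Sym2.diag_isDiag v)
        have h4 := h2 u v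
        simp only [repl, he, not_true_eq_false, false_and, or_false, true_and] at h4
        constructor
        · intro h5
          exact (h4.1 ⟨huv, h5⟩).2
        · intro h5
          exact (h4.2 ⟨huv, h5⟩).2
      · exact ⟨fun h5 => absurd (hT h5) he, fun h5 => absurd (hT' h5) he⟩
  subst h3
  have h4 : G = G' := by
    refine hE G G' hG hG' fun u v huv => ?_
    have h5 := h2 u v
    simp only [repl, huv, not_false_eq_true, false_and, true_and, false_or] at h5
    by_cases huv' : u = v
    · subst huv'
      exact ⟨fun h => absurd rfl h.ne, fun h => absurd rfl h.ne⟩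
    · simpa [huv'] using h5
  subst h4
  rfl

/-- An independent set of moved indices. -/
theorem exists_indep {A B : Type} [Fintype A] [DecidableEq A] (w S : A → B)
    (hw : Function.Injective w) (hS : Function.Injective S) (X : Finset A)
    (hX : ∀ i ∈ X, w i ≠ S i) :
    ∃ M ⊆ X, (∀ i ∈ M, ∀ j ∈ M, w i ≠ S j) ∧ X.card ≤ 3 * M.card := by
  classical
  obtain ⟨M, hM, hmax⟩ := Finset.exists_max_image
    (X.powerset.filter fun M => ∀ i ∈ M, ∀ j ∈ M, w i ≠ S j) Finset.card
    ⟨∅, by simp⟩
  rw [Finset.mem_filter, Finset.mem_powerset] at hM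
  refine ⟨M, hM.1, hM.2, ?_⟩
  have h1 : X ⊆ M ∪ ((univ.filter fun i => ∃ j ∈ M, w i = S j) ∪
      (univ.filter fun i => ∃ j ∈ M, w j = S i)) := by
    intro i hi
    by_cases hiM : i ∈ M
    · exact Finset.mem_union_left _ hiM
    · apply Finset.mem_union_right
      by_contra hcon
      rw [Finset.mem_union, not_or] at hcon
      simp only [Finset.mem_filter, Finset.mem_univ, true_and, not_exists, not_and] at hcon
      have h2 := hmax (insert i M) (by
        rw [Finset.mem_filter, Finset.mem_powerset]
        refine ⟨Finset.insert_subset hi hM.1, ?_⟩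
        intro a ha b hb
        rcases Finset.mem_insert.1 ha with ha1 | ha1
        · rcases Finset.mem_insert.1 hb with hb1 | hb1
          · rw [ha1, hb1]; exact hX _ hi
          · rw [ha1]; exact hcon.1 b hb1
        · rcases Finset.mem_insert.1 hb with hb1 | hb1
          · rw [hb1]; exact hcon.2 a ha1
          · exact hM.2 a ha1 b hb1)
      rw [Finset.card_insert_of_notMem hiM] at h2
      omega
  have h2 : (univ.filter fun i => ∃ j ∈ M, w i = S j).card ≤ M.card := by
    have : ∀ i ∈ univ.filter fun i => ∃ j ∈ M, w i = S j, ∃ j ∈ M, w i = S j := by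
      intro i hi
      simpa using hi
    choose! f hf hf' using this
    refine Finset.card_le_card_of_injOn f (fun i hi => hf i hi) ?_
    intro a ha b hb hab
    apply hw
    rw [hf' a ha, hf' b hb, hab]
  have h3 : (univ.filter fun i => ∃ j ∈ M, w j = S i).card ≤ M.card := by
    have : ∀ i ∈ univ.filter fun i => ∃ j ∈ M, w j = S i, ∃ j ∈ M, w j = S i := by
      intro i hi
      simpa using hi
    choose! f hf hf' using this
    refine Finset.card_le_card_of_injOn f (fun i hi => hf i hi) ?_
    intro a ha b hb hab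
    apply hS
    rw [← hf' a ha, ← hf' b hb, hab]
  have h4 := Finset.card_le_card h1
  have h5 := Finset.card_union_le M ((univ.filter fun i => ∃ j ∈ M, w i = S j) ∪
      (univ.filter fun i => ∃ j ∈ M, w j = S i))
  have h6 := Finset.card_union_le (univ.filter fun i => ∃ j ∈ M, w i = S j)
      (univ.filter fun i => ∃ j ∈ M, w j = S i)
  omega

/-- The number of graphs in which the labelled set `w` has the same pattern as `S`. -/
theorem count_pat (p : ℕ) (S w : Fin (8 * p) → Fin n) (hS : Function.Injective S) :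
    Nat.card {G : SimpleGraph (Fin n) // pat G w = pat G S} *
      2 ^ (p * (univ.filter fun i => w i ≠ S i).card) ≤ Nat.card (SimpleGraph (Fin n)) := by
  classical
  by_cases hw : Function.Injective w
  swap
  · have : IsEmpty {G : SimpleGraph (Fin n) // pat G w = pat G S} := by
      refine ⟨fun G => hw fun a b hab => hS ((pat_fst G.2 a b).1 hab)⟩
    simp
  obtain ⟨M, hMX, hM, hcard⟩ := exists_indep w S hw hS (univ.filter fun i => w i ≠ S i)
    (fun i hi => (Finset.mem_filter.1 hi).2)
  -- a smaller set
  obtain ⟨M', hM', hc'⟩ : ∃ M' ⊆ M, M'.card = min M.card (2 * p) :=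
    Finset.exists_subset_card_eq (Nat.min_le_left _ _)
  have hXm : (univ.filter fun i => w i ≠ S i).card ≤ 8 * p := by
    refine le_trans (Finset.card_le_univ _) ?_
    simp
  set T : Finset (Fin (8 * p)) := univ.filter fun t => t ∉ M' ∧ ∀ i ∈ M', S t ≠ w i with hT
  have hTc : 8 * p ≤ T.card + 2 * M'.card := by
    have h1 : (univ : Finset (Fin (8 * p))) ⊆ T ∪ (M' ∪ univ.filter fun t => ∃ i ∈ M', S t = w i) := by
      intro t _
      by_cases ht : t ∈ T
      · exact Finset.mem_union_left _ ht
      · apply Finset.mem_union_right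
        rw [hT, Finset.mem_filter, not_and_or] at ht
        rcases ht with ht | ht
        · exact absurd (Finset.mem_univ _) ht
        · rw [not_and_or] at ht
          rcases ht with ht | ht
          · exact Finset.mem_union_left _ (not_not.1 ht)
          · push Not at ht
            exact Finset.mem_union_right _ (by simpa using ht)
    have h2 : (univ.filter fun t => ∃ i ∈ M', S t = w i).card ≤ M'.card := by
      have : ∀ t ∈ univ.filter fun t => ∃ i ∈ M', S t = w i, ∃ i ∈ M', S t = w i := by
        intro t ht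
        simpa using ht
      choose! f hf hf' using this
      refine Finset.card_le_card_of_injOn f (fun i hi => hf i hi) ?_
      intro a ha b hb hab
      apply hS
      rw [hf' a ha, hf' b hb, hab]
    have h3 := Finset.card_le_card h1
    rw [Finset.card_univ, Fintype.card_fin] at h3
    have h4 := Finset.card_union_le T (M' ∪ univ.filter fun t => ∃ i ∈ M', S t = w i)
    have h5 := Finset.card_union_le M' (univ.filter fun t => ∃ i ∈ M', S t = w i)
    omega
  set L : Finset (Sym2 (Fin n)) := (M' ×ˢ T).image fun q => s(S q.1, S q.2) with hL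
  have hLc : L.card = M'.card * T.card := by
    rw [hL, Finset.card_image_of_injOn, Finset.card_product]
    rintro ⟨i, t⟩ h1 ⟨i', t'⟩ h2 h3
    simp only [Finset.coe_product, Set.mem_prod, Finset.mem_coe] at h1 h2
    simp only [Sym2.eq_iff] at h3
    rcases h3 with ⟨h3, h4⟩ | ⟨h3, h4⟩
    · rw [hS h3, hS h4]
    · exfalso
      have h5 := hS h3
      rw [hT, Finset.mem_filter] at h2
      apply h2.2.2.1
      rw [← h5]
      exact h1.1
  have hkey : p * (univ.filter fun i => w i ≠ S i).card ≤ L.card := by
    rw [hLc]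
    have h1 : (univ.filter fun i => w i ≠ S i).card ≤ 4 * M'.card := by
      rw [hc']
      rcases le_total M.card (2 * p) with h | h
      · rw [min_eq_left h]; omega
      · rw [min_eq_right h]; omega
    have h2 : 4 * p ≤ T.card := by
      have : M'.card ≤ 2 * p := by rw [hc']; exact Nat.min_le_right _ _
      omega
    calc p * (univ.filter fun i => w i ≠ S i).card ≤ p * (4 * M'.card) := by gcongr
      _ = M'.card * (4 * p) := by ring
      _ ≤ M'.card * T.card := by gcongr
  refine le_trans (Nat.mul_le_mul_left _ (Nat.pow_le_pow_right (by norm_num) hkey)) ?_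
  refine count_det L ?_ _ ?_
  · intro e he
    rw [hL, Finset.mem_image] at he
    obtain ⟨⟨i, t⟩, h1, rfl⟩ := he
    rw [Finset.mem_product] at h1
    rw [Sym2.mk_isDiag_iff]
    intro h2
    have h3 := hS h2
    simp only at h1 h3
    rw [hT, Finset.mem_filter] at h1
    apply h1.2.2.1
    rw [← h3]
    exact h1.1
  · intro G G' hG hG' hout
    have hkey2 : ∀ i ∈ M', ∀ t ∈ T, (G.Adj (S i) (S t) ↔ G'.Adj (S i) (S t)) := by
      intro i hi t ht
      rw [← pat_snd hG i t, ← pat_snd hG' i t]
      apply hout
      rw [hL, Finset.mem_image]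
      rintro ⟨⟨i', t'⟩, h1, h2⟩
      rw [Finset.mem_product] at h1
      simp only at h1
      rw [Sym2.eq_iff] at h2
      rcases h2 with ⟨h3, h4⟩ | ⟨h3, h4⟩
      · exact hM i (hM' hi) i' (hM' h1.1) h3.symm
      · rw [hT, Finset.mem_filter] at h1
        exact h1.2.2.2 i hi h4
    ext u v
    by_cases huv : s(u, v) ∈ L
    · rw [hL, Finset.mem_image] at huv
      obtain ⟨⟨i, t⟩, h1, h2⟩ := huv
      rw [Finset.mem_product] at h1
      rw [Sym2.eq_iff] at h2
      rcases h2 with ⟨h3, h4⟩ | ⟨h3, h4⟩
      · simp only at h3 h4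
        rw [← h3, ← h4]
        exact hkey2 i h1.1 t h1.2
      · simp only at h3 h4
        rw [← h3, ← h4, G.adj_comm, G'.adj_comm]
        exact hkey2 i h1.1 t h1.2
    · exact hout u v huv

/-- The number of graphs in which two vertices outside `S` are not separated by `S`. -/
theorem count_sep (m : ℕ) (S : Fin m → Fin n) (hS : Function.Injective S) (u v : Fin n)
    (huv : u ≠ v) (hu : ∀ i, S i ≠ u) (hv : ∀ i, S i ≠ v) :
    Nat.card {G : SimpleGraph (Fin n) // ∀ i, G.Adj (S i) u ↔ G.Adj (S i) v} * 2 ^ m ≤
      Nat.card (SimpleGraph (Fin n)) := by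
  classical
  set L : Finset (Sym2 (Fin n)) := (univ : Finset (Fin m)).image fun i => s(S i, u) with hL
  have hLc : L.card = m := by
    rw [hL, Finset.card_image_of_injective, Finset.card_univ, Fintype.card_fin]
    intro i j h
    simp only [Sym2.eq_iff] at h
    rcases h with ⟨h, _⟩ | ⟨h, _⟩
    · exact hS h
    · exact absurd h (hu i)
  have h0 := count_det L ?_ (fun G => ∀ i, G.Adj (S i) u ↔ G.Adj (S i) v) ?_
  · rw [hLc] at h0; exact h0
  · intro e he
    rw [hL, Finset.mem_image] at he
    obtain ⟨i, _, rfl⟩ := he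
    rw [Sym2.mk_isDiag_iff]
    exact hu i
  · intro G G' hG hG' hout
    have hkey : ∀ i, (G.Adj (S i) u ↔ G'.Adj (S i) u) := by
      intro i
      rw [hG i, hG' i]
      apply hout
      rw [hL, Finset.mem_image]
      rintro ⟨j, _, h⟩
      rw [Sym2.eq_iff] at h
      rcases h with ⟨_, h⟩ | ⟨h, _⟩
      · exact huv h
      · exact hv j h
    ext a b
    by_cases hab : s(a, b) ∈ L
    · rw [hL, Finset.mem_image] at hab
      obtain ⟨i, _, h⟩ := hab
      rw [Sym2.eq_iff] at h
      rcases h with ⟨h1, h2⟩ | ⟨h1, h2⟩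
      · rw [← h1, ← h2]; exact hkey i
      · rw [← h1, ← h2, G.adj_comm, G'.adj_comm]; exact hkey i
    · exact hout a b hab

end Pool.Agent.Lib_helper37.GC
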