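import Pool.Agent.Lib_helper37.GC.Rand

/-!
# The number of graphs in which two labelled sets have the same pattern, sharper form
-/

set_option autoImplicit false

open Finset

namespace Pool.Agent.Lib_helper37.GC

variable {n m : ℕ}

/-- Ordered pairs of distinct elements give at least half as many unordered pairs. -/
theorem card_sym2_image {A : Type} [DecidableEq A] (P : Finset (A × A)) :
    P.card ≤ 2 * (P.image fun q => s(q.1, q.2)).card := by
  refine Finset.card_le_mul_card_image (f := fun q : A × A => s(q.1, q.2)) P 2 ?_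
  intro e _
  induction e using Sym2.ind with
  | _ u v =>
    have h1 : (P.filter fun x => s(x.1, x.2) = s(u, v)) ⊆ {(u, v), (v, u)} := by
      intro x hx
      rw [Finset.mem_filter, Sym2.eq_iff] at hx
      rw [Finset.mem_insert, Finset.mem_singleton]
      rcases hx.2 with ⟨h, h'⟩ | ⟨h, h'⟩
      · left; exact Prod.ext h h'
      · right; exact Prod.ext h h'
    exact (Finset.card_le_card h1).trans Finset.card_le_two

theorem pat_edge {V : Type} {G : SimpleGraph V} {S w : Fin m → V} (h : pat G w = pat G S)
    (e : Sym2 (Fin m)) : Sym2.map w e ∈ G.edgeSet ↔ Sym2.map S e ∈ G.edgeSet := by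
  induction e using Sym2.ind with
  | _ i t =>
    rw [Sym2.map_mk, Sym2.map_mk, SimpleGraph.mem_edgeSet, SimpleGraph.mem_edgeSet]
    exact pat_snd h i t

/-- The number of graphs in which the labelled set `w` has the same pattern as `S`. -/
theorem count_pat2 (p1 p2 : ℕ) (h1 : 2 * (p1 + p2) + 1 ≤ m) (h2 : 12 * p2 + 4 ≤ m)
    (S w : Fin m → Fin n) (hS : Function.Injective S) :
    Nat.card {G : SimpleGraph (Fin n) // pat G w = pat G S} *
      2 ^ (p1 * (univ.filter fun i => ∀ j, S j ≠ w i).card +
        p2 * (univ.filter fun i => w i ≠ S i ∧ ∃ j, S j = w i).card) ≤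
      Nat.card (SimpleGraph (Fin n)) := by
  classical
  by_cases hw : Function.Injective w
  swap
  · have : IsEmpty {G : SimpleGraph (Fin n) // pat G w = pat G S} := by
      refine ⟨fun G => hw fun a b hab => hS ((pat_fst G.2 a b).1 hab)⟩
    simp
  set O : Finset (Fin m) := univ.filter fun i => ∀ j, S j ≠ w i with hO
  set B : Finset (Fin m) := univ.filter fun i => w i ≠ S i ∧ ∃ j, S j = w i with hB
  have hdisj : Disjoint O B := by
    rw [Finset.disjoint_left]
    intro i hi hi'
    rw [hO, Finset.mem_filter] at hi
    rw [hB, Finset.mem_filter] at hi'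
    obtain ⟨j, hj⟩ := hi'.2.2
    exact hi.2 j hj
  have hab : O.card + B.card ≤ m := by
    rw [← Finset.card_union_of_disjoint hdisj]
    exact (Finset.card_le_univ _).trans (by simp)
  have hSe : Function.Injective (Sym2.map S) := Sym2.map.injective hS
  have hwe : Function.Injective (Sym2.map w) := Sym2.map.injective hw
  -- the pairs with an element moved outside
  set P1 : Finset (Fin m × Fin m) := univ.filter fun q => q.1 ∈ O ∧ q.2 ≠ q.1 with hP1
  set L1 : Finset (Sym2 (Fin m)) := P1.image fun q => s(q.1, q.2) with hL1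
  have hP1c : P1.card = O.card * (m - 1) := by
    have : P1 = O.biUnion fun i => (univ.erase i).image fun t => (i, t) := by
      ext ⟨i, t⟩
      simp only [hP1, Finset.mem_filter, Finset.mem_univ, true_and, Finset.mem_biUnion,
        Finset.mem_image, Finset.mem_erase, and_true, Prod.mk.injEq]
      constructor
      · rintro ⟨h, h'⟩
        exact ⟨i, h, t, h', rfl, rfl⟩
      · rintro ⟨i', h, t', h', rfl, rfl⟩
        exact ⟨h, h'⟩
    rw [this, Finset.card_biUnion]
    · rw [Finset.sum_congr rfl (g := fun _ => m - 1)]
      · simp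
      · intro i _
        rw [Finset.card_image_of_injective _ (fun a b h => (Prod.mk.inj h).2),
          Finset.card_erase_of_mem (Finset.mem_univ _)]
        simp
    · intro i _ j _ hij
      refine Finset.disjoint_left.2 ?_
      rintro ⟨a, b⟩ ha hb
      rw [Finset.mem_image] at ha hb
      obtain ⟨_, _, ha⟩ := ha
      obtain ⟨_, _, hb⟩ := hb
      exact hij ((Prod.mk.inj ha).1.trans (Prod.mk.inj hb).1.symm)
  have hL1c : O.card * (m - 1) ≤ 2 * L1.card := by
    rw [← hP1c]; exact card_sym2_image P1
  have hL1out : ∀ e ∈ L1, ∀ f, Sym2.map w e ≠ Sym2.map S f := by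
    intro e he f
    rw [hL1, Finset.mem_image] at he
    obtain ⟨⟨i, t⟩, h, rfl⟩ := he
    rw [hP1, Finset.mem_filter] at h
    induction f using Sym2.ind with
    | _ a b =>
      rw [Sym2.map_mk, Sym2.map_mk]
      intro h3
      rw [Sym2.eq_iff] at h3
      have h4 := (Finset.mem_filter.1 h.2.1).2
      rcases h3 with ⟨h3, _⟩ | ⟨h3, _⟩
      · exact h4 _ h3.symm
      · exact h4 _ h3.symm
  have hL1nd : ∀ e ∈ L1, ¬ e.IsDiag := by
    intro e he
    rw [hL1, Finset.mem_image] at he
    obtain ⟨⟨i, t⟩, h, rfl⟩ := he
    rw [hP1, Finset.mem_filter] at h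
    rw [Sym2.mk_isDiag_iff]
    exact fun h5 => h.2.2 h5.symm
  -- the moved pairs inside
  set P2 : Finset (Fin m × Fin m) := univ.filter fun q => q.1 ∈ B ∧ q.2 ∉ O ∧ q.2 ≠ q.1 ∧
    Sym2.map w s(q.1, q.2) ≠ Sym2.map S s(q.1, q.2) with hP2
  set X : Finset (Sym2 (Fin m)) := P2.image fun q => s(q.1, q.2) with hX
  have hP2c : B.card * (m - O.card - 2) ≤ P2.card := by
    have : B.card * (m - O.card - 2) ≤
        (B.biUnion fun i => (P2.filter fun q => q.1 = i)).card := by
      rw [Finset.card_biUnion]
      · rw [← smul_eq_mul, ← Finset.sum_const]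
        refine Finset.sum_le_sum fun i hi => ?_
        have hi' : w i ≠ S i := (Finset.mem_filter.1 hi).2.1
        have h3 : (univ : Finset (Fin m)) ⊆ (O ∪ {i}) ∪
            ((univ.filter fun t => w i = S t) ∪ (P2.filter fun q => q.1 = i).image Prod.snd) := by
          intro t _
          by_cases ht1 : t ∈ O ∪ {i}
          · exact Finset.mem_union_left _ ht1
          · apply Finset.mem_union_right
            rw [Finset.mem_union, not_or, Finset.mem_singleton] at ht1
            by_cases ht2 : w i = S t
            · exact Finset.mem_union_left _ (by simpa using ht2)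
            · apply Finset.mem_union_right
              rw [Finset.mem_image]
              refine ⟨(i, t), ?_, rfl⟩
              rw [Finset.mem_filter, hP2, Finset.mem_filter]
              refine ⟨⟨Finset.mem_univ _, hi, ht1.1, ht1.2, ?_⟩, rfl⟩
              rw [Sym2.map_mk, Sym2.map_mk]
              intro h4
              rw [Sym2.eq_iff] at h4
              rcases h4 with ⟨h4, _⟩ | ⟨h4, _⟩
              · exact hi' h4
              · exact ht2 h4
        have h4 := Finset.card_le_card h3
        rw [Finset.card_univ, Fintype.card_fin] at h4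
        have h5 := Finset.card_union_le (O ∪ {i})
          ((univ.filter fun t => w i = S t) ∪ (P2.filter fun q => q.1 = i).image Prod.snd)
        have h6 := Finset.card_union_le O {i}
        have h7 := Finset.card_union_le (univ.filter fun t => w i = S t)
          ((P2.filter fun q => q.1 = i).image Prod.snd)
        have h8 : (univ.filter fun t => w i = S t).card ≤ 1 := by
          rw [Finset.card_le_one]
          intro a ha b hb
          rw [Finset.mem_filter] at ha hb
          exact hS (ha.2.symm.trans hb.2)
        have h9 : ((P2.filter fun q => q.1 = i).image Prod.snd).card ≤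
          (P2.filter fun q => q.1 = i).card := Finset.card_image_le
        rw [Finset.card_singleton] at h6
        omega
      · intro i _ j _ hij
        refine Finset.disjoint_left.2 ?_
        intro q ha hb
        exact hij ((Finset.mem_filter.1 ha).2.symm.trans (Finset.mem_filter.1 hb).2)
    refine this.trans (Finset.card_le_card ?_)
    intro q hq
    rw [Finset.mem_biUnion] at hq
    obtain ⟨i, _, hq⟩ := hq
    exact (Finset.mem_filter.1 hq).1
  have hXc : B.card * (m - O.card - 2) ≤ 2 * X.card :=
    hP2c.trans (card_sym2_image P2)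
  obtain ⟨M, hMX, hM, hMc⟩ := exists_indep (Sym2.map w) (Sym2.map S) hwe hSe X (by
    intro e he
    rw [hX, Finset.mem_image] at he
    obtain ⟨q, hq, rfl⟩ := he
    rw [hP2, Finset.mem_filter] at hq
    exact hq.2.2.2.2)
  have hXin : ∀ e ∈ X, (∀ i ∈ e, ∃ j, S j = w i) ∧ ¬ e.IsDiag := by
    intro e he
    rw [hX, Finset.mem_image] at he
    obtain ⟨⟨i, t⟩, hq, rfl⟩ := he
    rw [hP2, Finset.mem_filter] at hq
    simp only at hq
    refine ⟨?_, ?_⟩
    · intro j hj
      rw [Sym2.mem_iff] at hj
      rcases hj with rfl | rfl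
      · exact (Finset.mem_filter.1 hq.2.1).2.2
      · by_contra hcon
        push Not at hcon
        exact hq.2.2.1 (Finset.mem_filter.2 ⟨Finset.mem_univ _, hcon⟩)
    · rw [Sym2.mk_isDiag_iff]
      exact fun h5 => hq.2.2.2.1 h5.symm
  have hXin2 : ∀ e ∈ X, ∃ f, Sym2.map w e = Sym2.map S f := by
    intro e he
    have h3 := (hXin e he).1
    induction e using Sym2.ind with
    | _ i t =>
      obtain ⟨a, ha⟩ := h3 i (Sym2.mem_mk_left i t)
      obtain ⟨b, hb⟩ := h3 t (Sym2.mem_mk_right i t)
      exact ⟨s(a, b), by rw [Sym2.map_mk, Sym2.map_mk, ha, hb]⟩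
  have hdis : Disjoint L1 M := by
    rw [Finset.disjoint_left]
    intro e he he'
    obtain ⟨f, hf⟩ := hXin2 e (hMX he')
    exact hL1out e he f hf
  set L : Finset (Sym2 (Fin n)) := (L1 ∪ M).image (Sym2.map S) with hL
  have hLc : L.card = L1.card + M.card := by
    rw [hL, Finset.card_image_of_injective _ hSe, Finset.card_union_of_disjoint hdis]
  have hkey : p1 * O.card + p2 * B.card ≤ L.card := by
    rw [hLc]
    generalize O.card = a at *
    generalize B.card = b at *
    generalize L1.card = l at *
    generalize M.card = k at *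
    generalize X.card = x at *
    rcases le_total (2 * a) m with h | h
    · have e1 : p1 * a ≤ l := by
        have : 2 * (p1 * a) ≤ 2 * l := by
          calc 2 * (p1 * a) = a * (2 * p1) := by ring
            _ ≤ a * (m - 1) := Nat.mul_le_mul_left _ (by omega)
            _ ≤ 2 * l := hL1c
        omega
      have e2 : p2 * b ≤ k := by
        have : 6 * (p2 * b) ≤ 6 * k := by
          calc 6 * (p2 * b) = b * (6 * p2) := by ring
            _ ≤ b * (m - a - 2) := Nat.mul_le_mul_left _ (by omega)
            _ ≤ 2 * x := hXc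
            _ ≤ 6 * k := by omega
        omega
      omega
    · have e1 : 2 * (p1 * a + p2 * b) ≤ 2 * l := by
        calc 2 * (p1 * a + p2 * b) ≤ 2 * (p1 * a + p2 * a) := by
              have : p2 * b ≤ p2 * a := Nat.mul_le_mul_left _ (by omega)
              omega
          _ = a * (2 * (p1 + p2)) := by ring
          _ ≤ a * (m - 1) := Nat.mul_le_mul_left _ (by omega)
          _ ≤ 2 * l := hL1c
      omega
  refine le_trans (Nat.mul_le_mul_left _ (Nat.pow_le_pow_right (by norm_num) hkey)) ?_
  refine count_det L ?_ _ ?_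
  · intro e he
    rw [hL, Finset.mem_image] at he
    obtain ⟨f, hf, rfl⟩ := he
    rw [Sym2.isDiag_map hS]
    rcases Finset.mem_union.1 hf with hf | hf
    · exact hL1nd f hf
    · exact (hXin f (hMX hf)).2
  · intro G G' hG hG' hout
    have hout' : ∀ e, e ∉ L → (e ∈ G.edgeSet ↔ e ∈ G'.edgeSet) := by
      intro e he
      induction e using Sym2.ind with
      | _ u v => exact hout u v he
    have k1 : ∀ e ∈ L1, (Sym2.map S e ∈ G.edgeSet ↔ Sym2.map S e ∈ G'.edgeSet) := by
      intro e he
      rw [← pat_edge hG e, ← pat_edge hG' e]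
      apply hout'
      rw [hL, Finset.mem_image]
      rintro ⟨f, _, hf⟩
      exact hL1out e he f hf.symm
    have k2 : ∀ e ∈ M, (Sym2.map S e ∈ G.edgeSet ↔ Sym2.map S e ∈ G'.edgeSet) := by
      intro e he
      rw [← pat_edge hG e, ← pat_edge hG' e]
      obtain ⟨f, hf⟩ := hXin2 e (hMX he)
      by_cases hfL : f ∈ L1
      · rw [hf]; exact k1 f hfL
      · apply hout'
        rw [hf, hL, Finset.mem_image]
        rintro ⟨f', hf', h5⟩
        have h6 := hSe h5
        subst h6
        rcases Finset.mem_union.1 hf' with h7 | h7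
        · exact hfL h7
        · exact hM e he _ h7 hf
    ext u v
    have : s(u, v) ∈ G.edgeSet ↔ s(u, v) ∈ G'.edgeSet := by
      by_cases huv : s(u, v) ∈ L
      · rw [hL, Finset.mem_image] at huv
        obtain ⟨f, hf, h3⟩ := huv
        rw [← h3]
        rcases Finset.mem_union.1 hf with hf | hf
        · exact k1 f hf
        · exact k2 f hf
      · exact hout' _ huv
    exact this

end Pool.Agent.Lib_helper37.GC
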