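import Pool.Agent.Lib_helper37.GC.Rand2

/-!
# Almost every graph has a rigid labelled set which separates the vertices
-/

set_option autoImplicit false

open Finset

namespace Pool.Agent.Lib_helper37.GC

variable {n m : ℕ}

/-- `S` is rigid and separates the vertices. -/
def Good {V : Type} (S : Fin m → V) (G : SimpleGraph V) : Prop :=
  (∀ w : Fin m → V, pat G w = pat G S → w = S) ∧
  (∀ u v, (∀ i, S i ≠ u) → (∀ i, S i ≠ v) → (∀ i, G.Adj (S i) u ↔ G.Adj (S i) v) → u = v)

open Classical in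
/-- The weight of the value `x` of the labelled set at the index `i`. -/
noncomputable def wt (p1 p2 : ℕ) (S : Fin m → Fin n) (i : Fin m) (x : Fin n) : ℝ :=
  if x = S i then 1 else if ∃ j, S j = x then (1 / 2) ^ p2 else (1 / 2) ^ p1

open Classical in
theorem prod_wt (p1 p2 : ℕ) (S w : Fin m → Fin n) :
    ∏ i, wt p1 p2 S i (w i) = (1 / 2) ^ (p1 * (univ.filter fun i => ∀ j, S j ≠ w i).card +
        p2 * (univ.filter fun i => w i ≠ S i ∧ ∃ j, S j = w i).card) := by
  have h : ∀ i, wt p1 p2 S i (w i) = (if (∀ j, S j ≠ w i) then ((1:ℝ) / 2) ^ p1 else 1) *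
      (if (w i ≠ S i ∧ ∃ j, S j = w i) then ((1:ℝ) / 2) ^ p2 else 1) := by
    intro i
    unfold wt
    by_cases h1 : w i = S i
    · have h2 : ¬ (∀ j, S j ≠ w i) := fun h => h i h1.symm
      have h3 : ¬ (w i ≠ S i ∧ ∃ j, S j = w i) := fun h => h.1 h1
      rw [if_pos h1, if_neg h2, if_neg h3, one_mul]
    · by_cases h2 : ∃ j, S j = w i
      · have h3 : ¬ (∀ j, S j ≠ w i) := fun h => by
          obtain ⟨j, hj⟩ := h2
          exact h j hj
        rw [if_neg h1, if_pos h2, if_neg h3, if_pos ⟨h1, h2⟩, one_mul]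
      · have h3 : ∀ j, S j ≠ w i := fun j hj => h2 ⟨j, hj⟩
        have h4 : ¬ (w i ≠ S i ∧ ∃ j, S j = w i) := fun h => h2 h.2
        rw [if_neg h1, if_neg h2, if_pos h3, if_neg h4, mul_one]
  rw [Finset.prod_congr rfl (fun i _ => h i), Finset.prod_mul_distrib, Finset.prod_ite,
    Finset.prod_ite]
  simp only [Finset.prod_const, one_pow, mul_one]
  rw [← pow_mul, ← pow_mul, ← pow_add]

theorem sum_wt (p1 p2 : ℕ) (S : Fin m → Fin n) (i : Fin m) :
    ∑ x, wt p1 p2 S i x ≤ 1 + m * (1 / 2) ^ p2 + n * (1 / 2) ^ p1 := by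
  classical
  have h : ∀ x, wt p1 p2 S i x ≤ ((if x = S i then (1:ℝ) else 0) +
      (if x ∈ univ.image S then ((1:ℝ) / 2) ^ p2 else 0)) + (1 / 2) ^ p1 := by
    intro x
    have e1 : (0:ℝ) ≤ (1 / 2) ^ p1 := by positivity
    have e2 : (0:ℝ) ≤ (1 / 2) ^ p2 := by positivity
    have e3 : (∃ j, S j = x) ↔ x ∈ univ.image S := by simp
    unfold wt
    simp only [e3]
    split_ifs <;> linarith
  calc ∑ x, wt p1 p2 S i x ≤ ∑ x, (((if x = S i then (1:ℝ) else 0) +
      (if x ∈ univ.image S then ((1:ℝ) / 2) ^ p2 else 0)) + (1 / 2) ^ p1) :=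
        Finset.sum_le_sum fun x _ => h x
    _ = 1 + (univ.image S).card * (1 / 2) ^ p2 + n * (1 / 2) ^ p1 := by
        rw [Finset.sum_add_distrib, Finset.sum_add_distrib, Finset.sum_ite_eq',
          if_pos (Finset.mem_univ _), Finset.sum_ite_mem, Finset.univ_inter, Finset.sum_const,
          Finset.sum_const, Finset.card_univ, Fintype.card_fin, nsmul_eq_mul, nsmul_eq_mul]
    _ ≤ 1 + m * (1 / 2) ^ p2 + n * (1 / 2) ^ p1 := by
        have : ((univ.image S).card : ℝ) ≤ m := by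
          have := Finset.card_image_le (s := (univ : Finset (Fin m))) (f := S)
          rw [Finset.card_univ, Fintype.card_fin] at this
          exact_mod_cast this
        gcongr

theorem bad_bound (p1 p2 : ℕ) (h1 : 2 * (p1 + p2) + 1 ≤ m) (h2 : 12 * p2 + 4 ≤ m)
    (S : Fin m → Fin n) (hS : Function.Injective S) :
    (Nat.card {G : SimpleGraph (Fin n) // ¬ Good S G} : ℝ) ≤
      Nat.card (SimpleGraph (Fin n)) *
        ((1 + m * (1 / 2) ^ p2 + n * (1 / 2) ^ p1) ^ m - 1 + (n : ℝ) ^ 2 * (1 / 2) ^ m) := by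
  classical
  set N : ℝ := (Nat.card (SimpleGraph (Fin n)) : ℝ) with hN
  have hc : ∀ (P : SimpleGraph (Fin n) → Prop) [DecidablePred P],
      Nat.card {G // P G} = (univ.filter P).card := by
    intro P _
    rw [Nat.card_eq_fintype_card, Fintype.card_subtype]
  have hcc : Nat.card {G : SimpleGraph (Fin n) // ¬ Good S G} =
      (univ.filter fun G : SimpleGraph (Fin n) => ¬ Good S G).card := by
    rw [hc]
  rw [hcc]
  have hsub : (univ.filter fun G : SimpleGraph (Fin n) => ¬ Good S G) ⊆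
      ((univ.erase S).biUnion fun w => univ.filter fun G => pat G w = pat G S) ∪
      ((univ.filter fun q : Fin n × Fin n => q.1 ≠ q.2 ∧ (∀ i, S i ≠ q.1) ∧ ∀ i, S i ≠ q.2).biUnion
        fun q => univ.filter fun G : SimpleGraph (Fin n) =>
          ∀ i, G.Adj (S i) q.1 ↔ G.Adj (S i) q.2) := by
    intro G hG
    rw [Finset.mem_filter] at hG
    rw [Finset.mem_union, Finset.mem_biUnion, Finset.mem_biUnion]
    by_contra hcon
    rw [not_or] at hcon
    apply hG.2
    refine ⟨?_, ?_⟩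
    · intro w hw
      by_contra hwS
      exact hcon.1 ⟨w, by simpa using hwS, by simpa using hw⟩
    · intro u v hu hv huv
      by_contra huv'
      exact hcon.2 ⟨(u, v), by simpa using ⟨huv', hu, hv⟩, by simpa using huv⟩
  have hA : (((univ.erase S).biUnion fun w => univ.filter fun G : SimpleGraph (Fin n) =>
      pat G w = pat G S).card : ℝ) ≤ N * ((1 + m * (1 / 2) ^ p2 + n * (1 / 2) ^ p1) ^ m - 1) := by
    have h3 : (((univ.erase S).biUnion fun w => univ.filter fun G : SimpleGraph (Fin n) =>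
      pat G w = pat G S).card : ℝ) ≤ ∑ w ∈ univ.erase S, N * ∏ i, wt p1 p2 S i (w i) := by
      refine le_trans (Nat.cast_le.2 Finset.card_biUnion_le) ?_
      rw [Nat.cast_sum]
      refine Finset.sum_le_sum fun w _ => ?_
      have h4 := count_pat2 p1 p2 h1 h2 S w hS
      rw [hc (fun G => pat G w = pat G S)] at h4
      rw [prod_wt, one_div, inv_pow, ← div_eq_mul_inv, le_div_iff₀ (by positivity)]
      rw [hN]
      exact_mod_cast h4
    refine h3.trans ?_
    rw [← Finset.mul_sum]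
    have hN0 : 0 ≤ N := by rw [hN]; positivity
    refine mul_le_mul_of_nonneg_left ?_ hN0
    have h5 : ∑ w ∈ univ.erase S, ∏ i, wt p1 p2 S i (w i) =
        ∑ w : Fin m → Fin n, ∏ i, wt p1 p2 S i (w i) - ∏ i, wt p1 p2 S i (S i) := by
      rw [← Finset.add_sum_erase univ (fun w : Fin m → Fin n => ∏ i, wt p1 p2 S i (w i)) (Finset.mem_univ S)]
      ring
    have h6 : ∏ i, wt p1 p2 S i (S i) = 1 := Finset.prod_eq_one fun i _ => by simp [wt]
    have h7 : ∑ w : Fin m → Fin n, ∏ i, wt p1 p2 S i (w i) = ∏ i : Fin m, ∑ x, wt p1 p2 S i x := by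
      rw [Finset.prod_univ_sum, Fintype.piFinset_univ]
    rw [h5, h6, h7]
    have h8 : ∏ i : Fin m, ∑ x, wt p1 p2 S i x ≤
        ∏ _i : Fin m, (1 + m * (1 / 2) ^ p2 + n * (1 / 2) ^ p1 : ℝ) := by
      refine Finset.prod_le_prod ?_ fun i _ => sum_wt p1 p2 S i
      intro i _
      refine Finset.sum_nonneg fun x _ => ?_
      unfold wt
      split_ifs <;> positivity
    rw [Finset.prod_const, Finset.card_univ, Fintype.card_fin] at h8
    linarith
  have hB : (((univ.filter fun q : Fin n × Fin n => q.1 ≠ q.2 ∧ (∀ i, S i ≠ q.1) ∧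
      ∀ i, S i ≠ q.2).biUnion fun q => univ.filter fun G : SimpleGraph (Fin n) =>
          ∀ i, G.Adj (S i) q.1 ↔ G.Adj (S i) q.2).card : ℝ) ≤ N * ((n : ℝ) ^ 2 * (1 / 2) ^ m) := by
    refine le_trans (Nat.cast_le.2 Finset.card_biUnion_le) ?_
    rw [Nat.cast_sum]
    have h3 : ∀ q ∈ (univ.filter fun q : Fin n × Fin n => q.1 ≠ q.2 ∧ (∀ i, S i ≠ q.1) ∧
        ∀ i, S i ≠ q.2), ((univ.filter fun G : SimpleGraph (Fin n) =>
          ∀ i, G.Adj (S i) q.1 ↔ G.Adj (S i) q.2).card : ℝ) ≤ N * (1 / 2) ^ m := by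
      intro q hq
      rw [Finset.mem_filter] at hq
      have h4 := count_sep m S hS q.1 q.2 hq.2.1 hq.2.2.1 hq.2.2.2
      rw [hc (fun G => ∀ i, G.Adj (S i) q.1 ↔ G.Adj (S i) q.2)] at h4
      rw [one_div, inv_pow, ← div_eq_mul_inv, le_div_iff₀ (by positivity)]
      rw [hN]
      exact_mod_cast h4
    refine (Finset.sum_le_sum h3).trans ?_
    rw [Finset.sum_const, nsmul_eq_mul]
    have h5 : ((univ.filter fun q : Fin n × Fin n => q.1 ≠ q.2 ∧ (∀ i, S i ≠ q.1) ∧
        ∀ i, S i ≠ q.2).card : ℝ) ≤ (n : ℝ) ^ 2 := by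
      have := Finset.card_le_univ (univ.filter fun q : Fin n × Fin n => q.1 ≠ q.2 ∧
        (∀ i, S i ≠ q.1) ∧ ∀ i, S i ≠ q.2)
      rw [Fintype.card_prod, Fintype.card_fin] at this
      rw [sq]
      exact_mod_cast this
    have hN0 : 0 ≤ N := by rw [hN]; positivity
    calc _ ≤ (n : ℝ) ^ 2 * (N * (1 / 2) ^ m) := by gcongr
      _ = _ := by ring
  refine (Nat.cast_le.2 (Finset.card_le_card hsub)).trans ?_
  refine (Nat.cast_le.2 (Finset.card_union_le _ _)).trans ?_
  rw [Nat.cast_add, mul_add]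
  exact add_le_add hA hB

end Pool.Agent.Lib_helper37.GC
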