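import Pool.Agent.Lib_helper37.GC.Deck

/-!
# Reconstruction from the small pattern counts
-/

set_option autoImplicit false

open Finset

namespace Pool.Agent.Lib_helper37.GC

variable {V V' Y Y' : Type}

theorem pat_comp {G : SimpleGraph V} {G' : SimpleGraph V'} {w : Y → V} {w' : Y → V'}
    (h : pat G w = pat G' w') (f : Y' → Y) : pat G (w ∘ f) = pat G' (w' ∘ f) := by
  refine Prod.ext ?_ ?_
  · funext a b
    exact congrFun (congrFun (congrArg Prod.fst h) (f a)) (f b)
  · funext a b
    exact congrFun (congrFun (congrArg Prod.snd h) (f a)) (f b)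

theorem deck_type {d : ℕ} {G : SimpleGraph V} {G' : SimpleGraph V'} (h : SameDeck d G G')
    [Fintype Y] (hY : Fintype.card Y ≤ d) (Q : (Y → Y → Prop) × (Y → Y → Prop) → Prop) :
    Nat.card {v : Y → V // Q (pat G v)} = Nat.card {v : Y → V' // Q (pat G' v)} := by
  let e := Fintype.equivFin Y
  have key : ∀ {W : Type} (D : SimpleGraph W), Nat.card {v : Y → W // Q (pat D v)} =
      Nat.card {v : Fin (Fintype.card Y) → W //
        (fun P : (Fin (Fintype.card Y) → Fin (Fintype.card Y) → Prop) ×
          (Fin (Fintype.card Y) → Fin (Fintype.card Y) → Prop) =>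
          Q (fun a b => P.1 (e a) (e b), fun a b => P.2 (e a) (e b))) (pat D v)} := by
    intro W D
    refine Nat.card_congr ⟨fun v => ⟨v.1 ∘ e.symm, ?_⟩, fun v => ⟨v.1 ∘ e, v.2⟩, ?_, ?_⟩
    · have h1 : (fun a b : Y => (pat D (v.1 ∘ e.symm)).1 (e a) (e b),
          fun a b : Y => (pat D (v.1 ∘ e.symm)).2 (e a) (e b)) = pat D v.1 := by
        simp [pat]
      beta_reduce
      rw [h1]
      exact v.2
    · intro v
      apply Subtype.ext
      funext y
      simp
    · intro v
      apply Subtype.ext
      funext y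
      simp
  rw [key G, key G']
  exact h _ hY (fun P => Q (fun a b => P.1 (e a) (e b), fun a b => P.2 (e a) (e b)))

/-- One more value. -/
def ex (S : Y → V) (u : V) : Option Y → V := fun y => y.elim u S

theorem ex_some (S : Y → V) (u : V) : ex S u ∘ some = S := rfl

theorem eq_ex (w : Option Y → V) : w = ex (w ∘ some) (w none) := by
  funext y
  cases y <;> rfl

theorem card_one {T : Type} {p : T → Prop} (t : T) (ht : p t) (h : ∀ s, p s → s = t) :
    Nat.card {s : T // p s} = 1 := by
  rw [Nat.card_eq_one_iff_unique]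
  exact ⟨⟨fun a b => Subtype.ext ((h _ a.2).trans (h _ b.2).symm)⟩, ⟨⟨t, ht⟩⟩⟩

theorem of_card_one {T : Type} {p : T → Prop} (h : Nat.card {s : T // p s} = 1) :
    ∃ t, p t ∧ ∀ s, p s → s = t := by
  rw [Nat.card_eq_one_iff_unique] at h
  obtain ⟨⟨h1⟩, ⟨t⟩⟩ := h
  exact ⟨t.1, t.2, fun s hs => congrArg Subtype.val (h1 ⟨s, hs⟩ t)⟩

theorem card_of_deck [Fintype V] [Fintype V'] {d : ℕ} {G : SimpleGraph V} {G' : SimpleGraph V'}
    (hd : 1 ≤ d) (h : SameDeck d G G') : Fintype.card V = Fintype.card V' := by
  have h1 := deck_type h (Y := Unit) (by simpa using hd) (fun _ => True)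
  simpa using h1

/-- A graph with a rigid labelled set which separates the vertices is determined by its small patterns. -/
theorem recon [Fintype V] [Fintype V'] (G : SimpleGraph V) (G' : SimpleGraph V') (m : ℕ)
    (S : Fin m → V) (h1 : ∀ w : Fin m → V, pat G w = pat G S → w = S)
    (h2 : ∀ u v, (∀ i, S i ≠ u) → (∀ i, S i ≠ v) → (∀ i, G.Adj (S i) u ↔ G.Adj (S i) v) → u = v)
    (h : SameDeck (m + 2) G G') : Nonempty (G ≃g G') := by
  have hcard := card_of_deck (by omega) h
  -- the set in `G'`
  obtain ⟨S', hS', hS1'⟩ := of_card_one (p := fun w : Fin m → V' => pat G' w = pat G S) (by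
    rw [← deck_type h (Y := Fin m) (by simp) (fun P => P = pat G S)]
    exact card_one S rfl h1)
  -- one more vertex in `G`
  have hu : ∀ (u : V) (w : Option (Fin m) → V), pat G w = pat G (ex S u) → w = ex S u := by
    intro u w hw
    have h3 : w ∘ some = S := h1 _ (pat_comp hw some)
    have h4 : w none = u := by
      by_cases hi : ∃ i, S i = u
      · obtain ⟨i, hi⟩ := hi
        have h5 := (pat_fst hw none (some i)).2 hi.symm
        rw [h5]
        show (w ∘ some) i = u
        rw [h3, hi]
      · push Not at hi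
        refine h2 _ _ ?_ hi ?_
        · intro i hi'
          apply hi i
          have h5 := (pat_fst hw (some i) none).1 (by
            show (w ∘ some) i = w none
            rw [h3, hi'])
          exact h5
        · intro i
          have h5 := pat_snd hw (some i) none
          have h6 : w (some i) = S i := congrFun h3 i
          rw [h6] at h5
          exact h5
    rw [eq_ex w, h3, h4]
  have hu' : ∀ u : V, ∃ u' : V', pat G' (ex S' u') = pat G (ex S u) ∧
      ∀ w : Option (Fin m) → V', pat G' w = pat G (ex S u) → w = ex S' u' := by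
    intro u
    obtain ⟨w, hw, hw'⟩ := of_card_one
      (p := fun w : Option (Fin m) → V' => pat G' w = pat G (ex S u)) (by
      rw [← deck_type h (Y := Option (Fin m)) (by simp) (fun P => P = pat G (ex S u))]
      exact card_one (ex S u) rfl (hu u))
    have h3 : w ∘ some = S' := hS1' _ (pat_comp hw some)
    refine ⟨w none, ?_, ?_⟩
    · rw [← h3, ← eq_ex]; exact hw
    · intro w'' hw''
      rw [← h3, ← eq_ex]
      exact hw' _ hw''
  choose ψ hψ hψ' using hu'
  have hinj : Function.Injective ψ := by
    intro u v huv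
    have h3 : pat G (ex S u) = pat G (ex S v) := by rw [← hψ u, ← hψ v, huv]
    exact congrFun (hu v _ h3) none
  have hbij : Function.Bijective ψ :=
    (Fintype.bijective_iff_injective_and_card ψ).2 ⟨hinj, hcard⟩
  refine ⟨⟨Equiv.ofBijective ψ hbij, ?_⟩⟩
  intro u v
  show G'.Adj (ψ u) (ψ v) ↔ G.Adj u v
  -- two more vertices
  have h3 : 0 < Nat.card {w : Option (Option (Fin m)) → V' // pat G' w = pat G (ex (ex S u) v)} := by
    rw [← deck_type h (Y := Option (Option (Fin m))) (by simp) (fun P => P = pat G (ex (ex S u) v))]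
    have : Nonempty {w : Option (Option (Fin m)) → V // pat G w = pat G (ex (ex S u) v)} :=
      ⟨⟨_, rfl⟩⟩
    exact Nat.card_pos
  obtain ⟨⟨w, hw⟩⟩ := (Nat.card_pos_iff.1 h3).1
  have h4 : w ∘ some = ex S' (ψ u) := hψ' u _ (pat_comp hw some)
  have h5 : w ∘ (fun y : Option (Fin m) => y.map some) = ex S' (ψ v) := by
    refine hψ' v _ ?_
    have := pat_comp hw (fun y : Option (Fin m) => y.map some)
    rw [this]
    congr 1
    funext y
    cases y <;> rfl
  have h6 : w (some none) = ψ u := congrFun h4 none
  have h7 : w none = ψ v := congrFun h5 none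
  rw [← h6, ← h7]
  exact pat_snd hw (some none) none

end Pool.Agent.Lib_helper37.GC
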