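import Pool.Agent.Lib_helper37.GC.Rand

/-!
# Sums over the vertices of rooted tree counts are determined by the small polynomials
-/

set_option autoImplicit false

open Finset

namespace Pool.Agent.Lib_helper37.GC

variable {V : Type} [Fintype V]

/-- `f G x` is the number of maps which send the root to `x` and `k` pairs to edges. -/
def IsRC (k : ℕ) (f : SimpleGraph V → V → ℤ) : Prop :=
  ∃ (Y : Type) (_ : Fintype Y) (I : Finset (Option Y × Option Y)), Fintype.card Y ≤ k ∧ I.card ≤ k ∧
    ∀ G x, f G x = Nat.card {v : Y → V // ∀ e ∈ I, G.Adj (ex v x e.1) (ex v x e.2)}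

/-- The number of neighbours. -/
noncomputable def dg (G : SimpleGraph V) (x : V) : ℤ := ∑ y, ind (G.Adj x y)

/-- The sum of the `j`-th powers of the degrees of the neighbours. -/
noncomputable def pw (G : SimpleGraph V) (j : ℕ) (x : V) : ℤ := ∑ y, ind (G.Adj x y) * dg G y ^ j

theorem rc_one : IsRC 0 (fun (_ : SimpleGraph V) (_ : V) => 1) := by
  refine ⟨Empty, inferInstance, ∅, by simp, by simp, ?_⟩
  intro G x
  simp

theorem rc_mul {k l : ℕ} {f g : SimpleGraph V → V → ℤ} (hf : IsRC k f) (hg : IsRC l g) :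
    IsRC (k + l) (fun G x => f G x * g G x) := by
  classical
  obtain ⟨Y, _, I, h1, h2, h3⟩ := hf
  obtain ⟨Z, _, J, h4, h5, h6⟩ := hg
  refine ⟨Y ⊕ Z, inferInstance, (I.image fun e => (e.1.map Sum.inl, e.2.map Sum.inl)) ∪
    (J.image fun e => (e.1.map Sum.inr, e.2.map Sum.inr)), ?_, ?_, ?_⟩
  · rw [Fintype.card_sum]; omega
  · have := Finset.card_union_le (I.image fun e => (e.1.map Sum.inl, e.2.map Sum.inl))
      (J.image fun e => (e.1.map Sum.inr, e.2.map (Sum.inr (α := Y))))
    have e1 := Finset.card_image_le (s := I)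
      (f := fun e => ((e.1.map Sum.inl, e.2.map Sum.inl) : Option (Y ⊕ Z) × Option (Y ⊕ Z)))
    have e2 := Finset.card_image_le (s := J)
      (f := fun e => ((e.1.map Sum.inr, e.2.map Sum.inr) : Option (Y ⊕ Z) × Option (Y ⊕ Z)))
    omega
  · intro G x
    have e1 : ∀ (v : Y ⊕ Z → V) (a : Option Y), ex v x (a.map Sum.inl) = ex (v ∘ Sum.inl) x a := by
      intro v a
      cases a <;> rfl
    have e2 : ∀ (v : Y ⊕ Z → V) (a : Option Z), ex v x (a.map Sum.inr) = ex (v ∘ Sum.inr) x a := by
      intro v a
      cases a <;> rfl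
    show f G x * g G x = _
    rw [h3, h6, ← Nat.cast_mul, ← Nat.card_prod]
    congr 1
    refine Nat.card_congr ⟨fun p => ⟨Sum.elim p.1.1 p.2.1, ?_⟩,
      fun v => (⟨v.1 ∘ Sum.inl, ?_⟩, ⟨v.1 ∘ Sum.inr, ?_⟩), ?_, ?_⟩
    · intro e he
      rcases Finset.mem_union.1 he with he | he
      · rw [Finset.mem_image] at he
        obtain ⟨e', he', rfl⟩ := he
        simp only [e1]
        exact p.1.2 e' he'
      · rw [Finset.mem_image] at he
        obtain ⟨e', he', rfl⟩ := he
        simp only [e2]
        exact p.2.2 e' he'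
    · intro e he
      rw [← e1, ← e1]
      exact v.2 _ (Finset.mem_union_left _ (Finset.mem_image_of_mem
        (fun e : Option Y × Option Y => ((e.1.map Sum.inl, e.2.map Sum.inl) :
          Option (Y ⊕ Z) × Option (Y ⊕ Z))) he))
    · intro e he
      rw [← e2, ← e2]
      exact v.2 _ (Finset.mem_union_right _ (Finset.mem_image_of_mem
        (fun e : Option Z × Option Z => ((e.1.map Sum.inr, e.2.map Sum.inr) :
          Option (Y ⊕ Z) × Option (Y ⊕ Z))) he))
    · intro p
      rfl
    · intro v
      apply Subtype.ext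
      funext y
      cases y <;> rfl

theorem rc_pow {k : ℕ} {f : SimpleGraph V → V → ℤ} (hf : IsRC k f) (j : ℕ) :
    IsRC (j * k) (fun G x => f G x ^ j) := by
  induction j with
  | zero => simpa using rc_one (V := V)
  | succ j ih =>
    have := rc_mul ih hf
    simp only [pow_succ]
    rw [Nat.succ_mul]
    exact this

theorem rc_nb {k : ℕ} {f : SimpleGraph V → V → ℤ} (hf : IsRC k f) :
    IsRC (k + 1) (fun G x => ∑ y, ind (G.Adj x y) * f G y) := by
  classical
  obtain ⟨Y, _, I, h1, h2, h3⟩ := hf
  refine ⟨Option Y, inferInstance, insert (none, some none) (I.image fun e => (some e.1, some e.2)),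
    ?_, ?_, ?_⟩
  · rw [Fintype.card_option]; omega
  · have := Finset.card_insert_le ((none, some none) : Option (Option Y) × Option (Option Y))
      (I.image fun e => (some e.1, some e.2))
    have e1 := Finset.card_image_le (s := I)
      (f := fun e => ((some e.1, some e.2) : Option (Option Y) × Option (Option Y)))
    omega
  · intro G x
    simp only [h3, card_ind]
    rw [← (Equiv.piOptionEquivProd (α := Y) (β := fun _ => V)).symm.sum_comp, Fintype.sum_prod_type]
    refine Finset.sum_congr rfl fun y _ => ?_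
    rw [Finset.mul_sum]
    refine Finset.sum_congr rfl fun v _ => ?_
    rw [← ind_and]
    congr 1
    have e1 : ∀ a : Option Y, ex ((Equiv.piOptionEquivProd (α := Y) (β := fun _ => V)).symm (y, v)) x
        (some a) = ex v y a := by
      intro a
      cases a <;> rfl
    apply propext
    constructor
    · rintro ⟨h4, h5⟩ e he
      rcases Finset.mem_insert.1 he with rfl | he
      · exact h4
      · rw [Finset.mem_image] at he
        obtain ⟨e', he', rfl⟩ := he
        simp only [e1]
        exact h5 e' he'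
    · intro h4
      refine ⟨h4 _ (Finset.mem_insert_self _ _), ?_⟩
      intro e he
      rw [← e1, ← e1]
      exact h4 _ (Finset.mem_insert_of_mem (Finset.mem_image_of_mem
        (fun e : Option Y × Option Y => ((some e.1, some e.2) :
          Option (Option Y) × Option (Option Y))) he))

theorem rc_dg : IsRC 1 (fun (G : SimpleGraph V) x => dg G x) := by
  have := rc_nb (rc_one (V := V))
  simpa [dg] using this

theorem rc_pw (j : ℕ) : IsRC (j + 1) (fun (G : SimpleGraph V) x => pw G j x) := by
  have := rc_nb (rc_pow (rc_dg (V := V)) j)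
  rw [mul_one] at this
  exact this

theorem rc_same {k m : ℕ} {f : SimpleGraph V → V → ℤ} (hf : IsRC k f) (hm : 2 * k + 2 ≤ m)
    (G G' : SimpleGraph V) (h : SameUpTo m G G') : ∑ x, f G x = ∑ x, f G' x := by
  classical
  obtain ⟨Y, _, I, h1, h2, h3⟩ := hf
  have key : ∀ D : SimpleGraph V, ∑ x, f D x =
      (HR D (fun r : Option Y → Option Y → Prop => ∀ e ∈ I, ¬ r e.1 e.2) I : ℤ) := by
    intro D
    unfold HR
    simp only [h3, card_ind]
    rw [← (Equiv.piOptionEquivProd (α := Y) (β := fun _ => V)).symm.sum_comp, Fintype.sum_prod_type]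
    refine Finset.sum_congr rfl fun x _ => ?_
    refine Finset.sum_congr rfl fun v _ => ?_
    congr 1
    have e1 : ∀ a : Option Y, ((Equiv.piOptionEquivProd (α := Y) (β := fun _ => V)).symm (x, v)) a =
        ex v x a := by
      intro a
      cases a <;> rfl
    apply propext
    simp only [e1]
    constructor
    · intro h4
      exact ⟨fun e he h5 => (h4 e he).ne h5, h4⟩
    · intro h4
      exact h4.2
  rw [key, key]
  congr 1
  refine HR_same G G' m h _ I ?_ ?_
  · rw [Fintype.card_option]; omega
  · intro r hr e he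
    exact hr e he

/-- The three statistics. -/
theorem same_Q {m i : ℕ} (hm : 2 * i + 6 ≤ m) (G G' : SimpleGraph V) (h : SameUpTo m G G') :
    ∑ x, dg G x ^ i * pw G 1 x = ∑ x, dg G' x ^ i * pw G' 1 x := by
  have := rc_mul (rc_pow (rc_dg (V := V)) i) (rc_pw 1)
  exact rc_same this (by omega) G G' h

theorem same_P {m i j : ℕ} (hm : 2 * (i + j) + 6 ≤ m) (G G' : SimpleGraph V)
    (h : SameUpTo m G G') : ∑ x, pw G i x * pw G j x = ∑ x, pw G' i x * pw G' j x := by
  have := rc_mul (rc_pw (V := V) i) (rc_pw j)
  exact rc_same this (by omega) G G' h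

theorem same_S {m i j : ℕ} (hm : 2 * (i + j) + 8 ≤ m) (G G' : SimpleGraph V)
    (h : SameUpTo m G G') : ∑ x, pw G i x * ∑ y, ind (G.Adj x y) * pw G j y =
      ∑ x, pw G' i x * ∑ y, ind (G'.Adj x y) * pw G' j y := by
  have := rc_mul (rc_pw (V := V) i) (rc_nb (rc_pw j))
  exact rc_same this (by omega) G G' h

end Pool.Agent.Lib_helper37.GC
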