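import Mathlib

/-!
# Few subsets have given power sums
-/

set_option autoImplicit false

open Finset

namespace Pool.Agent.Lib_helper37.GC

theorem central_sq (h : ℕ) : (2 * h + 1) * Nat.centralBinom h ^ 2 ≤ 16 ^ h := by
  induction h with
  | zero => simp
  | succ h ih =>
    have h1 := Nat.succ_mul_centralBinom_succ h
    have h2 : (h + 1) ^ 2 * ((2 * (h + 1) + 1) * Nat.centralBinom (h + 1) ^ 2) ≤
        (h + 1) ^ 2 * 16 ^ (h + 1) := by
      calc (h + 1) ^ 2 * ((2 * (h + 1) + 1) * Nat.centralBinom (h + 1) ^ 2) =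
          (2 * (h + 1) + 1) * ((h + 1) * Nat.centralBinom (h + 1)) ^ 2 := by ring
        _ = (4 * (2 * h + 3) * (2 * h + 1)) * ((2 * h + 1) * Nat.centralBinom h ^ 2) := by
            rw [h1]; ring
        _ ≤ (4 * (2 * h + 3) * (2 * h + 1)) * 16 ^ h := Nat.mul_le_mul_left _ ih
        _ ≤ (4 * (4 * (h + 1) ^ 2)) * 16 ^ h := by
            apply Nat.mul_le_mul_right
            nlinarith
        _ = (h + 1) ^ 2 * 16 ^ (h + 1) := by ring
    exact Nat.le_of_mul_le_mul_left h2 (by positivity)

/-- All binomial coefficients. -/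
theorem choose_sq (m k : ℕ) : (m + 1) * (m.choose k) ^ 2 ≤ 4 ^ m := by
  rcases Nat.even_or_odd' m with ⟨h, rfl | rfl⟩
  · calc (2 * h + 1) * ((2 * h).choose k) ^ 2 ≤ (2 * h + 1) * Nat.centralBinom h ^ 2 := by
          gcongr
          exact Nat.choose_le_centralBinom k h
      _ ≤ 16 ^ h := central_sq h
      _ = 4 ^ (2 * h) := by rw [pow_mul]; norm_num
  · have h1 : 2 * (2 * h + 1).choose k ≤ Nat.centralBinom (h + 1) := by
      have h2 : (2 * h + 1).choose k ≤ (2 * h + 1).choose h := by
        have := Nat.choose_le_middle k (2 * h + 1)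
        have h3 : (2 * h + 1) / 2 = h := by omega
        rwa [h3] at this
      have h4 : Nat.centralBinom (h + 1) = 2 * (2 * h + 1).choose h := by
        rw [Nat.centralBinom, show 2 * (h + 1) = (2 * h + 1) + 1 by ring, Nat.choose_succ_succ]
        have : (2 * h + 1).choose h.succ = (2 * h + 1).choose h := Nat.choose_symm_half h
        omega
      omega
    have h5 := central_sq (h + 1)
    have h6 : 4 * ((2 * h + 1 + 1) * ((2 * h + 1).choose k) ^ 2) ≤ 4 * 4 ^ (2 * h + 1) := by
      calc 4 * ((2 * h + 1 + 1) * ((2 * h + 1).choose k) ^ 2) =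
          (2 * h + 2) * (2 * (2 * h + 1).choose k) ^ 2 := by ring
        _ ≤ (2 * (h + 1) + 1) * Nat.centralBinom (h + 1) ^ 2 :=
            Nat.mul_le_mul (by omega) (Nat.pow_le_pow_left h1 2)
        _ ≤ 16 ^ (h + 1) := h5
        _ = 4 * 4 ^ (2 * h + 1) := by
            rw [show (16 : ℕ) = 4 ^ 2 by norm_num, ← pow_mul, ← pow_succ']
            congr 1
    exact Nat.le_of_mul_le_mul_left h6 (by norm_num)

theorem small_ball {α : Type} [DecidableEq α] (W : Finset α) (f : α → ℤ) (L h : ℕ)
    (t : Fin (L + 1) → ℤ) (ht : Function.Injective t)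
    (hK : ∀ c, 2 * h ≤ (W.filter fun w => f w = t c).card)
    (SS : Finset (Finset α)) (hsub : ∀ S ∈ SS, S ⊆ W)
    (hX : ∀ S ∈ SS, ∀ S' ∈ SS, ∀ j ≤ L, ∑ w ∈ S, f w ^ j = ∑ w ∈ S', f w ^ j) :
    SS.card ^ 2 * (2 * h + 1) ^ (L + 1) ≤ 4 ^ W.card := by
  classical
  choose K hKsub hKc using fun c => Finset.exists_subset_card_eq (hK c)
  have hKf : ∀ c, ∀ w ∈ K c, f w = t c := fun c w hw => (Finset.mem_filter.1 (hKsub c hw)).2
  have hKW : ∀ c, K c ⊆ W := fun c w hw => (Finset.mem_filter.1 (hKsub c hw)).1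
  have hdisj : ∀ c c', c ≠ c' → Disjoint (K c) (K c') := by
    intro c c' hcc
    rw [Finset.disjoint_left]
    intro w hw hw'
    exact hcc (ht ((hKf c w hw).symm.trans (hKf c' w hw')))
  set KK : Finset α := univ.biUnion K with hKK
  have hKKc : KK.card = (L + 1) * (2 * h) := by
    rw [hKK, Finset.card_biUnion (fun c _ c' _ hcc => hdisj c c' hcc), Finset.sum_congr rfl
      (fun c _ => hKc c)]
    simp
  have hKKW : KK ⊆ W := by
    intro w hw
    obtain ⟨c, _, hc⟩ := Finset.mem_biUnion.1 hw
    exact hKW c hc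
  -- sums over a set
  have hsum : ∀ (S : Finset α) (j : ℕ), ∑ w ∈ S, f w ^ j =
      ∑ w ∈ S \ KK, f w ^ j + ∑ c, ((S ∩ K c).card : ℤ) * t c ^ j := by
    intro S j
    rw [← Finset.sum_inter_add_sum_sdiff S KK (fun w => f w ^ j), add_comm]
    congr 1
    have h1 : S ∩ KK = univ.biUnion fun c => S ∩ K c := by
      rw [hKK]
      ext w
      simp only [Finset.mem_inter, Finset.mem_biUnion, Finset.mem_univ, true_and]
      constructor
      · rintro ⟨h1, c, hc⟩
        exact ⟨c, h1, hc⟩
      · rintro ⟨c, h1, hc⟩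
        exact ⟨h1, c, hc⟩
    rw [h1, Finset.sum_biUnion]
    · refine Finset.sum_congr rfl fun c _ => ?_
      rw [Finset.sum_congr rfl (g := fun _ => t c ^ j)]
      · rw [Finset.sum_const, nsmul_eq_mul]
      · intro w hw
        rw [hKf c w (Finset.mem_inter.1 hw).2]
    · intro c _ c' _ hcc
      exact (hdisj c c' hcc).mono Finset.inter_subset_right Finset.inter_subset_right
  have hfib : ∀ S ∈ SS, ∀ S' ∈ SS, S \ KK = S' \ KK → ∀ c, (S ∩ K c).card = (S' ∩ K c).card := by
    intro S hS S' hS' hR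
    have h1 : (fun c => ((S ∩ K c).card : ℤ) - (S' ∩ K c).card) = 0 := by
      refine Matrix.eq_zero_of_forall_pow_sum_mul_pow_eq_zero ht fun j => ?_
      have h2 := hX S hS S' hS' j (by omega)
      rw [hsum S j, hsum S' j, hR] at h2
      have h3 := add_left_cancel h2
      simp only [sub_mul, Finset.sum_sub_distrib]
      rw [h3, sub_self]
    intro c
    have := congrFun h1 c
    simp only [Pi.zero_apply] at this
    omega
  have hcount : SS.card ≤ Nat.centralBinom h ^ (L + 1) * (SS.image fun S => S \ KK).card := by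
    refine Finset.card_le_mul_card_image SS _ ?_
    intro R hR
    rw [Finset.mem_image] at hR
    obtain ⟨S0, hS0, hR⟩ := hR
    have h1 : (SS.filter fun S => S \ KK = R).card ≤
        (Fintype.piFinset fun c => Finset.powersetCard (S0 ∩ K c).card (K c)).card := by
      refine Finset.card_le_card_of_injOn (fun S c => S ∩ K c) ?_ ?_
      · intro S hS
        rw [Finset.mem_coe, Finset.mem_filter] at hS
        rw [Finset.mem_coe, Fintype.mem_piFinset]
        intro c
        rw [Finset.mem_powersetCard]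
        exact ⟨Finset.inter_subset_right, hfib S hS.1 S0 hS0 (hS.2.trans hR.symm) c⟩
      · intro S hS S' hS' h2
        rw [Finset.mem_coe, Finset.mem_filter] at hS hS'
        ext w
        by_cases hw : w ∈ KK
        · obtain ⟨c, _, hc⟩ := Finset.mem_biUnion.1 hw
          have h3 : S ∩ K c = S' ∩ K c := congrFun h2 c
          have h4 : w ∈ S ∩ K c ↔ w ∈ S' ∩ K c := by rw [h3]
          simpa [hc] using h4
        · have h3 : w ∈ S \ KK ↔ w ∈ S' \ KK := by rw [hS.2, hS'.2]
          simpa [hw] using h3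
    refine h1.trans ?_
    rw [Fintype.card_piFinset]
    calc ∏ c, (Finset.powersetCard (S0 ∩ K c).card (K c)).card ≤
        ∏ _c : Fin (L + 1), Nat.centralBinom h := by
          refine Finset.prod_le_prod (fun _ _ => Nat.zero_le _) fun c _ => ?_
          rw [Finset.card_powersetCard, hKc]
          exact Nat.choose_le_centralBinom _ h
      _ = Nat.centralBinom h ^ (L + 1) := by simp
  have himg : (SS.image fun S => S \ KK).card ≤ 2 ^ (W.card - KK.card) := by
    have h1 : (SS.image fun S => S \ KK) ⊆ (W \ KK).powerset := by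
      intro R hR
      rw [Finset.mem_image] at hR
      obtain ⟨S, hS, rfl⟩ := hR
      rw [Finset.mem_powerset]
      exact Finset.sdiff_subset_sdiff (hsub S hS) (Finset.Subset.refl _)
    refine (Finset.card_le_card h1).trans ?_
    rw [Finset.card_powerset, Finset.card_sdiff_of_subset hKKW]
  have hle : KK.card ≤ W.card := Finset.card_le_card hKKW
  calc SS.card ^ 2 * (2 * h + 1) ^ (L + 1) ≤
      (Nat.centralBinom h ^ (L + 1) * 2 ^ (W.card - KK.card)) ^ 2 * (2 * h + 1) ^ (L + 1) := by
        gcongr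
        exact hcount.trans (Nat.mul_le_mul_left _ himg)
    _ = ((2 * h + 1) * Nat.centralBinom h ^ 2) ^ (L + 1) * 4 ^ (W.card - KK.card) := by
        rw [mul_pow, mul_pow, ← pow_mul, ← pow_mul, ← pow_mul, mul_comm (W.card - KK.card) 2,
          pow_mul 2 2 (W.card - KK.card), mul_comm (L + 1) 2]
        norm_num
        ring
    _ ≤ (16 ^ h) ^ (L + 1) * 4 ^ (W.card - KK.card) := by
        gcongr
        exact central_sq h
    _ = 4 ^ W.card := by
        rw [← pow_mul, show (16 : ℕ) = 4 ^ 2 by norm_num, ← pow_mul, ← pow_add]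
        congr 1
        rw [hKKc] at hle ⊢
        have : 2 * (h * (L + 1)) = (L + 1) * (2 * h) := by ring
        omega

end Pool.Agent.Lib_helper37.GC
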