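import Pool.Agent.Lib_helper37.GC.Cases
import Pool.Agent.Lib_helper37.GC.SmallBall

/-!
# Changing the neighbours of one vertex
-/

set_option autoImplicit false

open Finset

namespace Pool.Agent.Lib_helper37.GC

variable {V : Type}

/-- The pairs between `x₀` and `W` are replaced by those between `x₀` and `W ∩ S`. -/
def tog (G : SimpleGraph V) (x0 : V) (W S : Finset V) : SimpleGraph V where
  Adj u v := u ≠ v ∧ ((u = x0 ∧ v ∈ W ∧ v ∈ S) ∨ (v = x0 ∧ u ∈ W ∧ u ∈ S) ∨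
    (¬ (u = x0 ∧ v ∈ W) ∧ ¬ (v = x0 ∧ u ∈ W) ∧ G.Adj u v))
  symm := ⟨fun u v h => ⟨h.1.symm, by
    rcases h.2 with h | h | h
    · exact Or.inr (Or.inl h)
    · exact Or.inl h
    · exact Or.inr (Or.inr ⟨h.2.1, h.1, h.2.2.symm⟩)⟩⟩
  loopless := ⟨fun u h => h.1 rfl⟩

section basic

variable {G : SimpleGraph V} {x0 : V} {W S : Finset V}

theorem tog_of_not {u v : V} (h1 : ¬ (u = x0 ∧ v ∈ W)) (h2 : ¬ (v = x0 ∧ u ∈ W)) :
    (tog G x0 W S).Adj u v ↔ G.Adj u v := by
  constructor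
  · rintro ⟨_, h | h | h⟩
    · exact absurd ⟨h.1, h.2.1⟩ h1
    · exact absurd ⟨h.1, h.2.1⟩ h2
    · exact h.2.2
  · intro h
    exact ⟨h.ne, Or.inr (Or.inr ⟨h1, h2, h⟩)⟩

theorem tog_x0 (hx0 : x0 ∉ W) {w : V} (hw : w ∈ W) : (tog G x0 W S).Adj x0 w ↔ w ∈ S := by
  have hne : x0 ≠ w := fun h => hx0 (h ▸ hw)
  constructor
  · rintro ⟨_, h | h | h⟩
    · exact h.2.2
    · exact absurd h.2.1 hx0
    · exact absurd ⟨rfl, hw⟩ h.1
  · intro h
    exact ⟨hne, Or.inl ⟨rfl, hw, h⟩⟩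

theorem graph_ext_of (hx0 : x0 ∉ W) {G1 G2 : SimpleGraph V}
    (h1 : ∀ w ∈ W, (G1.Adj x0 w ↔ G2.Adj x0 w))
    (h2 : ∀ u v, ¬ (u = x0 ∧ v ∈ W) → ¬ (v = x0 ∧ u ∈ W) → (G1.Adj u v ↔ G2.Adj u v)) :
    G1 = G2 := by
  ext u v
  by_cases h3 : u = x0 ∧ v ∈ W
  · rw [h3.1]; exact h1 v h3.2
  · by_cases h4 : v = x0 ∧ u ∈ W
    · rw [h4.1, G1.adj_comm, G2.adj_comm]; exact h1 u h4.2
    · exact h2 u v h3 h4

theorem tog_tog (hx0 : x0 ∉ W) (S' : Finset V) :
    tog (tog G x0 W S) x0 W S' = tog G x0 W S' := by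
  refine graph_ext_of hx0 ?_ ?_
  · intro w hw
    rw [tog_x0 hx0 hw, tog_x0 hx0 hw]
  · intro u v h1 h2
    rw [tog_of_not h1 h2, tog_of_not h1 h2, tog_of_not h1 h2]

theorem tog_self (hx0 : x0 ∉ W) (T : Finset V) (hT : ∀ w ∈ W, (w ∈ T ↔ G.Adj x0 w)) :
    tog G x0 W T = G := by
  refine graph_ext_of hx0 ?_ ?_
  · intro w hw
    rw [tog_x0 hx0 hw, hT w hw]
  · intro u v h1 h2
    rw [tog_of_not h1 h2]

end basic

/-- Counting by changing the neighbours of one vertex. -/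
theorem cond_count [Fintype V] (x0 : V) (Wf : SimpleGraph V → Finset V) (hx0 : ∀ G, x0 ∉ Wf G)
    (hinv : ∀ G S, Wf (tog G x0 (Wf G) S) = Wf G) (Q : SimpleGraph V → Prop) (K : ℕ)
    (h : ∀ G, Nat.card {S : Finset V // S ⊆ Wf G ∧ Q (tog G x0 (Wf G) S)} * K ≤ 2 ^ (Wf G).card) :
    Nat.card {G : SimpleGraph V // Q G} * K ≤ Nat.card (SimpleGraph V) := by
  classical
  set base : SimpleGraph V → SimpleGraph V := fun G => tog G x0 (Wf G) ∅ with hbase
  have hc : Nat.card {G : SimpleGraph V // Q G} = (univ.filter Q).card := by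
    rw [Nat.card_eq_fintype_card, Fintype.card_subtype]
  have hu : Nat.card (SimpleGraph V) = (univ : Finset (SimpleGraph V)).card := by
    rw [Nat.card_eq_fintype_card, Finset.card_univ]
  rw [hc, hu, Finset.card_eq_sum_card_fiberwise (f := base) (t := univ.image base)
    (fun G _ => Finset.mem_coe.2 (Finset.mem_image_of_mem _ (Finset.mem_univ _))),
    Finset.card_eq_sum_card_fiberwise (f := base) (s := univ) (t := univ.image base)
    (fun G _ => Finset.mem_coe.2 (Finset.mem_image_of_mem _ (Finset.mem_univ _))), Finset.sum_mul]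
  refine Finset.sum_le_sum fun B hB => ?_
  rw [Finset.mem_image] at hB
  obtain ⟨G1, _, hB⟩ := hB
  set W := Wf G1 with hW
  have hWf : ∀ G, base G = B → Wf G = W := by
    intro G hG
    have e1 : Wf (base G) = Wf G := hinv G ∅
    have e2 : Wf (base G1) = Wf G1 := hinv G1 ∅
    rw [← e1, hG, ← hB, e2]
  have hrec : ∀ G, base G = B → G = tog G1 x0 W (W.filter fun w => G.Adj x0 w) := by
    intro G hG
    have e1 := hWf G hG
    have e2 : tog G x0 W ∅ = tog G1 x0 W ∅ := by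
      rw [← e1]
      show base G = _
      rw [hG, ← hB, e1]
    have e3 : tog G x0 W (W.filter fun w => G.Adj x0 w) = G := by
      refine tog_self (hx0 G1) _ ?_
      intro w hw
      rw [Finset.mem_filter]
      exact ⟨fun h => h.2, fun h => ⟨hw, h⟩⟩
    calc G = tog G x0 W (W.filter fun w => G.Adj x0 w) := e3.symm
      _ = tog (tog G x0 W ∅) x0 W (W.filter fun w => G.Adj x0 w) := (tog_tog (hx0 G1) _).symm
      _ = tog (tog G1 x0 W ∅) x0 W (W.filter fun w => G.Adj x0 w) := by rw [e2]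
      _ = tog G1 x0 W (W.filter fun w => G.Adj x0 w) := tog_tog (hx0 G1) _
  have h1 : ((univ.filter Q).filter fun G => base G = B).card ≤
      Nat.card {S : Finset V // S ⊆ W ∧ Q (tog G1 x0 W S)} := by
    rw [Nat.card_eq_fintype_card, Fintype.card_subtype]
    refine Finset.card_le_card_of_injOn (fun G => W.filter fun w => G.Adj x0 w) ?_ ?_
    · intro G hG
      rw [Finset.mem_coe, Finset.mem_filter, Finset.mem_filter] at hG
      rw [Finset.mem_coe, Finset.mem_filter]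
      refine ⟨Finset.mem_univ _, Finset.filter_subset _ _, ?_⟩
      rw [← hrec G hG.2]
      exact hG.1.2
    · intro G hG G' hG' h2
      rw [Finset.mem_coe, Finset.mem_filter] at hG hG'
      rw [hrec G hG.2, hrec G' hG'.2]
      simp only at h2
      rw [h2]
  have h2 : 2 ^ W.card ≤ ((univ : Finset (SimpleGraph V)).filter fun G => base G = B).card := by
    rw [← Finset.card_powerset]
    refine Finset.card_le_card_of_injOn (fun S => tog G1 x0 W S) ?_ ?_
    · intro S _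
      rw [Finset.mem_coe, Finset.mem_filter]
      refine ⟨Finset.mem_univ _, ?_⟩
      show tog (tog G1 x0 W S) x0 (Wf (tog G1 x0 W S)) ∅ = B
      rw [hinv G1 S, tog_tog (hx0 G1)]
      exact hB
    · intro S hS S' hS' h3
      rw [Finset.mem_coe, Finset.mem_powerset] at hS hS'
      ext w
      by_cases hw : w ∈ W
      · have h4 : (tog G1 x0 W S).Adj x0 w ↔ (tog G1 x0 W S').Adj x0 w := by
          simp only at h3
          rw [h3]
        rwa [tog_x0 (hx0 G1) hw, tog_x0 (hx0 G1) hw] at h4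
      · exact ⟨fun h => absurd (hS h) hw, fun h => absurd (hS' h) hw⟩
  exact (Nat.mul_le_mul_right _ h1).trans ((h G1).trans h2)

section formulas

variable [Fintype V] {G : SimpleGraph V} {x0 : V} {W S : Finset V} (hx0 : x0 ∉ W) (hS : S ⊆ W)

include hx0 hS

theorem ind_tog (x y : V) : ind ((tog G x0 W S).Adj x y) = ind ((tog G x0 W ∅).Adj x y) +
    ind (x = x0) * ind (y ∈ S) + ind (y = x0) * ind (x ∈ S) := by
  by_cases h1 : x = x0 ∧ y ∈ W
  · obtain ⟨rfl, hy⟩ := h1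
    have hne : ¬ y = x := fun h => hx0 (h ▸ hy)
    rw [ind_congr (tog_x0 hx0 hy), ind_congr (tog_x0 hx0 hy), ind_pos (p := x = x) rfl,
      ind_neg hne, ind_neg (Finset.notMem_empty y)]
    ring
  · by_cases h2 : y = x0 ∧ x ∈ W
    · obtain ⟨rfl, hx⟩ := h2
      have hne : ¬ x = y := fun h => hx0 (h ▸ hx)
      rw [SimpleGraph.adj_comm, SimpleGraph.adj_comm (tog G y W ∅), ind_congr (tog_x0 hx0 hx),
        ind_congr (tog_x0 hx0 hx), ind_pos (p := y = y) rfl, ind_neg hne,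
        ind_neg (Finset.notMem_empty x)]
      ring
    · rw [ind_congr (tog_of_not h1 h2), ind_congr (tog_of_not h1 h2)]
      have e1 : ind (x = x0) * ind (y ∈ S) = 0 := by
        rw [← ind_and]
        exact ind_neg fun h => h1 ⟨h.1, hS h.2⟩
      have e2 : ind (y = x0) * ind (x ∈ S) = 0 := by
        rw [← ind_and]
        exact ind_neg fun h => h2 ⟨h.1, hS h.2⟩
      rw [e1, e2]; ring

omit hx0 hS in
theorem sum_ind_mem (S : Finset V) (g : V → ℤ) : ∑ y, ind (y ∈ S) * g y = ∑ y ∈ S, g y := by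
  classical
  rw [← Finset.sum_filter_add_sum_filter_not univ (fun y => y ∈ S)]
  have h1 : ∑ y ∈ univ.filter (fun y => y ∉ S), ind (y ∈ S) * g y = 0 :=
    Finset.sum_eq_zero fun y hy => by
      rw [ind_neg (Finset.mem_filter.1 hy).2, zero_mul]
  rw [h1, add_zero]
  have h2 : univ.filter (fun y => y ∈ S) = S := by ext; simp
  rw [h2]
  exact Finset.sum_congr rfl fun y hy => by rw [ind_pos hy, one_mul]

omit hx0 hS in
theorem sum_ind_eq (x : V) (g : V → ℤ) : ∑ y, ind (y = x) * g y = g x := by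
  rw [Finset.sum_eq_single x]
  · rw [ind_pos rfl, one_mul]
  · intro y _ hy
    rw [ind_neg hy, zero_mul]
  · intro h
    exact absurd (Finset.mem_univ _) h

theorem dg_tog (x : V) : dg (tog G x0 W S) x = dg (tog G x0 W ∅) x + ind (x = x0) * S.card +
    ind (x ∈ S) := by
  simp only [dg, ind_tog hx0 hS, Finset.sum_add_distrib]
  rw [← Finset.mul_sum]
  have h1 : ∑ y, ind (y ∈ S) = (S.card : ℤ) := by
    have := sum_ind_mem S (fun _ => (1 : ℤ))
    simpa using this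
  have h2 := sum_ind_eq x0 (fun _ => ind (x ∈ S))
  rw [h1, h2]

theorem dg_tog_pow (j : ℕ) (y : V) : dg (tog G x0 W S) y ^ j = dg (tog G x0 W ∅) y ^ j +
    ind (y = x0) * ((dg (tog G x0 W ∅) x0 + S.card) ^ j - dg (tog G x0 W ∅) x0 ^ j) +
    ind (y ∈ S) * ((dg (tog G x0 W ∅) y + 1) ^ j - dg (tog G x0 W ∅) y ^ j) := by
  rw [dg_tog hx0 hS]
  by_cases h1 : y = x0
  · subst h1
    have h2 : ¬ y ∈ S := fun h => hx0 (hS h)
    rw [ind_pos (p := y = y) rfl, ind_neg h2]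
    ring
  · by_cases h2 : y ∈ S
    · rw [ind_neg h1, ind_pos h2]
      ring
    · rw [ind_neg h1, ind_neg h2]
      ring

/-- The power sums at a vertex outside `W` whose adjacency to `W` is constant. -/
theorem pw_tog_other {u : V} (hu : u ≠ x0) (huW : u ∉ W) (c : ℤ)
    (hc : ∀ w ∈ W, ind (G.Adj u w) = c) (j : ℕ) :
    pw (tog G x0 W S) j u = ∑ y, ind ((tog G x0 W ∅).Adj u y) * dg (tog G x0 W ∅) y ^ j +
      ind ((tog G x0 W ∅).Adj u x0) *
        ((dg (tog G x0 W ∅) x0 + S.card) ^ j - dg (tog G x0 W ∅) x0 ^ j) +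
      c * ∑ w ∈ S, ((dg (tog G x0 W ∅) w + 1) ^ j - dg (tog G x0 W ∅) w ^ j) := by
  have h1 : ∀ y, ind ((tog G x0 W S).Adj u y) = ind ((tog G x0 W ∅).Adj u y) := by
    intro y
    rw [ind_tog hx0 hS, ind_neg hu, ind_neg (fun h : u ∈ S => huW (hS h))]
    ring
  have h2 : ∀ w ∈ S, ind ((tog G x0 W ∅).Adj u w) = c := by
    intro w hw
    rw [← hc w (hS hw)]
    refine ind_congr (tog_of_not (fun h => hu h.1) (fun h => huW h.2))
  have h3 : ∑ w ∈ S, ind ((tog G x0 W ∅).Adj u w) *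
        ((dg (tog G x0 W ∅) w + 1) ^ j - dg (tog G x0 W ∅) w ^ j) =
      c * ∑ w ∈ S, ((dg (tog G x0 W ∅) w + 1) ^ j - dg (tog G x0 W ∅) w ^ j) := by
    rw [Finset.mul_sum]
    exact Finset.sum_congr rfl fun w hw => by rw [h2 w hw]
  rw [← h3, ← sum_ind_mem S, ← sum_ind_eq x0 (fun y => ind ((tog G x0 W ∅).Adj u y) *
        ((dg (tog G x0 W ∅) x0 + S.card) ^ j - dg (tog G x0 W ∅) x0 ^ j)), pw]
  simp only [h1, dg_tog_pow hx0 hS j, ← Finset.sum_add_distrib]
  refine Finset.sum_congr rfl fun y _ => ?_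
  ring

/-- The power sums at `x₀`. -/
theorem pw_tog_x0 (j : ℕ) :
    pw (tog G x0 W S) j x0 = ∑ y, ind ((tog G x0 W ∅).Adj x0 y) * dg (tog G x0 W ∅) y ^ j +
      ∑ w ∈ S, (dg (tog G x0 W ∅) w + 1) ^ j := by
  have hxS : ¬ x0 ∈ S := fun h => hx0 (hS h)
  rw [← sum_ind_mem S, pw, ← Finset.sum_add_distrib]
  refine Finset.sum_congr rfl fun y _ => ?_
  rw [ind_tog hx0 hS, dg_tog_pow hx0 hS, ind_pos (p := x0 = x0) rfl, ind_neg hxS]
  by_cases h1 : y = x0
  · subst h1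
    rw [ind_neg hxS, ind_neg ((tog G y W ∅).irrefl)]
    ring
  · by_cases h2 : y ∈ S
    · have h3 : ¬ (tog G x0 W ∅).Adj x0 y := by
        rw [tog_x0 hx0 (hS h2)]
        exact Finset.notMem_empty y
      rw [ind_neg h1, ind_pos h2, ind_neg h3]
      ring
    · rw [ind_neg h1, ind_neg h2]
      ring

end formulas

/-- The differences are determined by the lower power sums. -/
theorem Z_det (e : V → ℤ) (S S' : Finset V) (j : ℕ)
    (h : ∀ k < j, ∑ w ∈ S, (e w + 1) ^ k = ∑ w ∈ S', (e w + 1) ^ k) :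
    ∑ w ∈ S, ((e w + 1) ^ j - e w ^ j) = ∑ w ∈ S', ((e w + 1) ^ j - e w ^ j) := by
  have key : ∀ w, (e w + 1) ^ j - e w ^ j =
      - ∑ k ∈ Finset.range j, ((-1 : ℤ) ^ (j - k) * (j.choose k : ℤ)) * (e w + 1) ^ k := by
    intro w
    have h1 := add_pow (e w + 1) (-1) j
    rw [Finset.sum_range_succ, Nat.sub_self, pow_zero, Nat.choose_self, Nat.cast_one, mul_one,
      mul_one, add_neg_cancel_right] at h1
    have h2 : ∑ k ∈ Finset.range j, (e w + 1) ^ k * (-1) ^ (j - k) * (j.choose k : ℤ) =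
        ∑ k ∈ Finset.range j, ((-1 : ℤ) ^ (j - k) * (j.choose k : ℤ)) * (e w + 1) ^ k :=
      Finset.sum_congr rfl fun k _ => by ring
    rw [h2] at h1
    linarith
  simp only [key, Finset.sum_neg_distrib]
  rw [Finset.sum_comm, Finset.sum_comm (s := S')]
  congr 1
  refine Finset.sum_congr rfl fun k hk => ?_
  rw [← Finset.mul_sum, ← Finset.mul_sum, h k (Finset.mem_range.1 hk)]

end Pool.Agent.Lib_helper37.GC
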