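import Pool.Agent.Lib_helper37.GC.CountMain2

/-!
# The typical graphs
-/

set_option autoImplicit false

open Finset

namespace Pool.Agent.Lib_helper37.GC

variable {V : Type} [Fintype V]

theorem typ_of (G : SimpleGraph V) (u L h A R τ : ℕ) (hτ : 0 < τ)
    (hA : ∑ w, (2 * dg G w - (Fintype.card V - 1)) ^ 2 ≤ (A : ℤ))
    (hR : Nat.card {p : V × V // p.1 ≠ p.2 ∧ |dg G p.1 - dg G p.2| ≤ 1} ≤ R)
    (h1 : 4 * A * 2 ^ u ≤ τ ^ 2 * Fintype.card V)
    (h2 : 8 * (τ + 4) * h * 2 ^ u ≤ Fintype.card V)
    (h3 : 4 * L * 4 ^ u * (Fintype.card V + R) < Fintype.card V ^ 2) : Typ u L h G := by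
  classical
  intro W hW f hf
  set n := Fintype.card V with hn
  set q := W.card with hq
  set Bd := W.filter fun w => (τ : ℤ) ≤ |2 * dg G w - (n - 1)| with hBd
  have hu : 0 < 2 ^ u := by positivity
  -- the vertices with a far degree
  have hBd1 : Bd.card * τ ^ 2 ≤ A := by
    have e1 : ((Bd.card * τ ^ 2 : ℕ) : ℤ) ≤ A := by
      calc ((Bd.card * τ ^ 2 : ℕ) : ℤ) = ∑ _w ∈ Bd, (τ : ℤ) ^ 2 := by
            rw [Finset.sum_const, nsmul_eq_mul]; push_cast; ring
        _ ≤ ∑ w ∈ Bd, (2 * dg G w - (n - 1)) ^ 2 := by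
            refine Finset.sum_le_sum fun w hw => ?_
            have := (Finset.mem_filter.1 hw).2
            rw [← sq_abs (2 * dg G w - (n - 1))]
            exact pow_le_pow_left₀ (by positivity) this 2
        _ ≤ ∑ w, (2 * dg G w - (n - 1)) ^ 2 :=
            Finset.sum_le_sum_of_subset_of_nonneg (Finset.subset_univ _)
              (fun _ _ _ => sq_nonneg _)
        _ ≤ A := hA
    exact_mod_cast e1
  have hBd2 : 4 * Bd.card ≤ q := by
    have e1 : (τ ^ 2 * 2 ^ u) * (4 * Bd.card) ≤ (τ ^ 2 * 2 ^ u) * q := by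
      calc (τ ^ 2 * 2 ^ u) * (4 * Bd.card) = 4 * (Bd.card * τ ^ 2) * 2 ^ u := by ring
        _ ≤ 4 * A * 2 ^ u := by gcongr
        _ ≤ τ ^ 2 * n := h1
        _ ≤ τ ^ 2 * (q * 2 ^ u) := Nat.mul_le_mul_left _ hW
        _ = (τ ^ 2 * 2 ^ u) * q := by ring
    exact Nat.le_of_mul_le_mul_left e1 (by positivity)
  -- the classes
  set s : ℤ → ℕ := fun t => (W.filter fun w => f w = t).card with hs
  set TT := (W.image f).filter fun t => 2 * h ≤ s t with hTT
  have hmain : L + 1 ≤ TT.card := by
    by_contra hcon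
    have hTL : TT.card ≤ L := by omega
    set small := (W \ Bd).filter fun w => s (f w) < 2 * h with hsm
    set big := W.filter fun w => 2 * h ≤ s (f w) with hbg
    have hcov : W ⊆ Bd ∪ (small ∪ big) := by
      intro w hw
      by_cases hw1 : w ∈ Bd
      · exact Finset.mem_union_left _ hw1
      · apply Finset.mem_union_right
        rcases Nat.lt_or_ge (s (f w)) (2 * h) with h' | h'
        · exact Finset.mem_union_left _ (Finset.mem_filter.2 ⟨Finset.mem_sdiff.2 ⟨hw, hw1⟩, h'⟩)
        · exact Finset.mem_union_right _ (Finset.mem_filter.2 ⟨hw, h'⟩)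
    have hsmall : small.card ≤ 2 * h * (τ + 4) := by
      have e1 : small.card ≤ (2 * h) * (small.image f).card := by
        refine Finset.card_le_mul_card_image small _ ?_
        intro t ht
        rw [Finset.mem_image] at ht
        obtain ⟨w, hw, hwt⟩ := ht
        have e2 := (Finset.mem_filter.1 hw).2
        rw [hwt] at e2
        refine le_trans (Finset.card_le_card ?_) e2.le
        intro w' hw'
        rw [Finset.mem_filter] at hw' ⊢
        exact ⟨(Finset.mem_sdiff.1 (Finset.mem_filter.1 hw'.1).1).1, hw'.2⟩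
      have e2 : (small.image f).card ≤ τ + 4 := by
        have e3 : small.image f ⊆ Finset.Icc (((n : ℤ) - 1 - τ - 2) / 2)
            (((n : ℤ) - 1 + τ + 2) / 2) := by
          intro t ht
          rw [Finset.mem_image] at ht
          obtain ⟨w, hw, rfl⟩ := ht
          have e4 := Finset.mem_sdiff.1 (Finset.mem_filter.1 hw).1
          have e5 : |2 * dg G w - ((n : ℤ) - 1)| < τ := by
            by_contra h'
            push Not at h'
            exact e4.2 (Finset.mem_filter.2 ⟨e4.1, h'⟩)
          rw [abs_lt] at e5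
          rw [Finset.mem_Icc]
          rcases hf w with h' | h' <;> omega
        refine (Finset.card_le_card e3).trans ?_
        rw [Int.card_Icc]
        omega
      exact e1.trans (Nat.mul_le_mul_left _ e2)
    have hsmall4 : 4 * small.card ≤ q := by
      have e1 : 2 ^ u * (4 * small.card) ≤ 2 ^ u * q := by
        calc 2 ^ u * (4 * small.card) ≤ 2 ^ u * (4 * (2 * h * (τ + 4))) := by gcongr
          _ = 8 * (τ + 4) * h * 2 ^ u := by ring
          _ ≤ n := h2
          _ ≤ q * 2 ^ u := hW
          _ = 2 ^ u * q := by ring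
      exact Nat.le_of_mul_le_mul_left e1 hu
    have hbig : big.card ≤ ∑ t ∈ TT, s t := by
      have e1 : big ⊆ TT.biUnion fun t => W.filter fun w => f w = t := by
        intro w hw
        rw [Finset.mem_filter] at hw
        rw [Finset.mem_biUnion]
        exact ⟨f w, Finset.mem_filter.2 ⟨Finset.mem_image_of_mem f hw.1, hw.2⟩,
          Finset.mem_filter.2 ⟨hw.1, rfl⟩⟩
      exact (Finset.card_le_card e1).trans Finset.card_biUnion_le
    have hcs : (∑ t ∈ TT, s t) ^ 2 ≤ TT.card * ∑ t ∈ TT, s t ^ 2 := sq_sum_le_card_mul_sum_sq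
    have hpairs : ∑ t ∈ TT, s t ^ 2 ≤ n + R := by
      have e1 : ∑ t ∈ TT, s t ^ 2 = (TT.biUnion fun t => (W.filter fun w => f w = t) ×ˢ
          (W.filter fun w => f w = t)).card := by
        rw [Finset.card_biUnion]
        · refine Finset.sum_congr rfl fun t _ => ?_
          rw [Finset.card_product, sq]
        · intro t _ t' _ htt
          refine Finset.disjoint_left.2 ?_
          rintro ⟨a, b⟩ ha hb
          rw [Finset.mem_product, Finset.mem_filter] at ha hb
          exact htt (ha.1.2.symm.trans hb.1.2)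
      rw [e1]
      have e2 : (TT.biUnion fun t => (W.filter fun w => f w = t) ×ˢ
          (W.filter fun w => f w = t)) ⊆ (univ.image fun w : V => (w, w)) ∪
          (univ.filter fun p : V × V => p.1 ≠ p.2 ∧ |dg G p.1 - dg G p.2| ≤ 1) := by
        intro p hp
        rw [Finset.mem_biUnion] at hp
        obtain ⟨t, _, hp⟩ := hp
        rw [Finset.mem_product, Finset.mem_filter, Finset.mem_filter] at hp
        by_cases hpp : p.1 = p.2
        · apply Finset.mem_union_left
          rw [Finset.mem_image]
          exact ⟨p.1, Finset.mem_univ _, Prod.ext rfl hpp⟩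
        · apply Finset.mem_union_right
          rw [Finset.mem_filter]
          refine ⟨Finset.mem_univ _, hpp, ?_⟩
          rw [abs_le]
          have e3 := hp.1.2
          have e4 := hp.2.2
          rcases hf p.1 with h' | h' <;> rcases hf p.2 with h'' | h'' <;> omega
      refine (Finset.card_le_card e2).trans ((Finset.card_union_le _ _).trans ?_)
      refine Nat.add_le_add ?_ ?_
      · refine Finset.card_image_le.trans ?_
        rw [Finset.card_univ]
      · rw [Nat.card_eq_fintype_card, Fintype.card_subtype] at hR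
        exact hR
    have hqb : q ≤ 2 * big.card := by
      have e1 := Finset.card_le_card hcov
      have e2 := Finset.card_union_le Bd (small ∪ big)
      have e3 := Finset.card_union_le small big
      omega
    have e1 : q ^ 2 ≤ 4 * L * (n + R) := by
      calc q ^ 2 ≤ (2 * ∑ t ∈ TT, s t) ^ 2 := by
            gcongr
            omega
        _ = 4 * (∑ t ∈ TT, s t) ^ 2 := by ring
        _ ≤ 4 * (TT.card * ∑ t ∈ TT, s t ^ 2) := by gcongr
        _ ≤ 4 * (L * (n + R)) := by gcongr
        _ = 4 * L * (n + R) := by ring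
    have e2 : n ^ 2 ≤ 4 * L * 4 ^ u * (n + R) := by
      calc n ^ 2 ≤ (q * 2 ^ u) ^ 2 := by gcongr
        _ = q ^ 2 * 4 ^ u := by
            rw [mul_pow, ← pow_mul, mul_comm u 2, pow_mul]; norm_num
        _ ≤ 4 * L * (n + R) * 4 ^ u := by gcongr
        _ = 4 * L * 4 ^ u * (n + R) := by ring
    omega
  obtain ⟨T', hT', hT'c⟩ := Finset.exists_subset_card_eq hmain
  refine ⟨fun c => (T'.equivFinOfCardEq hT'c).symm c, ?_, ?_⟩
  · intro a b hab
    exact (T'.equivFinOfCardEq hT'c).symm.injective (Subtype.ext hab)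
  · intro c
    have e1 := hT' ((T'.equivFinOfCardEq hT'c).symm c).2
    have e2 := (Finset.mem_filter.1 e1).2
    refine e2.trans (le_of_eq ?_)
    rw [Nat.card_eq_fintype_card, Fintype.card_subtype]
    simp only [hs]
    congr 1
    ext w
    simp

end Pool.Agent.Lib_helper37.GC
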