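import Pool.Agent.Lib_helper37.GC.CountD

/-!
# The union bound
-/

set_option autoImplicit false

open Finset

namespace Pool.Agent.Lib_helper37.GC

variable {V : Type} [Fintype V]

/-- The smaller number of statistics. -/
def La (r : ℕ) : ℕ := 64 * r + 159

/-- The larger number of statistics. -/
def Lb (r : ℕ) : ℕ := 16 * (2 * ((64 * r + 160) * (64 * r + 160)) + 4 * r + 7) + 15

theorem La_succ (r : ℕ) : La r + 1 = 16 * (4 * r + 10) := by
  unfold La; ring

theorem Lb_succ (r : ℕ) : Lb r + 1 = 16 * (2 * ((La r + 1) * (La r + 1)) + 4 * r + 8) := by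
  unfold Lb La; ring

theorem Lb_bound (r : ℕ) (hr : 1 ≤ r) : 4 * Lb r + 8 ≤ 10000000 * (r * r) := by
  unfold Lb
  nlinarith

theorem Lb_mono {r s : ℕ} (h : r ≤ s) : Lb r ≤ Lb s := by
  unfold Lb
  gcongr

theorem La_le_Lb (r : ℕ) : La r ≤ Lb r := by
  have h1 := La_succ r
  have h2 := Lb_succ r
  have h3 : La r + 1 ≤ (La r + 1) * (La r + 1) := Nat.le_mul_of_pos_left _ (by omega)
  omega

theorem one_D (D : Finset (Sym2 V)) (hD : ∀ e ∈ D, ¬ e.IsDiag) (r h : ℕ) (hr : D.card = r)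
    (hr1 : 1 ≤ r) (hn1 : Fintype.card V + 1 ≤ (2 * h + 1) ^ 16)
    (hn2 : 4 ^ r ≤ Fintype.card V + 1) (hn3 : 4 * r ≤ Fintype.card V)
    (hn4 : 28 ≤ Fintype.card V) (T : SimpleGraph V → Prop) (hT : ∀ G, T G → Typ (2 * r) (Lb r) h G) :
    Nat.card {G : SimpleGraph V // T G ∧ SameUpTo (10000000 * (r * r)) G (sd G D)} *
      (Fintype.card V + 1) ^ (2 * r + 1) ≤ Nat.card (SimpleGraph V) := by
  classical
  set n := Fintype.card V with hn
  obtain ⟨e, he⟩ : D.Nonempty := by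
    rw [← Finset.card_pos]; omega
  induction e using Sym2.ind with
  | _ x1 z1 =>
    have h4 : 2 ^ (2 * r) = 4 ^ r := by rw [pow_mul]; norm_num
    have h0 := count_D D hD x1 z1 he r (La r) (Lb r) h (10000000 * (r * r)) ((n + 1) ^ (2 * r + 3)) hr
      (La_le_Lb r) (by unfold La; omega) (by unfold La; omega) (Lb_bound r hr1) hn3 T hT ?_ ?_
    · have h1 : n + n * r + (La r + 1) + 1 ≤ (n + 1) ^ 2 := by
        unfold La
        have h2 : 4 * (n * r) ≤ n * n := by
          calc 4 * (n * r) = n * (4 * r) := by ring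
            _ ≤ n * n := Nat.mul_le_mul_left _ hn3
        nlinarith
      have h2 : (n + 1) ^ 2 * (Nat.card {G : SimpleGraph V //
          T G ∧ SameUpTo (10000000 * (r * r)) G (sd G D)} * (n + 1) ^ (2 * r + 1)) ≤
          (n + 1) ^ 2 * Nat.card (SimpleGraph V) := by
        calc (n + 1) ^ 2 * (Nat.card {G : SimpleGraph V //
            T G ∧ SameUpTo (10000000 * (r * r)) G (sd G D)} * (n + 1) ^ (2 * r + 1)) =
            Nat.card {G : SimpleGraph V //
            T G ∧ SameUpTo (10000000 * (r * r)) G (sd G D)} * (n + 1) ^ (2 * r + 3) := by ring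
          _ ≤ (n + n * r + (La r + 1) + 1) * Nat.card (SimpleGraph V) := h0
          _ ≤ (n + 1) ^ 2 * Nat.card (SimpleGraph V) := Nat.mul_le_mul_right _ h1
      exact Nat.le_of_mul_le_mul_left h2 (by positivity)
    · rw [h4]
      calc ((n + 1) * (4 ^ r * (n + 1) ^ (2 * r + 3))) ^ 2 ≤
          ((n + 1) * ((n + 1) * (n + 1) ^ (2 * r + 3))) ^ 2 := by gcongr
        _ = (n + 1) ^ (4 * r + 10) := by ring
        _ ≤ ((2 * h + 1) ^ 16) ^ (4 * r + 10) := by gcongr
        _ = (2 * h + 1) ^ (La r + 1) := by rw [La_succ, ← pow_mul]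
    · rw [h4]
      calc ((n + 1) ^ ((La r + 1) * (La r + 1)) * (4 ^ r * (n + 1) ^ (2 * r + 3))) ^ 2 ≤
          ((n + 1) ^ ((La r + 1) * (La r + 1)) * ((n + 1) * (n + 1) ^ (2 * r + 3))) ^ 2 := by gcongr
        _ = (n + 1) ^ (2 * ((La r + 1) * (La r + 1)) + 4 * r + 8) := by ring
        _ ≤ ((2 * h + 1) ^ 16) ^ (2 * ((La r + 1) * (La r + 1)) + 4 * r + 8) := by gcongr
        _ = (2 * h + 1) ^ (Lb r + 1) := by rw [Lb_succ, ← pow_mul]

theorem card_sym2_le [DecidableEq V] : Fintype.card (Sym2 V) ≤ Fintype.card V ^ 2 := by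
  have h1 : Function.Surjective (fun p : V × V => s(p.1, p.2)) := by
    intro e
    induction e using Sym2.ind with
    | _ a b => exact ⟨(a, b), rfl⟩
  have h2 := Fintype.card_le_of_surjective _ h1
  rwa [Fintype.card_prod, ← sq] at h2

theorem all_D (ρ h : ℕ) (hn1 : Fintype.card V + 1 ≤ (2 * h + 1) ^ 16)
    (hn2 : 4 ^ ρ ≤ Fintype.card V + 1) (hn3 : 4 * ρ ≤ Fintype.card V)
    (hn4 : 28 ≤ Fintype.card V) (T : SimpleGraph V → Prop)
    (hT : ∀ r ≤ ρ, ∀ G, T G → Typ (2 * r) (Lb r) h G) :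
    Nat.card {G : SimpleGraph V // ∃ r ∈ Finset.Icc 1 ρ, ∃ D : Finset (Sym2 V),
      (D.card = r ∧ ∀ e ∈ D, ¬ e.IsDiag) ∧
      T G ∧ SameUpTo (10000000 * (r * r)) G (sd G D)} * (Fintype.card V + 1) ≤
      ρ * Nat.card (SimpleGraph V) := by
  classical
  set n := Fintype.card V with hn
  refine le_trans (Nat.mul_le_mul_right _ (card_mono _ (fun G => ∃ r ∈ Finset.Icc 1 ρ,
    ∃ D ∈ Finset.powersetCard r (univ.filter fun e : Sym2 V => ¬ e.IsDiag),
      T G ∧ SameUpTo (10000000 * (r * r)) G (sd G D)) ?_)) ?_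
  · rintro G ⟨r, hr, D, ⟨hD1, hD2⟩, hD3⟩
    refine ⟨r, hr, D, ?_, hD3⟩
    rw [Finset.mem_powersetCard]
    exact ⟨fun e he => Finset.mem_filter.2 ⟨Finset.mem_univ _, hD2 e he⟩, hD1⟩
  have h1 := card_ex_le (Ω := SimpleGraph V) (Finset.Icc 1 ρ)
    (fun r G => ∃ D ∈ Finset.powersetCard r (univ.filter fun e : Sym2 V => ¬ e.IsDiag),
      T G ∧ SameUpTo (10000000 * (r * r)) G (sd G D)) (Nat.card (SimpleGraph V)) (n + 1) ?_
  · rw [Nat.card_Icc] at h1
    simpa using h1
  · intro r hr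
    rw [Finset.mem_Icc] at hr
    have h2 := card_ex_le (Ω := SimpleGraph V)
      (Finset.powersetCard r (univ.filter fun e : Sym2 V => ¬ e.IsDiag))
      (fun D G => T G ∧ SameUpTo (10000000 * (r * r)) G (sd G D)) (Nat.card (SimpleGraph V))
      ((n + 1) ^ (2 * r + 1)) ?_
    · have h3 : (Finset.powersetCard r (univ.filter fun e : Sym2 V => ¬ e.IsDiag)).card ≤
          (n + 1) ^ (2 * r) := by
        rw [Finset.card_powersetCard]
        calc ((univ.filter fun e : Sym2 V => ¬ e.IsDiag).card).choose r ≤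
            (Fintype.card (Sym2 V)).choose r := Nat.choose_le_choose r (Finset.card_le_univ _)
          _ ≤ (Fintype.card (Sym2 V)) ^ r := Nat.choose_le_pow _ _
          _ ≤ (n ^ 2) ^ r := Nat.pow_le_pow_left card_sym2_le r
          _ ≤ ((n + 1) ^ 2) ^ r := by gcongr; omega
          _ = (n + 1) ^ (2 * r) := by rw [← pow_mul]
      have h4 : (n + 1) ^ (2 * r) * (Nat.card {G : SimpleGraph V // ∃ D ∈ Finset.powersetCard r
          (univ.filter fun e : Sym2 V => ¬ e.IsDiag),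
          T G ∧ SameUpTo (10000000 * (r * r)) G (sd G D)} * (n + 1)) ≤
          (n + 1) ^ (2 * r) * Nat.card (SimpleGraph V) := by
        calc _ = Nat.card {G : SimpleGraph V // ∃ D ∈ Finset.powersetCard r
          (univ.filter fun e : Sym2 V => ¬ e.IsDiag),
          T G ∧ SameUpTo (10000000 * (r * r)) G (sd G D)} * (n + 1) ^ (2 * r + 1) := by ring
          _ ≤ _ := h2
          _ ≤ _ := Nat.mul_le_mul_right _ h3
      exact Nat.le_of_mul_le_mul_left h4 (by positivity)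
    · intro D hD
      rw [Finset.mem_powersetCard] at hD
      refine one_D D (fun e he => (Finset.mem_filter.1 (hD.1 he)).2) r h hD.2 hr.1 hn1 ?_ ?_ hn4 T
        (hT r hr.2)
      · exact le_trans (Nat.pow_le_pow_right (by norm_num) hr.2) hn2
      · omega

end Pool.Agent.Lib_helper37.GC
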