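import Pool.Agent.Lib_helper37.GC.Pattern

/-!
# Changing a colouring at one vertex
-/

set_option autoImplicit false

namespace Pool.Agent.Lib_helper37.GC

section raw

variable {V K : Type} [DecidableEq V]

theorem dif_upd (c : V → K) (v : V) (x : K) (hx : x ≠ c v) :
    ∃! w, c w ≠ Function.update c v x w := by
  refine ⟨v, ?_, ?_⟩
  · simpa using hx.symm
  · intro w hw
    by_contra h
    simp [h] at hw

theorem upd_of_dif (c l : V → K) (h : ∃! w, c w ≠ l w) :
    ∃ v, l v ≠ c v ∧ l = Function.update c v (l v) := by
  obtain ⟨v, h1, h2⟩ := h
  refine ⟨v, fun h => h1 h.symm, ?_⟩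
  funext w
  by_cases hw : w = v
  · subst hw; simp
  · rw [Function.update_of_ne hw]
    by_contra h3
    exact hw (h2 w fun h4 => h3 h4.symm)

theorem upd_upd (c : V → K) (v w : V) (x y : K) (hx : x ≠ c v) (hy : y ≠ c w) :
    (Function.update c v x = Function.update c w y ∨
      ∃! u, Function.update c v x u ≠ Function.update c w y u) ↔ v = w := by
  constructor
  · intro h
    by_contra hvw
    have h1 : Function.update c v x v ≠ Function.update c w y v := by
      rw [Function.update_self, Function.update_of_ne hvw]; exact hx
    have h2 : Function.update c v x w ≠ Function.update c w y w := by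
      rw [Function.update_self, Function.update_of_ne (Ne.symm hvw)]; exact hy.symm
    rcases h with h | ⟨u, _, h4⟩
    · exact h1 (congrFun h v)
    · exact hvw ((h4 v h1).trans (h4 w h2).symm)
  · rintro rfl
    by_cases hxy : x = y
    · left; rw [hxy]
    · right
      refine ⟨v, by simpa using hxy, ?_⟩
      intro u hu
      by_contra h
      simp [h] at hu

theorem corner (c m : V → K) (v w : V) (x y : K) (hvw : v ≠ w) (hx : x ≠ c v) (hy : y ≠ c w) :
    (m ≠ c ∧ (∃! u, m u ≠ Function.update c v x u) ∧ ∃! u, m u ≠ Function.update c w y u) ↔
      m = Function.update (Function.update c v x) w y := by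
  constructor
  · rintro ⟨hm, ⟨p, hp, hp'⟩, q, hq, hq'⟩
    simp only at hp' hq'
    have h1 : ∀ u, u ≠ p → m u = Function.update c v x u := fun u hu => by
      by_contra h; exact hu (hp' u h)
    have h2 : ∀ u, u ≠ q → m u = Function.update c w y u := fun u hu => by
      by_contra h; exact hu (hq' u h)
    -- at `v` and at `w` the two functions differ
    have hv : v = p ∨ v = q := by
      by_contra h
      push Not at h
      have := (h1 v h.1).symm.trans (h2 v h.2)
      rw [Function.update_self, Function.update_of_ne hvw] at this
      exact hx this
    have hw : w = p ∨ w = q := by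
      by_contra h
      push Not at h
      have := (h1 w h.1).symm.trans (h2 w h.2)
      rw [Function.update_self, Function.update_of_ne (Ne.symm hvw)] at this
      exact hy this.symm
    rcases hv with rfl | rfl
    · rcases hw with rfl | rfl
      · exact absurd rfl hvw
      · exfalso
        apply hm
        funext u
        by_cases hu : u = v
        · subst hu
          rw [h2 _ hvw, Function.update_of_ne hvw]
        · rw [h1 u hu, Function.update_of_ne hu]
    · rcases hw with rfl | rfl
      · funext u
        by_cases hu : u = w
        · subst hu
          rw [h2 _ (Ne.symm hvw), Function.update_self, Function.update_self]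
        · rw [Function.update_of_ne hu, h1 u hu]
      · exact absurd rfl hvw
  · rintro rfl
    refine ⟨?_, ⟨w, ?_, ?_⟩, ⟨v, ?_, ?_⟩⟩
    · intro h
      have := congrFun h w
      rw [Function.update_self] at this
      exact hy this
    · simp only [Function.update_self, Function.update_of_ne (Ne.symm hvw)]
      exact hy
    · intro u hu
      by_contra h
      rw [Function.update_of_ne h] at hu
      exact hu rfl
    · simp only [Function.update_self, Function.update_of_ne hvw]
      exact hx
    · intro u hu
      by_contra h
      apply hu
      by_cases h2 : u = w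
      · subst h2; simp
      · rw [Function.update_of_ne h2, Function.update_of_ne h2, Function.update_of_ne h]

end raw

variable {V : Type}

/-- `x` may replace the colour of `v`. -/
def Free (G : SimpleGraph V) {k : ℕ} (c : V → Fin k) (v : V) (x : Fin k) : Prop :=
  x ≠ c v ∧ ∀ w, G.Adj v w → x ≠ c w

theorem proper_upd [DecidableEq V] (G : SimpleGraph V) {k : ℕ} (c : V → Fin k)
    (hc : ∀ u v, G.Adj u v → c u ≠ c v) (v : V) (x : Fin k) (hx : Free G c v x) :
    ∀ u w, G.Adj u w → Function.update c v x u ≠ Function.update c v x w := by
  intro u w h
  by_cases hu : u = v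
  · subst hu
    have hw : w ≠ u := h.ne'
    rw [Function.update_self, Function.update_of_ne hw]
    exact hx.2 w h
  · by_cases hw : w = v
    · subst hw
      rw [Function.update_self, Function.update_of_ne hu]
      exact (hx.2 u h.symm).symm
    · rw [Function.update_of_ne hw, Function.update_of_ne hu]
      exact hc u w h

theorem free_of_proper [DecidableEq V] (G : SimpleGraph V) {k : ℕ} (c : V → Fin k) (v : V)
    (x : Fin k) (hx : x ≠ c v)
    (h : ∀ u w, G.Adj u w → Function.update c v x u ≠ Function.update c v x w) : Free G c v x := by
  refine ⟨hx, fun w hw => ?_⟩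
  have := h v w hw
  rwa [Function.update_self, Function.update_of_ne hw.ne'] at this

theorem proper_upd2 [DecidableEq V] (G : SimpleGraph V) {k : ℕ} (c : V → Fin k)
    (hc : ∀ u v, G.Adj u v → c u ≠ c v) (v w : V) (hvw : v ≠ w) (x y : Fin k)
    (hx : Free G c v x) (hy : Free G c w y) :
    (∀ p q, G.Adj p q → Function.update (Function.update c v x) w y p ≠
      Function.update (Function.update c v x) w y q) ↔ ¬ (G.Adj v w ∧ x = y) := by
  constructor
  · rintro h ⟨h1, h2⟩
    have := h v w h1
    rw [Function.update_self, Function.update_of_ne hvw, Function.update_self] at this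
    exact this h2
  · intro h
    refine proper_upd G _ (proper_upd G c hc v x hx) w y ⟨?_, ?_⟩
    · rw [Function.update_of_ne (Ne.symm hvw)]
      exact hy.1
    · intro u hu
      by_cases huv : u = v
      · subst huv
        rw [Function.update_self]
        intro h2
        exact h ⟨hu.symm, h2.symm⟩
      · rw [Function.update_of_ne huv]
        exact hy.2 u hu

end Pool.Agent.Lib_helper37.GC
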